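import Pool.Agent.Helper68_F5.Hcnt2

/-!
MP_f5cbfa_nt, block N (note 2519 (2)(b)): the conic lemma.  For fixed `v₁ v₂ z` the points `v₃`
with `A⁰_v (v₁, z) = O(d)` lie in one annulus of a fixed form.
-/

set_option autoImplicit false

open MeasureTheory

namespace Pool.Agent.F5H.H9

open Pool.Agent.Helper68_F5

/-- annulus count (J) for the lattice `g`, for all forms close to the base form -/
def JG (K : ℝ) (g : ℤ × ℤ →+ ℂ) : Prop :=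
  ∀ Q : ℝ × ℝ × ℝ, (∀ x : ℂ, |bf (Q - (1, 0, 1)) x x| ≤ 1 / 2 * ‖x‖ ^ 2) →
    ∀ s W : ℝ, 1 ≤ W → s ≤ W ^ 3 → ∀ S : Finset (ℤ × ℤ),
      (∀ z ∈ S, |bf Q (g z) (g z) - s| ≤ W) → (S.card : ℝ) ≤ K * W

/-- algebra behind the conic lemma -/
theorem conic_id (Q : ℝ × ℝ × ℝ) (a b x z : ℂ) :
    wd a b * (bf Q x x * wd a b * wd a z - 2 * bf Q a z * wd x b * wd a x) =
      bf Q a a * (wd a z * wd x b ^ 2 - 2 * wd z b * wd x b * wd a x) +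
        bf Q b b * (wd a z * wd a x ^ 2) := by
  simp only [bf, wd]; ring

theorem conic_id' {Q : ℝ × ℝ × ℝ} {a b : ℂ} (h : wd a b ≠ 0) (ha : bf Q a a = 0)
    (hb : bf Q b b = 0) (x z : ℂ) :
    bf Q x x * wd a b * wd a z = 2 * bf Q a z * wd x b * wd a x := by
  have := conic_id Q a b x z
  rw [ha, hb, zero_mul, zero_mul, add_zero] at this
  have h2 := (mul_eq_zero.1 this).resolve_left h
  linarith

/-- the wedge of `v₁` and a vector in the strip -/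
theorem wd_ge {P c d : ℝ} {v₁ v₂ v₃ z : ℂ} (t : Tri P c v₁ v₂ v₃) (hcP : 20000 * P ^ 3 ≤ c)
    (hd : 8 * d ≤ c * ‖z‖) (h : |sp (vc (A0 c v₁ v₂ v₃) v₁) z| ≤ d) :
    c * ‖z‖ / 2 ≤ |wd v₁ z| := by
  have hc := t.c_pos
  have hP := t.hP
  have h1 := t.short t.n₁ h
  have hP3 : P ≤ P ^ 3 := by
    calc P = P ^ 1 := (pow_one P).symm
      _ ≤ P ^ 3 := pow_le_pow_right₀ hP (by norm_num)
  have hz : 0 ≤ ‖z‖ := norm_nonneg z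
  have h2 : 4608 * P ^ 3 * ‖z‖ ≤ c * ‖z‖ / 4 := by nlinarith
  have h3 : |sp v₁ z| ≤ 3 / 8 * (c * ‖z‖) := by linarith
  have h4 : 9 / 10 * c ≤ ‖v₁‖ := by
    have := (abs_le.1 t.n₁).1
    nlinarith
  have h5 := sp_sq_add_wd_sq v₁ z
  have h6 : sp v₁ z ^ 2 ≤ (3 / 8 * (c * ‖z‖)) ^ 2 := by
    rw [← sq_abs (sp v₁ z)]
    exact pow_le_pow_left₀ (abs_nonneg _) h3 2
  have h7 : (9 / 10 * c * ‖z‖) ^ 2 ≤ ‖v₁‖ ^ 2 * ‖z‖ ^ 2 := by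
    rw [← mul_pow]
    exact pow_le_pow_left₀ (by positivity) (mul_le_mul_of_nonneg_right h4 hz) 2
  have h8 : (c * ‖z‖ / 2) ^ 2 ≤ |wd v₁ z| ^ 2 := by
    rw [sq_abs]
    nlinarith [sq_nonneg (c * ‖z‖)]
  exact le_of_sq_le_sq h8 (abs_nonneg _)
where
  le_of_sq_le_sq {a b : ℝ} (h : a ^ 2 ≤ b ^ 2) (hb : 0 ≤ b) : a ≤ b := by
    exact abs_le_of_sq_le_sq' h hb |>.2

/-- the conic lemma -/
theorem conic {P c d : ℝ} {v₁ v₂ v₃ v₃' z : ℂ} (t : Tri P c v₁ v₂ v₃)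
    (t' : Tri P c v₁ v₂ v₃') (hz : z ≠ 0) (hcP : 20000 * P ^ 3 ≤ c) (hd0 : 0 ≤ d)
    (hd : 8 * d ≤ c * ‖z‖) (h : |sp (vc (A0 c v₁ v₂ v₃) v₁) z| ≤ d)
    (h' : |sp (vc (A0 c v₁ v₂ v₃') v₁) z| ≤ d) :
    |bf (A0 c v₁ v₂ v₃') v₃ v₃ - c ^ 2| ≤ 4096 * P * d * c / ‖z‖ := by
  have hc := t.c_pos
  have hP := t.hP
  have hP0 : 0 < P := by linarith
  have hz0 : 0 < ‖z‖ := norm_pos_iff.2 hz
  have hw := wd_ge t hcP hd h
  obtain ⟨Q, hQ⟩ : ∃ Q, Q = A0 c v₁ v₂ v₃ - A0 c v₁ v₂ v₃' := ⟨_, rfl⟩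
  have q1 : bf Q v₁ v₁ = 0 := by
    rw [hQ, bf_sub_left]
    have a1 : bf (A0 c v₁ v₂ v₃) v₁ v₁ = c ^ 2 := itp_val₁ t.w12 t.w23 t.w31 _ _ _
    have a2 : bf (A0 c v₁ v₂ v₃') v₁ v₁ = c ^ 2 := itp_val₁ t'.w12 t'.w23 t'.w31 _ _ _
    rw [a1, a2, sub_self]
  have q2 : bf Q v₂ v₂ = 0 := by
    rw [hQ, bf_sub_left]
    have a1 : bf (A0 c v₁ v₂ v₃) v₂ v₂ = c ^ 2 := itp_val₂ t.w12 t.w23 t.w31 _ _ _
    have a2 : bf (A0 c v₁ v₂ v₃') v₂ v₂ = c ^ 2 := itp_val₂ t'.w12 t'.w23 t'.w31 _ _ _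
    rw [a1, a2, sub_self]
  have q3 : bf Q v₃ v₃ = c ^ 2 - bf (A0 c v₁ v₂ v₃') v₃ v₃ := by
    rw [hQ, bf_sub_left]
    have a1 : bf (A0 c v₁ v₂ v₃) v₃ v₃ = c ^ 2 := itp_val₃ t.w12 t.w23 t.w31 _ _ _
    rw [a1]
  have q4 : |bf Q v₁ z| ≤ 2 * d := by
    rw [hQ, bf_sub_left]
    rw [bf_vc] at h h'
    have := abs_sub (bf (A0 c v₁ v₂ v₃) v₁ z) (bf (A0 c v₁ v₂ v₃') v₁ z)
    linarith
  have id := conic_id' t.w12 q1 q2 v₃ z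
  have id2 := congrArg abs id
  rw [abs_mul, abs_mul, abs_mul, abs_mul, abs_mul, abs_two, q3] at id2
  have n1 := t.norm_le t.n₁
  have n2 := t.norm_le t.n₂
  have n3 := t.norm_le t.n₃
  have m1 := t.norm_ge t.n₁
  have m2 := t.norm_ge t.n₂
  have w1 : |wd v₃ v₂| ≤ 4 * c ^ 2 := by
    refine le_trans (abs_wd_le _ _) ?_
    calc ‖v₃‖ * ‖v₂‖ ≤ (2 * c) * (2 * c) := mul_le_mul n3 n2 (norm_nonneg _) (by positivity)
      _ = _ := by ring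
  have w2 : |wd v₁ v₃| ≤ 4 * c ^ 2 := by
    refine le_trans (abs_wd_le _ _) ?_
    calc ‖v₁‖ * ‖v₃‖ ≤ (2 * c) * (2 * c) := mul_le_mul n1 n3 (norm_nonneg _) (by positivity)
      _ = _ := by ring
  have w3 : c ^ 2 / (32 * P) ≤ |wd v₁ v₂| := by
    have e1 : (c / 2) * (c / 2) ≤ ‖v₁‖ * ‖v₂‖ := mul_le_mul m1 m2 (by positivity) (norm_nonneg _)
    have e2 := t.w₁₂
    rw [div_le_iff₀ (by positivity)]
    nlinarith
  have up : 2 * |bf Q v₁ z| * |wd v₃ v₂| * |wd v₁ v₃| ≤ 64 * d * c ^ 4 := by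
    have f1 : 2 * |bf Q v₁ z| ≤ 4 * d := by linarith
    calc 2 * |bf Q v₁ z| * |wd v₃ v₂| * |wd v₁ v₃| ≤ (4 * d) * (4 * c ^ 2) * (4 * c ^ 2) := by
          refine mul_le_mul (mul_le_mul f1 w1 (abs_nonneg _) (by positivity)) w2 (abs_nonneg _)
            (by positivity)
      _ = _ := by ring
  have lo : |c ^ 2 - bf (A0 c v₁ v₂ v₃') v₃ v₃| * (c ^ 2 / (32 * P)) * (c * ‖z‖ / 2) ≤
      |c ^ 2 - bf (A0 c v₁ v₂ v₃') v₃ v₃| * |wd v₁ v₂| * |wd v₁ z| := by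
    refine mul_le_mul (mul_le_mul_of_nonneg_left w3 (abs_nonneg _)) hw (by positivity)
      (by positivity)
  rw [id2] at lo
  have fin := le_trans lo up
  rw [abs_sub_comm, le_div_iff₀ hz0]
  have e3 : |c ^ 2 - bf (A0 c v₁ v₂ v₃') v₃ v₃| * (c ^ 2 / (32 * P)) * (c * ‖z‖ / 2) =
      |c ^ 2 - bf (A0 c v₁ v₂ v₃') v₃ v₃| * ‖z‖ * (c ^ 3 / (64 * P)) := by
    field_simp; ring
  have e4 : 64 * d * c ^ 4 = 4096 * P * d * c * (c ^ 3 / (64 * P)) := by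
    field_simp; ring
  rw [e3, e4] at fin
  exact le_of_mul_le_mul_right fin (by positivity)

/-- number of `v₃` for fixed `v₁ v₂ z` -/
theorem conic_count {K : ℝ} {g : ℤ × ℤ →+ ℂ} (hJ : JG K g) {P c d : ℝ} {v₁ v₂ z : ℂ}
    (hK : 0 ≤ K) (hz : z ≠ 0) (hcP : 20000 * P ^ 3 ≤ c) (hd0 : 0 ≤ d) (hd : 8 * d ≤ c * ‖z‖)
    (hP : 1 ≤ P) (S : Finset (ℤ × ℤ)) (hS : ∀ w ∈ S, Tri P c v₁ v₂ (g w) ∧
      |sp (vc (A0 c v₁ v₂ (g w)) v₁) z| ≤ d) :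
    (S.card : ℝ) ≤ K * (4096 * P * d * c / ‖z‖ + c ^ (2 / 3 : ℝ)) := by
  have hP3 : 1 ≤ P ^ 3 := one_le_pow₀ hP
  have hc1 : 1 ≤ c := by linarith
  have hc : 0 < c := by linarith
  have hz0 : 0 < ‖z‖ := norm_pos_iff.2 hz
  have hX : 0 ≤ 4096 * P * d * c / ‖z‖ := by positivity
  have hC1 : 1 ≤ c ^ (2 / 3 : ℝ) := Real.one_le_rpow hc1 (by norm_num)
  by_cases hne : S.Nonempty
  · obtain ⟨w', hw'⟩ := hne
    obtain ⟨t', h'⟩ := hS w' hw'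
    refine hJ (A0 c v₁ v₂ (g w')) ?_ (c ^ 2) _ (by linarith) ?_ S ?_
    · intro x
      refine le_trans (t'.A0_sub x x) ?_
      have e1 : 2304 * P ^ 3 / c ≤ 1 / 2 := by
        rw [div_le_iff₀ hc]
        linarith
      calc 2304 * P ^ 3 / c * (‖x‖ * ‖x‖) ≤ 1 / 2 * (‖x‖ * ‖x‖) :=
            mul_le_mul_of_nonneg_right e1 (by positivity)
        _ = _ := by ring
    · have e2 : (c ^ (2 / 3 : ℝ)) ^ 3 = c ^ 2 := by
        rw [← Real.rpow_natCast, ← Real.rpow_mul hc.le, ← Real.rpow_natCast]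
        norm_num
      rw [← e2]
      exact pow_le_pow_left₀ (by positivity) (by linarith) 3
    · intro w hw
      obtain ⟨t, h⟩ := hS w hw
      refine le_trans (conic t t' hz hcP hd0 hd h h') ?_
      linarith
  · rw [Finset.not_nonempty_iff_eq_empty] at hne
    rw [hne]
    simp only [Finset.card_empty, Nat.cast_zero]
    positivity

end Pool.Agent.F5H.H9
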