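import Pool.Agent.Helper9_F5H.DuB2
import Pool.Agent.Helper38_F5.DuA

/-!
MP_f5cbfa_nt, block N: `DU1` in case B (`4 V₁ ≤ V₀`, `V₁ ≤ 4 V₂`), and `DU1Stmt`.
-/

set_option autoImplicit false

open MeasureTheory

namespace Pool.Agent.F5H.H9

open Pool.Agent.BTL Pool.Agent.F5H.BN Pool.Agent.Helper68_F5 Pool.Agent.Helper38_F5

/-- **`DU1` in case B** -/
theorem duB : ∃ c : ℕ, ∀ T Q : ℝ, 2 ≤ Q → Real.log T ≤ Q →
    Q ^ c ≤ T ^ (1 / 100000 : ℝ) → ∀ (g : ℤ × ℤ →+ ℂ) (V : Fin 3 → ℝ) (R₁ : ℝ),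
    Sep 1 g → JG Q g → FamV Q T V → 4 * V 1 ≤ V 0 → V 1 ≤ 4 * V 2 →
    R₁ ≤ Q * bare T V → bare T V ≤ Q * R₁ → SC Q T R₁ g V ≤ ENNReal.ofReal (Q ^ c * R₁) := by
  classical
  obtain ⟨K, hK, hpc⟩ := pieceB
  obtain ⟨K', hK', hcnt'⟩ := tri_count
  obtain ⟨κ, hκ⟩ := pow_unbounded_of_one_lt (K + K' ^ 2) (by norm_num : (1 : ℝ) < 2)
  refine ⟨κ + 1000, ?_⟩
  intro T Q hQ hlog hTQ g V R₁ hg hJ f h10 h12 hR1 hR2
  have a := par_of hQ hlog (by omega) hTQ f hR1 hR2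
  have hT : 1 ≤ T := Helper38_F5.T_pos hQ hTQ f
  have hT0 : 0 < T := by linarith
  have hQ0 : 0 < Q := by linarith
  have hQ1 : 1 ≤ Q := by linarith
  have hb := bare_ge T V
  have hR₁0 : 0 ≤ R₁ := by
    by_contra hcon
    rw [not_le] at hcon
    have := mul_neg_of_pos_of_neg hQ0 hcon
    linarith
  have a2 := f.h2
  have a1 := f.h12
  have a0 := f.h01
  have b : HB Q T R₁ V := ⟨a, hT, a1, h12, h10, f.h1, hR2, hR1⟩
  have hR₁T : Q ^ 3 * R₁ ≤ T := b.RT le_rfl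
  have hκQ : K + K' ^ 2 ≤ Q ^ κ :=
    le_trans hκ.le (pow_le_pow_left₀ (by norm_num) hQ κ)
  have hKQ : K ≤ Q ^ κ := by nlinarith
  have hK'Q : K' ^ 2 ≤ Q ^ κ := by linarith
  have hQ9 : (1 : ℝ) ≤ Q ^ 9 := one_le_pow₀ hQ1
  refine sc_fin fun 𝓟 h𝓟 => ?_
  -- pieces
  have hpiece : ∀ R : ℝ, 20000 * Q ^ 9 ≤ R → R ≤ T →
      ∑ p ∈ 𝓟.filter (fun p => R ≤ ‖g p.1.1‖ ∧ ‖g p.1.1‖ ≤ 2 * R), vlm Q T R₁ g p ≤
        ENNReal.ofReal (Q ^ (κ + 94) * R₁) := by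
    intro R hRm hRT
    obtain ⟨𝓠, h𝓠⟩ : ∃ 𝓠, 𝓠 = 𝓟.filter (fun p => R ≤ ‖g p.1.1‖ ∧ ‖g p.1.1‖ ≤ 2 * R) := ⟨_, rfl⟩
    rw [← h𝓠]
    have hmem : ∀ p ∈ 𝓠, p ∈ 𝓟 ∧ R ≤ ‖g p.1.1‖ ∧ ‖g p.1.1‖ ≤ 2 * R := by
      intro p hp; rw [h𝓠, Finset.mem_filter] at hp; exact hp
    rcases 𝓠.eq_empty_or_nonempty with he | ⟨p₀, hp₀⟩
    · rw [he, Finset.sum_empty]; exact bot_le
    have hRR : R ≤ Q ^ 3 * R₁ := by
      obtain ⟨h1, h2, -⟩ := hmem p₀ hp₀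
      obtain ⟨hf, m, hm⟩ := h𝓟 p₀ h1
      have h5 : ‖g p₀.1.1‖ ≤ Q ^ 3 * R₁ := v_len a hT hf hm 0
      linarith
    refine le_trans (hpc T Q R₁ V g b hg hJ R hRm hRR 𝓠 fun p hp => ?_) ?_
    · obtain ⟨h1, h2, h3⟩ := hmem p hp
      exact ⟨(h𝓟 p h1).1, h2, h3⟩
    · apply ENNReal.ofReal_le_ofReal
      refine mul_le_mul_of_nonneg_right ?_ hR₁0
      calc K * Q ^ 94 ≤ Q ^ κ * Q ^ 94 := mul_le_mul_of_nonneg_right hKQ (by positivity)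
        _ = Q ^ (κ + 94) := by rw [pow_add]
  -- small vectors
  have hsmall : ∑ p ∈ 𝓟.filter (fun p => ‖g p.1.1‖ < 20000 * Q ^ 9), vlm Q T R₁ g p ≤
      ENNReal.ofReal (Q ^ (κ + 189) * R₁) := by
    obtain ⟨𝓠, h𝓠⟩ : ∃ 𝓠, 𝓠 = 𝓟.filter (fun p => ‖g p.1.1‖ < 20000 * Q ^ 9) := ⟨_, rfl⟩
    rw [← h𝓠]
    have hmem : ∀ p ∈ 𝓠, p ∈ 𝓟 ∧ ‖g p.1.1‖ < 20000 * Q ^ 9 := by
      intro p hp; rw [h𝓠, Finset.mem_filter] at hp; exact hp
    have c1 := hcnt' g hg (fun _ => 40000 * Q ^ 9) (fun _ => by linarith)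
      (𝓠.image (fun p => p.1)) (by
        intro v hv l
        rw [Finset.mem_image] at hv
        obtain ⟨p, hp, rfl⟩ := hv
        obtain ⟨h1, h2⟩ := hmem p hp
        obtain ⟨hf, m, hm⟩ := h𝓟 p h1
        have h3 := (abs_le.1 (v_eq a hT hf hm l 0)).2
        have h5 : g3 g p.1 0 = g p.1.1 := rfl
        rw [h5] at h3
        have h6 : Q ^ 3 ≤ Q ^ 9 := pow_le_pow_right₀ hQ1 (by norm_num)
        linarith)
    have c2 := hcnt' g hg V a.hV1 (𝓠.image (fun p => p.2)) (by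
        intro h hh l
        rw [Finset.mem_image] at hh
        obtain ⟨p, hp, rfl⟩ := hh
        exact ((h𝓟 p (hmem p hp).1).1 l).2)
    have card := card_pairs 𝓠 (by positivity) c1 c2
    refine le_trans (sum_vlm (B := 10 ^ 8 * Q ^ 6 / T ^ 2) (by positivity) card ?_) ?_
    · intro p hp
      exact volNRC a hT (h𝓟 p (hmem p hp).1).1 h10 a1 h12
    · apply ENNReal.ofReal_le_ofReal
      have hbare : (V 0 * V 1 * V 2 / T) ^ 2 ≤ bare T V := le_max_right _ _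
      calc K' * (40000 * Q ^ 9 * (40000 * Q ^ 9) * (40000 * Q ^ 9)) ^ 2 *
            (K' * (V 0 * V 1 * V 2) ^ 2) * (10 ^ 8 * Q ^ 6 / T ^ 2)
          = K' ^ 2 * ((40000 ^ 6 * 10 ^ 8) * Q ^ 60) * (V 0 * V 1 * V 2 / T) ^ 2 := by ring
        _ ≤ Q ^ κ * (Q ^ 128 * Q ^ 60) * (Q * R₁) := by
            refine mul_le_mul (mul_le_mul hK'Q (mul_le_mul_of_nonneg_right ?_ (by positivity))
              (by positivity) (by positivity)) (le_trans hbare hR2) (by positivity) (by positivity)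
            have h1 : (2 : ℝ) ^ 128 ≤ Q ^ 128 := pow_le_pow_left₀ (by norm_num) hQ 128
            have h2 : (40000 : ℝ) ^ 6 * 10 ^ 8 ≤ 2 ^ 128 := by norm_num
            linarith
        _ = Q ^ (κ + 189) * R₁ := by ring
  have main := dyad (Rm := 20000 * Q ^ 9) hQ hT hlog (by linarith) (vlm Q T R₁ g) 𝓟 (by
    intro p hp
    obtain ⟨hf, m, hm⟩ := h𝓟 p hp
    have h5 : ‖g p.1.1‖ ≤ Q ^ 3 * R₁ := v_len a hT hf hm 0
    linarith) hsmall hpiece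
  refine le_trans main ?_
  rw [← ENNReal.ofReal_mul (by positivity), ← ENNReal.ofReal_add (by positivity) (by positivity)]
  apply ENNReal.ofReal_le_ofReal
  have e1 : 3 * Q ≤ Q ^ 3 := by nlinarith [sq_nonneg Q]
  have e2 : 3 * Q * (Q ^ (κ + 94) * R₁) ≤ Q ^ (κ + 189) * R₁ := by
    calc 3 * Q * (Q ^ (κ + 94) * R₁) ≤ Q ^ 3 * (Q ^ (κ + 94) * R₁) :=
          mul_le_mul_of_nonneg_right e1 (by positivity)
      _ = Q ^ (κ + 97) * R₁ := by ring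
      _ ≤ Q ^ (κ + 189) * R₁ :=
          mul_le_mul_of_nonneg_right (pow_le_pow_right₀ hQ1 (by omega)) hR₁0
  calc Q ^ (κ + 189) * R₁ + 3 * Q * (Q ^ (κ + 94) * R₁)
      ≤ Q ^ (κ + 189) * R₁ + Q ^ (κ + 189) * R₁ := by linarith
    _ ≤ Q * (Q ^ (κ + 189) * R₁) := by
        have : 0 ≤ Q ^ (κ + 189) * R₁ := by positivity
        nlinarith
    _ = Q ^ (κ + 190) * R₁ := by ring
    _ ≤ Q ^ (κ + 1000) * R₁ :=
        mul_le_mul_of_nonneg_right (pow_le_pow_right₀ hQ1 (by omega)) hR₁0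

/-- **`DU1`** -/
theorem du1 : DU1Stmt := by
  obtain ⟨cA, hA⟩ := duA
  obtain ⟨cB, hB⟩ := duB
  refine ⟨cA + cB, ?_⟩
  intro T Q hQ hlog hTQ g V R₁ hg hJ f hcase hR1 hR2
  have hQ1 : 1 ≤ Q := by linarith
  have hR₁0 : 0 ≤ R₁ := by
    by_contra hcon
    rw [not_le] at hcon
    have := mul_neg_of_pos_of_neg (show 0 < Q by linarith) hcon
    linarith [bare_ge T V]
  have mono : ∀ c : ℕ, c ≤ cA + cB → SC Q T R₁ g V ≤ ENNReal.ofReal (Q ^ c * R₁) →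
      SC Q T R₁ g V ≤ ENNReal.ofReal (Q ^ (cA + cB) * R₁) := fun c hc h =>
    le_trans h (ENNReal.ofReal_le_ofReal
      (mul_le_mul_of_nonneg_right (pow_le_pow_right₀ hQ1 hc) hR₁0))
  rcases le_total (4 * V 2) (V 1) with h4 | h4
  · exact mono cA (by omega) (hA T Q hQ hlog (le_trans (pow_le_pow_right₀ hQ1 (by omega)) hTQ) g V
      R₁ hg hJ f h4 hR1 hR2)
  · rcases hcase with h5 | h5
    · exact mono cA (by omega) (hA T Q hQ hlog (le_trans (pow_le_pow_right₀ hQ1 (by omega)) hTQ) g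
        V R₁ hg hJ f h5 hR1 hR2)
    · exact mono cB (by omega) (hB T Q hQ hlog (le_trans (pow_le_pow_right₀ hQ1 (by omega)) hTQ) g
        V R₁ hg hJ f h5 h4 hR1 hR2)

end Pool.Agent.F5H.H9
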