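import Pool.Agent.Helper9_F5H.Cnt2
import Pool.Agent.Helper96_DZ.J
import Pool.Agent.Helper38_F5.Box
import Pool.Agent.Helper38_F5.Ann
import Pool.Agent.Helper38_F5.Strip
import Pool.Agent.Helper38_F5.Short

/-!
MP_f5cbfa_nt, block N: the annulus count `JG` for the frame of a form `A ∈ KM M` (from helper96's
`annulus`), and the pair counts without hypotheses.
-/

set_option autoImplicit false

open MeasureTheory

namespace Pool.Agent.F5H.H9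

open Pool.Agent.BTL Pool.Agent.Helper68_F5

/-- real combination -/
noncomputable def rco (u w : ℂ) (x : ℝ × ℝ) : ℂ := ((x.1 : ℝ) : ℂ) * u + ((x.2 : ℝ) : ℂ) * w

theorem g_eq (g : ℤ × ℤ →+ ℂ) (z : ℤ × ℤ) : g z = rco (g (1, 0)) (g (0, 1)) (rc z) := by
  have h : z = z.1 • ((1, 0) : ℤ × ℤ) + z.2 • ((0, 1) : ℤ × ℤ) := by
    ext <;> simp
  have h2 : g z = g (z.1 • ((1, 0) : ℤ × ℤ) + z.2 • ((0, 1) : ℤ × ℤ)) := congrArg g h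
  rw [h2, map_add, map_zsmul, map_zsmul, zsmul_eq_mul, zsmul_eq_mul, rco, rc]
  push_cast
  rfl

theorem bf_rco (Q : ℝ × ℝ × ℝ) (u w : ℂ) (x : ℝ × ℝ) :
    bf Q (rco u w x) (rco u w x) = qf (bf Q u u, bf Q u w, bf Q w w) x := by
  simp only [bf, rco, qf, Complex.add_re, Complex.add_im, Complex.mul_re, Complex.mul_im,
    Complex.ofReal_re, Complex.ofReal_im]
  ring

theorem norm_rco {A : ℝ × ℝ × ℝ} {g : ℤ × ℤ →+ ℂ} (hg : ∀ z, ‖g z‖ ^ 2 = qz A z)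
    (x : ℝ × ℝ) : ‖rco (g (1, 0)) (g (0, 1)) x‖ ^ 2 = qf A x := by
  have h1 := hg (1, 0)
  have h2 := hg (0, 1)
  have h3 := hg ((1, 0) + (0, 1))
  rw [map_add] at h3
  rw [← sp_self, ← bf_one] at h1 h2 h3 ⊢
  rw [bf_rco]
  rw [bf_add, bf_add', bf_add'] at h3
  rw [bf_comm _ (g (0, 1)) (g (1, 0))] at h3
  have e1 : qz A (1, 0) = A.1 := by simp [qz, qf, rc]
  have e2 : qz A (0, 1) = A.2.2 := by simp [qz, qf, rc]
  have e3 : qz A ((1, 0) + (0, 1)) = A.1 + 2 * A.2.1 + A.2.2 := by simp [qz, qf, rc]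
  rw [e1] at h1
  rw [e2] at h2
  rw [e3] at h3
  have h4 : bf (1, 0, 1) (g (1, 0)) (g (0, 1)) = A.2.1 := by linarith
  rw [h1, h2, h4]

/-- the annulus count for the frame of `A ∈ KM M` -/
theorem jg_of {M : ℝ} (hM : 1 ≤ M) : ∃ K : ℝ, 1 ≤ K ∧ ∀ A ∈ KM M, ∀ g : ℤ × ℤ →+ ℂ,
    (∀ z, ‖g z‖ ^ 2 = qz A z) → JG K g := by
  obtain ⟨C, hC, h⟩ := Pool.Agent.Helper96_DZ.annulus (M := 2 * M) (by linarith)
  refine ⟨C, hC, ?_⟩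
  intro A hA g hg Q hQ s W hW hs S hS
  obtain ⟨u, hu⟩ : ∃ u, u = g (1, 0) := ⟨_, rfl⟩
  obtain ⟨w, hw⟩ : ∃ w, w = g (0, 1) := ⟨_, rfl⟩
  refine h (bf Q u u, bf Q u w, bf Q w w) ?_ W s hW hs S ?_
  · intro x
    have hx := hQ (rco u w x)
    rw [bf_sub_left, bf_one, sp_self, bf_rco, hu, hw, norm_rco hg x, ← hu, ← hw] at hx
    have hAx := hA x
    have hM0 : 0 < M := by linarith
    have h1 := abs_le.1 hx
    have e1 : nr x / (2 * M) = nr x / M / 2 := by field_simp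
    have hn : 0 ≤ nr x := by unfold nr; positivity
    have hMn : 0 ≤ M * nr x := by positivity
    refine ⟨?_, ?_⟩
    · rw [e1]
      linarith [hAx.1]
    · linarith [hAx.2]
  · intro z hz
    have := hS z hz
    rw [g_eq g z, ← hu, ← hw, bf_rco] at this
    exact this

/-- the frame is separated -/
theorem sep_of {M : ℝ} (hM : 1 ≤ M) {A : ℝ × ℝ × ℝ} (hA : A ∈ KM M) {g : ℤ × ℤ →+ ℂ}
    (hg : ∀ z, ‖g z‖ ^ 2 = qz A z) : Sep (1 / M) g := by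
  intro z hz
  have hM0 : 0 < M := by linarith
  have h1 := (hA (rc z)).1
  have h2 : 1 ≤ nr (rc z) := by
    have : (1 : ℤ) ≤ z.1 ^ 2 + z.2 ^ 2 := by
      by_contra hcon
      push Not at hcon
      have h3 : z.1 ^ 2 + z.2 ^ 2 ≤ 0 := by omega
      have h4 : z.1 = 0 := by nlinarith [sq_nonneg z.1, sq_nonneg z.2]
      have h5 : z.2 = 0 := by nlinarith [sq_nonneg z.1, sq_nonneg z.2]
      exact hz (Prod.ext h4 h5)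
    have h6 : ((1 : ℤ) : ℝ) ≤ ((z.1 ^ 2 + z.2 ^ 2 : ℤ) : ℝ) := by exact_mod_cast this
    push_cast at h6
    simpa [nr, rc] using h6
  have h3 : (1 / M) ^ 2 ≤ ‖g z‖ ^ 2 := by
    rw [hg z]
    have h4 : qz A z = qf A (rc z) := rfl
    rw [h4]
    have h5 : 1 / M ≤ nr (rc z) / M := div_le_div_of_nonneg_right h2 hM0.le
    have h6 : (1 / M) ^ 2 ≤ 1 / M := by
      have h7 : 1 / M ≤ 1 := by rw [div_le_one hM0]; exact hM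
      have h8 : 0 < 1 / M := by positivity
      nlinarith
    linarith
  exact abs_le_of_sq_le_sq' h3 (norm_nonneg _) |>.2

/-- **the conic pair count** for the frame of `A ∈ KM M`, no hypotheses left -/
theorem pairC {M : ℝ} (hM : 1 ≤ M) : ∃ K : ℝ, 1 ≤ K ∧ ∀ A ∈ KM M, ∀ g : ℤ × ℤ →+ ℂ,
    (∀ z, ‖g z‖ ^ 2 = qz A z) →
      ∀ (P R S V₁ V₂ V₃ ω₁ ω₂ ω₃ : ℝ), 1 ≤ P → 20000 * P ^ 3 ≤ R → 0 < S →
      1 ≤ V₂ → V₂ ≤ V₁ → 0 ≤ V₃ → V₃ ≤ V₂ → 0 ≤ ω₁ → 0 ≤ ω₂ → 0 ≤ ω₃ →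
      ∀ 𝓟 : Finset (T3 × T3), (∀ p ∈ 𝓟, Pair g P R S V₁ V₂ V₃ ω₁ ω₂ ω₃ p.1 p.2) →
        (𝓟.card : ℝ) ≤ K * P ^ 8 * NC P R S V₁ V₂ V₃ ω₁ ω₂ ω₃ := by
  obtain ⟨KJ, hKJ, hJ⟩ := jg_of hM
  have hM0 : 0 < M := by linarith
  obtain ⟨K, hK, h⟩ := pair_count_conic Pool.Agent.Helper38_F5.strip
    Pool.Agent.Helper38_F5.discStrip Pool.Agent.Helper38_F5.box Pool.Agent.Helper38_F5.ann
    Pool.Agent.Helper38_F5.annStrip Pool.Agent.Helper38_F5.short (1 / M) (by positivity) KJ hKJ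
  exact ⟨K, hK, fun A hA g hg => h g (sep_of hM hA hg) (hJ A hA g hg)⟩

/-- the crude pair count of helper68 for the frame of `A ∈ KM M`, no hypotheses left -/
theorem pairB {M : ℝ} (hM : 1 ≤ M) : ∃ K : ℝ, 1 ≤ K ∧ ∀ A ∈ KM M, ∀ g : ℤ × ℤ →+ ℂ,
    (∀ z, ‖g z‖ ^ 2 = qz A z) →
      ∀ (P R S V₁ V₂ V₃ ω₁ ω₂ ω₃ : ℝ), 1 ≤ P → 4 * P ≤ R → 0 < S →
      1 ≤ V₂ → V₂ ≤ V₁ → 0 ≤ V₃ → V₃ ≤ V₂ → 0 ≤ ω₁ → 0 ≤ ω₂ → 0 ≤ ω₃ →
      ∀ 𝓟 : Finset (T3 × T3), (∀ p ∈ 𝓟, Pair g P R S V₁ V₂ V₃ ω₁ ω₂ ω₃ p.1 p.2) →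
        (𝓟.card : ℝ) ≤ K * P ^ 8 * NB P R S V₁ V₂ V₃ ω₁ ω₂ ω₃ := by
  have hM0 : 0 < M := by linarith
  obtain ⟨K, hK, h⟩ := pair_count Pool.Agent.Helper38_F5.strip
    Pool.Agent.Helper38_F5.discStrip Pool.Agent.Helper38_F5.box Pool.Agent.Helper38_F5.ann
    Pool.Agent.Helper38_F5.annStrip Pool.Agent.Helper38_F5.short (1 / M) (by positivity)
  exact ⟨K, hK, fun A hA g hg => h g (sep_of hM hA hg)⟩

end Pool.Agent.F5H.H9
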