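import Pool.Agent.Helper9_F5H.Core
import Pool.Agent.Helper9_F5H.JGA

/-!
MP_f5cbfa_nt, block N: the conic pair count with two lengths `L₂`, `L₃` (the corner where `h₂` and
`h₃` are almost parallel to `v₂` and `v₃`).
-/

set_option autoImplicit false

open MeasureTheory

namespace Pool.Agent.F5H.H9

open Pool.Agent.BTL Pool.Agent.Helper68_F5

/-- vectors in the difference strip with bounded `wd` are short -/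
theorem len_diff {P c R W L : ℝ} {v₁ v₂ v₃ v z : ℂ} (t : Tri P c v₁ v₂ v₃)
    (hPR : 20000 * P ^ 3 ≤ R) (hRc : R ≤ c) (hv : |‖v‖ - c| ≤ P)
    (h1 : |sp (vc (A0 c v₁ v₂ v₃) v) z| ≤ 2 * W) (h2 : |wd v z| ≤ 2 * (R * L)) :
    ‖z‖ ≤ 4 * (W / R + L) := by
  have hP := t.hP
  have hP3 : 1 ≤ P ^ 3 := one_le_pow₀ hP
  have hPP3 : P ≤ P ^ 3 := by
    calc P = P ^ 1 := (pow_one P).symm
      _ ≤ P ^ 3 := pow_le_pow_right₀ hP (by norm_num)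
  have hR0 : 0 < R := by linarith
  have h3 := t.short hv h1
  have h4 := sp_sq_add_wd_sq v z
  have h5 : ‖v‖ * ‖z‖ ≤ |sp v z| + |wd v z| := by
    have hn : 0 ≤ |sp v z| + |wd v z| := by positivity
    refine abs_le_of_sq_le_sq' (a := ‖v‖ * ‖z‖) ?_ hn |>.2
    have e1 : (‖v‖ * ‖z‖) ^ 2 = |sp v z| ^ 2 + |wd v z| ^ 2 := by
      rw [sq_abs, sq_abs, h4]; ring
    rw [e1]
    nlinarith [mul_nonneg (abs_nonneg (sp v z)) (abs_nonneg (wd v z))]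
  have h6 := (abs_le.1 hv).1
  have hz := norm_nonneg z
  have h7 : R / 2 * ‖z‖ ≤ 2 * W + 2 * (R * L) := by
    have h8 : (R / 2 + 4608 * P ^ 3) * ‖z‖ ≤ ‖v‖ * ‖z‖ :=
      mul_le_mul_of_nonneg_right (by linarith) hz
    nlinarith
  have h9 : ‖z‖ ≤ (2 * W + 2 * (R * L)) / (R / 2) := by
    rw [le_div_iff₀ (by positivity)]
    linarith
  refine le_trans h9 (le_of_eq ?_)
  field_simp
  ring

/-- one strip with bounded `wd` -/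
theorem dcountL (hst : StripStmt) : ∀ c₀ : ℝ, 0 < c₀ → ∃ K : ℝ, 1 ≤ K ∧ ∀ g : ℤ × ℤ →+ ℂ,
    Sep c₀ g → ∀ (P c R G L W w : ℝ) (v₁ v₂ v₃ v : ℂ), Tri P c v₁ v₂ v₃ → 20000 * P ^ 3 ≤ R →
      R ≤ c → 1 ≤ G → |‖v‖ - c| ≤ P → bf (A0 c v₁ v₂ v₃) v v = c ^ 2 → 0 ≤ L → 0 ≤ W →
      ∀ S : Finset (ℤ × ℤ), (∀ z ∈ S, |wd v (g z)| ≤ R * L) →
        (∀ z ∈ S, |bf (A0 c v₁ v₂ v₃) v (g z) - w| ≤ W) →
        (S.card : ℝ) ≤ K * DQ g G (1 + L + W / R) W (vc (A0 c v₁ v₂ v₃) v) := by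
  classical
  intro c₀ hc₀
  obtain ⟨K, hK, h⟩ := dcount2 hst c₀ hc₀
  refine ⟨4 * K, by linarith, ?_⟩
  intro g hg P c R G L W w v₁ v₂ v₃ v t hPR hRc hG hv hA hL hW S hS1 hS2
  have hP := t.hP
  have hP3 : 1 ≤ P ^ 3 := one_le_pow₀ hP
  have hR0 : 0 < R := by linarith
  have hWR : 0 ≤ W / R := by positivity
  have ha := t.norm_vc_ge hv hA
  have ha0 : 0 < ‖vc (A0 c v₁ v₂ v₃) v‖ := by linarith
  obtain ⟨D, hD⟩ : ∃ D, D = DQ g G (1 + L + W / R) W (vc (A0 c v₁ v₂ v₃) v) := ⟨_, rfl⟩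
  have hD1 : 1 ≤ D := by
    rw [hD]
    exact DQ_ge g (by linarith) (by linarith) hW _
  rw [← hD]
  rcases S.eq_empty_or_nonempty with h0 | ⟨z₀, hz₀⟩
  · rw [h0]
    simp only [Finset.card_empty, Nat.cast_zero]
    have : 0 < K := by linarith
    positivity
  · have hinj : Function.Injective (fun z : ℤ × ℤ => z - z₀) := fun a b hab => by
      simpa using hab
    rw [← Finset.card_image_of_injective S hinj]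
    have key := h g hg P c G (4 * (1 + L + W / R)) W (w - bf (A0 c v₁ v₂ v₃) v (g z₀)) v₁ v₂ v₃ v
      t hG hv hA (by linarith) hW (S.image (fun z => z - z₀)) (fun y hy => by
        rw [Finset.mem_image] at hy
        obtain ⟨z, hz, rfl⟩ := hy
        have e1 : |sp (vc (A0 c v₁ v₂ v₃) v) (g (z - z₀))| ≤ 2 * W := by
          rw [bf_vc, map_sub, bf_sub]
          have a1 := abs_le.1 (hS2 z hz)
          have a2 := abs_le.1 (hS2 z₀ hz₀)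
          rw [abs_le]
          constructor <;> linarith [a1.1, a1.2, a2.1, a2.2]
        have e2 : |wd v (g (z - z₀))| ≤ 2 * (R * L) := by
          rw [map_sub, wd_sub]
          have a1 := abs_le.1 (hS1 z hz)
          have a2 := abs_le.1 (hS1 z₀ hz₀)
          rw [abs_le]
          constructor <;> linarith [a1.1, a1.2, a2.1, a2.2]
        have := len_diff t hPR hRc hv e1 e2
        linarith) (fun y hy => by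
        rw [Finset.mem_image] at hy
        obtain ⟨z, hz, rfl⟩ := hy
        rw [map_sub, bf_sub]
        have := hS2 z hz
        have e : bf (A0 c v₁ v₂ v₃) v (g z) - bf (A0 c v₁ v₂ v₃) v (g z₀) -
          (w - bf (A0 c v₁ v₂ v₃) v (g z₀)) = bf (A0 c v₁ v₂ v₃) v (g z) - w := by ring
        rw [e]
        exact this)
    have e3 : DQ g G (4 * (1 + L + W / R)) W (vc (A0 c v₁ v₂ v₃) v) ≤ 4 * D := by
      rw [hD]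
      unfold DQ
      have e4 : ∑ z ∈ (lt g G).filter (fun z => z ≠ 0 ∧
          |sp (vc (A0 c v₁ v₂ v₃) v) (g z)| ≤ 2 * W), 4 * (1 + L + W / R) / ‖g z‖ =
          4 * ∑ z ∈ (lt g G).filter (fun z => z ≠ 0 ∧
          |sp (vc (A0 c v₁ v₂ v₃) v) (g z)| ≤ 2 * W), (1 + L + W / R) / ‖g z‖ := by
        rw [Finset.mul_sum]
        exact Finset.sum_congr rfl fun z _ => by ring
      rw [e4]
      have e5 : 4 * (1 + L + W / R) / G = 4 * ((1 + L + W / R) / G) := by ring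
      have e6 : 4 * (1 + L + W / R) * W / ‖vc (A0 c v₁ v₂ v₃) v‖ =
        4 * ((1 + L + W / R) * W / ‖vc (A0 c v₁ v₂ v₃) v‖) := by ring
      rw [e5, e6]
      linarith
    refine le_trans key ?_
    calc K * DQ g G (4 * (1 + L + W / R)) W (vc (A0 c v₁ v₂ v₃) v) ≤ K * (4 * D) :=
          mul_le_mul_of_nonneg_left e3 (by linarith)
      _ = 4 * K * D := by ring

/-- number of `h` for fixed `v`, with the two lengths -/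
theorem hcountL (hst : StripStmt) (hbox : BoxStmt) : ∀ c₀ : ℝ, 0 < c₀ → ∃ K : ℝ, 1 ≤ K ∧
    ∀ g : ℤ × ℤ →+ ℂ, Sep c₀ g → ∀ (P R S c V₁ V₂ V₃ ω₁ ω₂ ω₃ L₂ L₃ G₁ G₂ : ℝ) (v₁ v₂ v₃ : ℂ),
      Tri P c v₁ v₂ v₃ → 20000 * P ^ 3 ≤ R → 1 ≤ G₁ → 1 ≤ G₂ → R ≤ c → c ≤ 2 * R → 0 < S →
      1 ≤ V₂ → V₂ ≤ V₁ → 0 ≤ V₃ → V₃ ≤ V₂ → 0 ≤ ω₁ → 0 ≤ ω₂ → 0 ≤ ω₃ → 0 ≤ L₂ → 0 ≤ L₃ →
      ∀ 𝓗 : Finset T3,
        (∀ h ∈ 𝓗, HWin S c V₁ V₂ V₃ ω₁ ω₂ ω₃ v₁ v₂ v₃ (g h.1) (g h.2.1) (g h.2.2) ∧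
          |wd v₂ (g h.2.1)| ≤ R * L₂ ∧ |wd v₃ (g h.2.2)| ≤ R * L₃) →
        (𝓗.card : ℝ) ≤ K * DQ g G₁ V₁ (WW P R S V₁ V₁ ω₁) (vc (A0 c v₁ v₂ v₃) v₁) *
          DQ g G₂ (1 + L₂ + WW P R S V₁ V₂ ω₂ / R) (WW P R S V₁ V₂ ω₂) (vc (A0 c v₁ v₂ v₃) v₂) *
          ((1 + V₃) * (1 + L₃)) := by
  classical
  intro c₀ hc₀
  obtain ⟨K₁, hK₁, hD⟩ := dcount2 hst c₀ hc₀
  obtain ⟨K₃, hK₃, hDL⟩ := dcountL hst c₀ hc₀
  obtain ⟨K₂, hK₂, hB⟩ := hbox c₀ hc₀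
  refine ⟨K₁ * K₃ * (K₂ * 2), by nlinarith [mul_le_mul hK₁ hK₃ zero_le_one (by linarith)], ?_⟩
  intro g hg P R S c V₁ V₂ V₃ ω₁ ω₂ ω₃ L₂ L₃ G₁ G₂ v₁ v₂ v₃ t hPR hG₁ hG₂ hRc hcR hS hV2 h21 h3
    h32 hω₁ hω₂ hω₃ hL₂ hL₃ 𝓗 h𝓗
  have hP3 : 1 ≤ P ^ 3 := one_le_pow₀ t.hP
  have hR : 1 ≤ R := by linarith
  have hc := t.c_pos
  have hR0 : 0 < R := by linarith
  have hW₁ : 0 ≤ WW P R S V₁ V₁ ω₁ := WW_nonneg hR0.le hS.le (by linarith) hω₁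
  have hW₂ : 0 ≤ WW P R S V₁ V₂ ω₂ := WW_nonneg hR0.le hS.le (by linarith) hω₂
  have hA₁ : bf (A0 c v₁ v₂ v₃) v₁ v₁ = c ^ 2 := itp_val₁ t.w12 t.w23 t.w31 _ _ _
  have hA₂ : bf (A0 c v₁ v₂ v₃) v₂ v₂ = c ^ 2 := itp_val₂ t.w12 t.w23 t.w31 _ _ _
  obtain ⟨D₁, hD₁⟩ : ∃ D, D = K₁ * DQ g G₁ V₁ (WW P R S V₁ V₁ ω₁) (vc (A0 c v₁ v₂ v₃) v₁) := ⟨_, rfl⟩
  obtain ⟨D₂, hD₂⟩ : ∃ D, D = K₃ * DQ g G₂ (1 + L₂ + WW P R S V₁ V₂ ω₂ / R)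
    (WW P R S V₁ V₂ ω₂) (vc (A0 c v₁ v₂ v₃) v₂) := ⟨_, rfl⟩
  have hWR : 0 ≤ WW P R S V₁ V₂ ω₂ / R := by positivity
  have hD₁0 : 0 ≤ D₁ := by
    rw [hD₁]
    have := DQ_ge g (by linarith : (0 : ℝ) ≤ G₁) (by linarith : (0 : ℝ) ≤ V₁) hW₁ (vc (A0 c v₁ v₂ v₃) v₁)
    have h2 : (0 : ℝ) ≤ K₁ := by linarith
    exact mul_nonneg h2 (by linarith)
  have hD₂0 : 0 ≤ D₂ := by
    rw [hD₂]
    have := DQ_ge g (by linarith : (0 : ℝ) ≤ G₂)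
      (by linarith : (0 : ℝ) ≤ 1 + L₂ + WW P R S V₁ V₂ ω₂ / R) hW₂ (vc (A0 c v₁ v₂ v₃) v₂)
    have h2 : (0 : ℝ) ≤ K₃ := by linarith
    exact mul_nonneg h2 (by linarith)
  -- fibres over `(h₂, h₃)`
  have f1 : ∀ b : (ℤ × ℤ) × (ℤ × ℤ), ((𝓗.filter (fun h => h.2 = b)).card : ℝ) ≤ D₁ := by
    intro b
    have hinj : Set.InjOn (fun h : T3 => h.1) (𝓗.filter (fun h => h.2 = b) : Finset T3) := by
      intro x hx y hy hxy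
      rw [Finset.mem_coe, Finset.mem_filter] at hx hy
      exact Prod.ext hxy (hx.2.trans hy.2.symm)
    rw [← Finset.card_image_of_injOn hinj, hD₁]
    refine hD g hg P c G₁ V₁ (WW P R S V₁ V₁ ω₁) (bf (A0 c v₁ v₂ v₃) v₃ (g b.2)) v₁ v₂ v₃ v₁ t
      hG₁ t.n₁ hA₁ (by linarith) hW₁ _ ?_ ?_
    · intro z hz
      rw [Finset.mem_image] at hz
      obtain ⟨h, hh, rfl⟩ := hz
      exact (h𝓗 h (Finset.mem_filter.1 hh).1).1.n₁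
    · intro z hz
      rw [Finset.mem_image] at hz
      obtain ⟨h, hh, rfl⟩ := hz
      rw [Finset.mem_filter] at hh
      have := ((h𝓗 h hh.1).1.strips t hS hcR h21 h32 h3).1
      rw [← hh.2]; exact this
  -- the image in `(h₂, h₃)`
  have f2 : ∀ b : ℤ × ℤ, (((𝓗.image (fun h => h.2)).filter (fun q => q.2 = b)).card : ℝ) ≤ D₂ := by
    intro b
    have hinj : Set.InjOn (fun q : (ℤ × ℤ) × (ℤ × ℤ) => q.1)
        ((𝓗.image (fun h => h.2)).filter (fun q => q.2 = b) : Finset _) := by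
      intro x hx y hy hxy
      rw [Finset.mem_coe, Finset.mem_filter] at hx hy
      exact Prod.ext hxy (hx.2.trans hy.2.symm)
    rw [← Finset.card_image_of_injOn hinj, hD₂]
    refine hDL g hg P c R G₂ L₂ (WW P R S V₁ V₂ ω₂) (bf (A0 c v₁ v₂ v₃) v₃ (g b)) v₁ v₂ v₃ v₂ t
      hPR hRc hG₂ t.n₂ hA₂ hL₂ hW₂ _ ?_ ?_
    · intro z hz
      rw [Finset.mem_image] at hz
      obtain ⟨q, hq, rfl⟩ := hz
      rw [Finset.mem_filter, Finset.mem_image] at hq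
      obtain ⟨⟨h, hh, rfl⟩, _⟩ := hq
      exact (h𝓗 h hh).2.1
    · intro z hz
      rw [Finset.mem_image] at hz
      obtain ⟨q, hq, rfl⟩ := hz
      rw [Finset.mem_filter, Finset.mem_image] at hq
      obtain ⟨⟨h, hh, rfl⟩, hb⟩ := hq
      have := ((h𝓗 h hh).1.strips t hS hcR h21 h32 h3).2.1
      rw [← hb]; exact this
  -- the image in `h₃`
  have f3 : (((𝓗.image (fun h => h.2)).image (fun q => q.2)).card : ℝ) ≤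
      K₂ * 2 * ((1 + V₃) * (1 + L₃)) := by
    have hv0 : 0 < ‖v₃‖ := norm_pos_iff.2 (t.ne t.n₃)
    have hvR : R / 2 ≤ ‖v₃‖ := by
      have := t.norm_ge t.n₃
      linarith
    obtain ⟨u, hu⟩ : ∃ u : ℂ, u = ((‖v₃‖⁻¹ : ℝ) : ℂ) * v₃ := ⟨_, rfl⟩
    have hu1 : ‖u‖ = 1 := by
      rw [hu, norm_mul, Complex.norm_real, Real.norm_eq_abs, abs_of_pos (by positivity)]
      field_simp
    have := hB g hg u hu1 V₃ (2 * L₃) 0 0 h3 (by positivity)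
      ((𝓗.image (fun h => h.2)).image (fun q => q.2)) (by
        intro z hz
        rw [Finset.mem_image] at hz
        obtain ⟨q, hq, rfl⟩ := hz
        rw [Finset.mem_image] at hq
        obtain ⟨h, hh, rfl⟩ := hq
        refine ⟨?_, ?_⟩
        · rw [sub_zero]
          have e1 := abs_sp_le u (g h.2.2)
          rw [hu1, one_mul] at e1
          exact le_trans e1 (h𝓗 h hh).1.n₃
        · rw [sub_zero, hu, wd_real, abs_mul, abs_of_pos (by positivity : (0 : ℝ) < ‖v₃‖⁻¹)]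
          have e1 := (h𝓗 h hh).2.2
          have e2 : R ≤ 2 * ‖v₃‖ := by linarith
          calc ‖v₃‖⁻¹ * |wd v₃ (g h.2.2)| ≤ ‖v₃‖⁻¹ * (R * L₃) :=
                mul_le_mul_of_nonneg_left e1 (by positivity)
            _ ≤ ‖v₃‖⁻¹ * (2 * ‖v₃‖ * L₃) :=
                mul_le_mul_of_nonneg_left (mul_le_mul_of_nonneg_right e2 hL₃) (by positivity)
            _ = 2 * L₃ := by field_simp)
    refine le_trans this ?_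
    calc K₂ * (1 + V₃) * (1 + 2 * L₃) ≤ K₂ * (1 + V₃) * (2 * (1 + L₃)) :=
          mul_le_mul_of_nonneg_left (by linarith) (by positivity)
      _ = _ := by ring
  have g2 := card_fib (fun q : (ℤ × ℤ) × (ℤ × ℤ) => q.2) hD₂0 f2 f3
  have g1 := card_fib (fun h : T3 => h.2) hD₁0 f1 g2
  refine le_trans g1 (le_of_eq ?_)
  rw [hD₁, hD₂]
  ring

/-- the bound with two lengths -/
noncomputable def NL (P R S V₁ V₂ V₃ ω₁ ω₂ L₂ L₃ : ℝ) : ℝ :=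
  R ^ 4 * FC R V₁ (WW P R S V₁ V₁ ω₁) *
    FF R (1 + L₂ + WW P R S V₁ V₂ ω₂ / R) (WW P R S V₁ V₂ ω₂) * ((1 + V₃) * (1 + L₃))

theorem pair_count_len (hst : StripStmt) (hds : DiscStripStmt) (hbox : BoxStmt)
    (han : AnnStmt) (has : AnnStripStmt) (hsh : ShortStmt) : ∀ c₀ : ℝ, 0 < c₀ →
    ∀ KJ : ℝ, 1 ≤ KJ → ∃ K : ℝ, 1 ≤ K ∧ ∀ g : ℤ × ℤ →+ ℂ, Sep c₀ g → JG KJ g →
      ∀ (P R S V₁ V₂ V₃ ω₁ ω₂ ω₃ L₂ L₃ : ℝ), 1 ≤ P → 20000 * P ^ 3 ≤ R → 0 < S →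
      1 ≤ V₂ → V₂ ≤ V₁ → 0 ≤ V₃ → V₃ ≤ V₂ → 0 ≤ ω₁ → 0 ≤ ω₂ → 0 ≤ ω₃ → 0 ≤ L₂ → 0 ≤ L₃ →
      ∀ 𝓟 : Finset (T3 × T3), (∀ p ∈ 𝓟, Pair g P R S V₁ V₂ V₃ ω₁ ω₂ ω₃ p.1 p.2 ∧
          |wd (g p.1.2.1) (g p.2.2.1)| ≤ R * L₂ ∧ |wd (g p.1.2.2) (g p.2.2.2)| ≤ R * L₃) →
        (𝓟.card : ℝ) ≤ K * P ^ 8 * NL P R S V₁ V₂ V₃ ω₁ ω₂ L₂ L₃ := by
  classical
  intro c₀ hc₀ KJ hKJ
  obtain ⟨K₁, hK₁, h1⟩ := hcountL hst hbox c₀ hc₀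
  obtain ⟨K₂, hK₂, h2⟩ := pair_core hds hbox han has hsh c₀ hc₀ KJ hKJ
  refine ⟨K₂ * K₁, by nlinarith, ?_⟩
  intro g hg hJ P R S V₁ V₂ V₃ ω₁ ω₂ ω₃ L₂ L₃ hP hPR hS hV2 h21 h30 h32 hω₁ hω₂ hω₃ hL₂ hL₃ 𝓟 h𝓟
  have hP3 : 1 ≤ P ^ 3 := one_le_pow₀ hP
  have hR : 1 ≤ R := by linarith
  have hR0 : 0 < R := by linarith
  have hW₁ : 0 ≤ WW P R S V₁ V₁ ω₁ := WW_nonneg hR0.le hS.le (by linarith) hω₁
  have hW₂ : 0 ≤ WW P R S V₁ V₂ ω₂ := WW_nonneg hR0.le hS.le (by linarith) hω₂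
  have hWR : 0 ≤ WW P R S V₁ V₂ ω₂ / R := by positivity
  have key := h2 g hg hJ P R V₁ (1 + L₂ + WW P R S V₁ V₂ ω₂ / R) (WW P R S V₁ V₁ ω₁)
    (WW P R S V₁ V₂ ω₂) ((1 + V₃) * (1 + L₃)) K₁ hP hPR (by linarith) (by linarith) hW₁ hW₂
    (by positivity) (by linarith) 𝓟
    (fun p hp => ⟨(h𝓟 p hp).1.lo, (h𝓟 p hp).1.hi, (h𝓟 p hp).1.tri⟩)
    (fun v ht hlo hhi 𝓗 h𝓗 => by
      refine h1 g hg P R S ‖g v.1‖ V₁ V₂ V₃ ω₁ ω₂ ω₃ L₂ L₃ (R ^ (2 / 3 : ℝ)) (Real.sqrt R)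
        (g v.1) (g v.2.1) (g v.2.2) ht hPR (Real.one_le_rpow hR (by norm_num))
        (Real.one_le_sqrt.2 hR) hlo hhi hS hV2 h21 h30 h32 hω₁ hω₂ hω₃ hL₂ hL₃ 𝓗 ?_
      intro h hh
      have := h𝓟 (v, h) (h𝓗 h hh)
      exact ⟨this.1.win, this.2.1, this.2.2⟩)
  refine le_trans key (le_of_eq ?_)
  unfold NL
  ring

/-- **the conic pair count with two lengths** for the frame of `A ∈ KM M` -/
theorem pairL {M : ℝ} (hM : 1 ≤ M) : ∃ K : ℝ, 1 ≤ K ∧ ∀ A ∈ KM M, ∀ g : ℤ × ℤ →+ ℂ,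
    (∀ z, ‖g z‖ ^ 2 = qz A z) →
      ∀ (P R S V₁ V₂ V₃ ω₁ ω₂ ω₃ L₂ L₃ : ℝ), 1 ≤ P → 20000 * P ^ 3 ≤ R → 0 < S →
      1 ≤ V₂ → V₂ ≤ V₁ → 0 ≤ V₃ → V₃ ≤ V₂ → 0 ≤ ω₁ → 0 ≤ ω₂ → 0 ≤ ω₃ → 0 ≤ L₂ → 0 ≤ L₃ →
      ∀ 𝓟 : Finset (T3 × T3), (∀ p ∈ 𝓟, Pair g P R S V₁ V₂ V₃ ω₁ ω₂ ω₃ p.1 p.2 ∧
          |wd (g p.1.2.1) (g p.2.2.1)| ≤ R * L₂ ∧ |wd (g p.1.2.2) (g p.2.2.2)| ≤ R * L₃) →
        (𝓟.card : ℝ) ≤ K * P ^ 8 * NL P R S V₁ V₂ V₃ ω₁ ω₂ L₂ L₃ := by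
  obtain ⟨KJ, hKJ, hJ⟩ := jg_of hM
  have hM0 : 0 < M := by linarith
  obtain ⟨K, hK, h⟩ := pair_count_len Pool.Agent.Helper38_F5.strip
    Pool.Agent.Helper38_F5.discStrip Pool.Agent.Helper38_F5.box Pool.Agent.Helper38_F5.ann
    Pool.Agent.Helper38_F5.annStrip Pool.Agent.Helper38_F5.short (1 / M) (by positivity) KJ hKJ
  exact ⟨K, hK, fun A hA g hg => h g (sep_of hM hA hg) (hJ A hA g hg)⟩

end Pool.Agent.F5H.H9
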