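import Pool.Agent.Helper68_F5.Cnt
import Pool.Agent.Helper38_F5.Box

/-!
MP_f5cbfa_nt, block N: the trivial `v`-sum: lattice points near a ray.
-/

set_option autoImplicit false

open MeasureTheory

namespace Pool.Agent.F5H.H9

open Pool.Agent.Helper68_F5

/-- three discs -/
theorem disc3 : ∀ c₀ : ℝ, 0 < c₀ → ∃ K : ℝ, 1 ≤ K ∧ ∀ g : ℤ × ℤ →+ ℂ, Sep c₀ g →
    ∀ (P : ℝ), 1 ≤ P → ∀ a₁ a₂ a₃ : ℂ, ∀ 𝓥 : Finset T3,
      (∀ v ∈ 𝓥, ‖g v.1 - a₁‖ ≤ P ∧ ‖g v.2.1 - a₂‖ ≤ P ∧ ‖g v.2.2 - a₃‖ ≤ P) →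
      (𝓥.card : ℝ) ≤ K * P ^ 6 := by
  classical
  intro c₀ hc₀
  obtain ⟨K, hK, h⟩ := Pool.Agent.Helper38_F5.box c₀ hc₀
  have hK0 : 0 < K := by linarith
  refine ⟨(4 * K) ^ 3, one_le_pow₀ (by linarith), ?_⟩
  intro g hg P hP a₁ a₂ a₃ 𝓥 h𝓥
  have hP0 : 0 < P := by linarith
  have one : ∀ (a : ℂ) (S : Finset (ℤ × ℤ)), (∀ z ∈ S, ‖g z - a‖ ≤ P) →
      (S.card : ℝ) ≤ 4 * K * P ^ 2 := by
    intro a S hS
    have key := h g hg 1 norm_one P P (sp 1 a) (wd 1 a) hP0.le hP0.le S (fun z hz => by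
      have h1 := hS z hz
      rw [← sp_sub, ← wd_sub]
      have h2 := abs_sp_le 1 (g z - a)
      have h3 := abs_wd_le 1 (g z - a)
      rw [norm_one, one_mul] at h2 h3
      exact ⟨le_trans h2 h1, le_trans h3 h1⟩)
    refine le_trans key ?_
    have : (1 + P) * (1 + P) ≤ 4 * P ^ 2 := by nlinarith
    calc K * (1 + P) * (1 + P) = K * ((1 + P) * (1 + P)) := by ring
      _ ≤ K * (4 * P ^ 2) := mul_le_mul_of_nonneg_left this hK0.le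
      _ = _ := by ring
  have f1 : ∀ b : (ℤ × ℤ) × (ℤ × ℤ), ((𝓥.filter (fun v => v.2 = b)).card : ℝ) ≤
      4 * K * P ^ 2 := by
    intro b
    have hinj : Set.InjOn (fun v : T3 => v.1) (𝓥.filter (fun v => v.2 = b) : Finset T3) := by
      intro x hx y hy hxy
      rw [Finset.mem_coe, Finset.mem_filter] at hx hy
      exact Prod.ext hxy (hx.2.trans hy.2.symm)
    rw [← Finset.card_image_of_injOn hinj]
    refine one a₁ _ fun z hz => ?_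
    rw [Finset.mem_image] at hz
    obtain ⟨v, hv, rfl⟩ := hz
    exact (h𝓥 v (Finset.mem_filter.1 hv).1).1
  have f2 : ∀ b : ℤ × ℤ, (((𝓥.image (fun v => v.2)).filter (fun q => q.2 = b)).card : ℝ) ≤
      4 * K * P ^ 2 := by
    intro b
    have hinj : Set.InjOn (fun q : (ℤ × ℤ) × (ℤ × ℤ) => q.1)
        ((𝓥.image (fun v => v.2)).filter (fun q => q.2 = b) : Finset _) := by
      intro x hx y hy hxy
      rw [Finset.mem_coe, Finset.mem_filter] at hx hy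
      exact Prod.ext hxy (hx.2.trans hy.2.symm)
    rw [← Finset.card_image_of_injOn hinj]
    refine one a₂ _ fun z hz => ?_
    rw [Finset.mem_image] at hz
    obtain ⟨q, hq, rfl⟩ := hz
    rw [Finset.mem_filter, Finset.mem_image] at hq
    obtain ⟨⟨v, hv, rfl⟩, _⟩ := hq
    exact (h𝓥 v hv).2.1
  have f3 : (((𝓥.image (fun v => v.2)).image (fun q => q.2)).card : ℝ) ≤ 4 * K * P ^ 2 := by
    refine one a₃ _ fun z hz => ?_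
    rw [Finset.mem_image] at hz
    obtain ⟨q, hq, rfl⟩ := hz
    rw [Finset.mem_image] at hq
    obtain ⟨v, hv, rfl⟩ := hq
    exact (h𝓥 v hv).2.2
  have hB : 0 ≤ 4 * K * P ^ 2 := by positivity
  have g2 := card_fib (fun q : (ℤ × ℤ) × (ℤ × ℤ) => q.2) hB f2 f3
  have g1 := card_fib (fun v : T3 => v.2) hB f1 g2
  refine le_trans g1 (le_of_eq ?_)
  ring

/-- **the trivial `v`-sum** -/
theorem vsum : ∀ c₀ : ℝ, 0 < c₀ → ∃ K : ℝ, 1 ≤ K ∧ ∀ g : ℤ × ℤ →+ ℂ, Sep c₀ g →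
    ∀ (P T R' : ℝ), 1 ≤ P → 0 < T → 0 ≤ R' → ∀ m₁ m₂ m₃ : ℂ, ‖m₁‖ ≤ 2 * T → ‖m₂‖ ≤ 2 * T →
      ‖m₃‖ ≤ 2 * T → ∀ 𝓥 : Finset T3,
      (∀ v ∈ 𝓥, ∃ ν : ℝ, |ν| * T ≤ R' ∧ ‖g v.1 - (ν : ℂ) * m₁‖ ≤ P ∧
        ‖g v.2.1 - (ν : ℂ) * m₂‖ ≤ P ∧ ‖g v.2.2 - (ν : ℂ) * m₃‖ ≤ P) →
      (𝓥.card : ℝ) ≤ K * P ^ 6 * (1 + R') := by
  classical
  intro c₀ hc₀
  obtain ⟨K, hK, h⟩ := disc3 c₀ hc₀
  have hK0 : 0 < K := by linarith
  refine ⟨3 ^ 7 * K, by linarith, ?_⟩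
  intro g hg P T R' hP hT hR' m₁ m₂ m₃ h₁ h₂ h₃ 𝓥 h𝓥
  have hP0 : 0 < P := by linarith
  -- integer part of `ν T`
  have hch : ∀ v ∈ 𝓥, ∃ k : ℤ, |k| ≤ ⌊R'⌋₊ + 1 ∧
      ‖g v.1 - ((k / T : ℝ) : ℂ) * m₁‖ ≤ 3 * P ∧ ‖g v.2.1 - ((k / T : ℝ) : ℂ) * m₂‖ ≤ 3 * P ∧
      ‖g v.2.2 - ((k / T : ℝ) : ℂ) * m₃‖ ≤ 3 * P := by
    intro v hv
    obtain ⟨ν, hν, a1, a2, a3⟩ := h𝓥 v hv
    have hfl : |ν * T - ⌊ν * T⌋| ≤ 1 := by
      rw [abs_le]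
      constructor <;> linarith [Int.floor_le (ν * T), Int.lt_floor_add_one (ν * T)]
    have hνT : |ν * T| ≤ R' := by rw [abs_mul, abs_of_pos hT]; exact hν
    have aux : ∀ (m z : ℂ), ‖m‖ ≤ 2 * T → ‖z - (ν : ℂ) * m‖ ≤ P →
        ‖z - (((⌊ν * T⌋ : ℤ) / T : ℝ) : ℂ) * m‖ ≤ 3 * P := by
      intro m z hm hz
      have e : z - (((⌊ν * T⌋ : ℤ) / T : ℝ) : ℂ) * m = (z - (ν : ℂ) * m) +
          (((ν * T - ⌊ν * T⌋) / T : ℝ) : ℂ) * m := by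
        have : (ν * T - ⌊ν * T⌋) / T = ν - ⌊ν * T⌋ / T := by field_simp
        rw [this]
        push_cast
        ring
      rw [e]
      refine le_trans (norm_add_le _ _) ?_
      have e2 : ‖(((ν * T - ⌊ν * T⌋) / T : ℝ) : ℂ) * m‖ ≤ 2 := by
        rw [norm_mul, Complex.norm_real, Real.norm_eq_abs, abs_div, abs_of_pos hT]
        calc |ν * T - ⌊ν * T⌋| / T * ‖m‖ ≤ 1 / T * (2 * T) :=
              mul_le_mul (div_le_div_of_nonneg_right hfl hT.le) hm (norm_nonneg _) (by positivity)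
          _ = 2 := by field_simp
      linarith
    refine ⟨⌊ν * T⌋, ?_, aux m₁ _ h₁ a1, aux m₂ _ h₂ a2, aux m₃ _ h₃ a3⟩
    have h4 : (R' : ℝ) < ⌊R'⌋₊ + 1 := Nat.lt_floor_add_one R'
    have h5 := abs_le.1 hνT
    rw [abs_le]
    constructor
    · have h6 : ((-(⌊R'⌋₊ + 1 : ℤ) : ℤ) : ℝ) ≤ ν * T := by push_cast; linarith [h5.1]
      exact Int.le_floor.2 h6
    · have h6 : ⌊ν * T⌋ < (⌊R'⌋₊ + 1 : ℤ) := by
        rw [Int.floor_lt]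
        push_cast
        linarith [h5.2]
      exact h6.le
  choose! k hk using hch
  have f1 : ∀ b : ℤ, ((𝓥.filter (fun v => k v = b)).card : ℝ) ≤ K * (3 * P) ^ 6 := by
    intro b
    refine h g hg (3 * P) (by linarith) (((b / T : ℝ) : ℂ) * m₁) (((b / T : ℝ) : ℂ) * m₂)
      (((b / T : ℝ) : ℂ) * m₃) _ fun v hv => ?_
    rw [Finset.mem_filter] at hv
    have := hk v hv.1
    rw [hv.2] at this
    exact this.2
  have f2 : (((𝓥.image k)).card : ℝ) ≤ 3 * (1 + R') := by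
    have hsub : 𝓥.image k ⊆ Finset.Icc (-(⌊R'⌋₊ + 1 : ℤ)) (⌊R'⌋₊ + 1) := by
      intro x hx
      rw [Finset.mem_image] at hx
      obtain ⟨v, hv, rfl⟩ := hx
      rw [Finset.mem_Icc]
      exact abs_le.1 (hk v hv).1
    have h7 := Finset.card_le_card hsub
    rw [Int.card_Icc] at h7
    have h8 : ((⌊R'⌋₊ + 1 : ℤ) + 1 - (-(⌊R'⌋₊ + 1 : ℤ))).toNat = 2 * ⌊R'⌋₊ + 3 := by omega
    rw [h8] at h7
    have h9 : ((𝓥.image k).card : ℝ) ≤ 2 * ⌊R'⌋₊ + 3 := by exact_mod_cast h7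
    have h10 := Nat.floor_le hR'
    linarith
  have g1 := card_fib k (by positivity) f1 f2
  refine le_trans g1 (le_of_eq ?_)
  ring

end Pool.Agent.F5H.H9
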