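import Pool.Agent.F5H.StmtsE

/-!
MP_f5cbfa_nt, squad F5H, block C, row LPX: uniform Lipschitz bounds near the compact set.
-/

set_option autoImplicit false

open MeasureTheory Complex ComplexConjugate

namespace Pool.Agent.F5H.H9

open Pool.Agent.BTL Pool.Agent.F5S Pool.Agent.F5H Pool.Agent.F5.H58 Pool.Agent.F5H.BC

/-- the domain -/
def UY : Set XX := UX ∩ {q : XX | normSq (mu q.1) < 1}

theorem isOpen_UY : IsOpen UY := isOpen_UX.inter isOpen_mu

theorem KX_UY : KX ⊆ UY := by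
  intro q hq
  refine ⟨KX_sub hq, ?_⟩
  show normSq (mu q.1) < 1
  have h1 := KK_mu hq.1
  rw [normSq_eq_norm_sq]
  have h0 := norm_nonneg (mu q.1)
  nlinarith

theorem cd_wp (n : WithTop ℕ∞) {q : XX} (hq : q ∈ UX) (l : Fin 3) :
    ContDiffAt ℝ n (fun p : XX => wp p l) q :=
  (cd_ww n hq.2 l).comp q (cd_Ps n hq.1)

theorem cd_TA (n : WithTop ℕ∞) {q : XX} (hq : q ∈ UX) (l : Fin 3) :
    ContDiffAt ℝ n (fun p : XX => TA p l) q := by
  unfold TA
  exact contDiffAt_const.mul ((cd_wp n hq l).add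
    ((cdx_fst (cd_mu n q.1)).mul (cd_conj (cd_wp n hq l))))

theorem cd_bw (n : WithTop ℕ∞) (q : XX) (l : Fin 3) :
    ContDiffAt ℝ n (fun p : XX => bw p l) q := by
  unfold bw
  have h1 : ContDiffAt ℝ n (fun p : XX => p.2.2 l) q := by fun_prop
  have h3 := cdx_fst (cd_Eh n q.1 l)
  have h4 : ContDiffAt ℝ n (fun p : XX => normSq (Eh (p.1.2.1 l) (mu p.1))) q := by
    have h5 := ((cd_re h3).mul (cd_re h3)).add ((cd_im h3).mul (cd_im h3))
    exact h5.congr_of_eventuallyEq (Filter.Eventually.of_forall fun p => normSq_apply _)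
  exact (h1.pow 2).mul h4

theorem cd_gq (n : WithTop ℕ∞) {q : XX} (hq : q ∈ UX) {l : Fin 3} (hl : l ≠ 2) :
    ContDiffAt ℝ n (fun p : XX => gq p l) q := by
  unfold gq
  refine ((cdx_fst (cd_nu n q.1 l)).mul (cdx_fst (cd_Yf n q.1))).div
    (cd_im ((cd_conj (cd_wp n hq l)).mul (cdx_fst (cd_Eh n q.1 l)))) ?_
  obtain ⟨h1, h2, h3⟩ := hq.2 l hl
  have h4 := im_ne (x := Ps q) h1 h2 h3
  have h5 : wp q l = wl ((Ps q).2.1 l) ((Ps q).2.1 2) ((Ps q).2.2.1 l) ((Ps q).2.2.2 l)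
      (mu (Ps q)) (th (Ps q)) := by
    unfold wp ww
    rw [if_neg hl]
  rw [← h5] at h4
  exact h4

theorem cd_KQ (n : WithTop ℕ∞) {q : XX} (hq : q ∈ UX) (l : Fin 3) :
    ContDiffAt ℝ n (fun p : XX => KQ p l) q := by
  unfold KQ
  have h1 : ContDiffAt ℝ n (fun p : XX => (bw p l : ℂ) * (wp p l - mu p.1 * conj (wp p l))) q :=
    (cd_of (cd_bw n q l)).mul ((cd_wp n hq l).sub
      ((cdx_fst (cd_mu n q.1)).mul (cd_conj (cd_wp n hq l))))
  refine h1.sub (ContDiffAt.mul (cd_of ?_) (cd_TA n hq l))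
  by_cases hl : l = 2
  · simp only [if_pos hl]
    exact contDiffAt_const
  · simp only [if_neg hl]
    exact (cd_gq n hq hl).mul ((cd_bw n q l).sub (cd_bw n q 2))

theorem norm_zz (z : ℝ) (hz : 0 ≤ z) : ‖((0, z, 0) : XX)‖ = z := by
  rw [Prod.norm_def]
  show max ‖(0 : VV)‖ ‖((z, 0) : ℝ × (Fin 3 → ℝ))‖ = z
  rw [Prod.norm_def]
  show max ‖(0 : VV)‖ (max ‖z‖ ‖(0 : Fin 3 → ℝ)‖) = z
  rw [norm_zero, norm_zero, Real.norm_eq_abs, abs_of_nonneg hz, max_eq_left hz, max_eq_right hz]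

theorem lpx : LPXStmt := by
  obtain ⟨C1, r1, hC1, hr1, h1⟩ := taylor_compact isOpen_UY isCompact_KX KX_UY (f := NM)
    (fun q hq => (cd_NM 2 hq.1 hq.2).contDiffWithinAt)
  obtain ⟨C2, r2, hC2, hr2, h2⟩ := taylor_compact isOpen_UY isCompact_KX KX_UY
    (f := fun q l => wp q l)
    (fun q hq => (contDiffAt_pi.2 fun l => cd_wp 2 hq.1 l).contDiffWithinAt)
  obtain ⟨C3, r3, hC3, hr3, h3⟩ := taylor_compact isOpen_UY isCompact_KX KX_UY
    (f := fun q l => KQ q l)
    (fun q hq => (contDiffAt_pi.2 fun l => cd_KQ 2 hq.1 l).contDiffWithinAt)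
  have hTA : ContDiffOn ℝ 2 (fun (q : XX) l => TA q l) UY :=
    fun q hq => (contDiffAt_pi.2 fun l => cd_TA 2 hq.1 l).contDiffWithinAt
  obtain ⟨C4, r4, hC4, hr4, h4⟩ := taylor_compact isOpen_UY isCompact_KX KX_UY
    (f := fun q l => TA q l) hTA
  obtain ⟨C, hC⟩ : ∃ C : ℝ, C = C1 + C2 + C3 + C4 + 1 := ⟨_, rfl⟩
  refine ⟨C, min (min r1 r2) (min r3 r4), by linarith, lt_min (lt_min hr1 hr2) (lt_min hr3 hr4),
    fun x hx β hβ z hz0 hz => ?_⟩
  have hz1 : z ≤ r1 := hz.trans ((min_le_left _ _).trans (min_le_left _ _))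
  have hz2 : z ≤ r2 := hz.trans ((min_le_left _ _).trans (min_le_right _ _))
  have hz3 : z ≤ r3 := hz.trans ((min_le_right _ _).trans (min_le_left _ _))
  have hKX : ∀ y ∈ KK, ((y, 0, β) : XX) ∈ KX := fun y hy => ⟨hy, rfl, hβ⟩
  have hadd : ∀ (y : VV) (t : ℝ), ((y, t, β) : XX) = ((y, 0, β) : XX) + ((0, t, 0) : XX) := by
    intro y t
    refine Prod.ext ?_ (Prod.ext ?_ ?_)
    · show y = y + 0
      rw [add_zero]
    · show t = 0 + t
      rw [zero_add]
    · show β = β + 0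
      rw [add_zero]
  refine ⟨fun j => ?_, fun l => ?_, ?_, ?_⟩
  · obtain ⟨-, b, -⟩ := h1 _ (hKX x hx) (0, z, 0) (by rw [norm_zz z hz0]; exact hz1)
    rw [← hadd] at b
    have h5 : dN ((x, z, β) : XX) (Pi.single j 1) 0 =
        fderiv ℝ NM ((x, z, β) : XX) (dr' (Pi.single j 1) 0) := rfl
    rw [h5]
    refine (ContinuousLinearMap.le_opNorm _ _).trans ?_
    have h6 : ‖dr' (Pi.single j (1 : ℝ)) 0‖ ≤ 1 := by
      unfold dr'
      rw [Prod.norm_def]
      refine max_le (norm_ins_single j) ?_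
      show ‖((0, 0) : ℝ × (Fin 3 → ℝ))‖ ≤ 1
      rw [show ((0, 0) : ℝ × (Fin 3 → ℝ)) = 0 from rfl, norm_zero]
      exact zero_le_one
    calc ‖fderiv ℝ NM ((x, z, β) : XX)‖ * ‖dr' (Pi.single j (1 : ℝ)) 0‖ ≤ C1 * 1 :=
          mul_le_mul b h6 (norm_nonneg _) hC1.le
      _ ≤ C := by linarith
  · obtain ⟨-, -, -, b, -⟩ := h2 _ (hKX x hx) (0, z, 0) (by rw [norm_zz z hz0]; exact hz2)
    rw [← hadd, norm_zz z hz0] at b
    refine ((norm_le_pi_norm ((fun l => wp ((x, z, β) : XX) l) -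
      (fun l => wp ((x, 0, β) : XX) l)) l).trans b).trans ?_
    exact mul_le_mul_of_nonneg_right (by linarith) hz0
  · obtain ⟨-, -, -, b, -⟩ := h3 _ (hKX x hx) (0, z, 0) (by rw [norm_zz z hz0]; exact hz3)
    rw [← hadd, norm_zz z hz0] at b
    exact b.trans (mul_le_mul_of_nonneg_right (by linarith) hz0)
  · intro u ρ z' hu hz'0 hz' hs l
    have hρ : 0 ≤ ρ := (abs_nonneg _).trans (hu 0)
    obtain ⟨d, hd⟩ : ∃ d : XX, d = (ins u, z' - z, 0) := ⟨_, rfl⟩
    have hdn : ‖d‖ ≤ ρ + |z' - z| := by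
      rw [hd, Prod.norm_def, Prod.norm_def]
      refine max_le ?_ (max_le ?_ ?_)
      · show ‖ins u‖ ≤ _
        rw [norm_ins]
        refine ((pi_norm_le_iff_of_nonneg hρ).2 fun i => ?_).trans
          (le_add_of_nonneg_right (abs_nonneg _))
        rw [Real.norm_eq_abs]
        exact hu i
      · show ‖z' - z‖ ≤ _
        rw [Real.norm_eq_abs]
        exact le_add_of_nonneg_left hρ
      · show ‖(0 : Fin 3 → ℝ)‖ ≤ _
        rw [norm_zero]
        positivity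
    have hzs : ∀ s ∈ Set.Icc (0 : ℝ) 1, 0 ≤ z + s * (z' - z) ∧ z + s * (z' - z) ≤ r4 := by
      intro s hs'
      have hz4 : z ≤ r4 := hz.trans ((min_le_right _ _).trans (min_le_right _ _))
      have hz4' : z' ≤ r4 := hz'.trans ((min_le_right _ _).trans (min_le_right _ _))
      obtain ⟨s0, s1⟩ := hs'
      constructor
      · nlinarith [mul_nonneg s0 hz'0, mul_nonneg (sub_nonneg.2 s1) hz0]
      · nlinarith [mul_le_mul_of_nonneg_left hz4' s0,
          mul_le_mul_of_nonneg_left hz4 (sub_nonneg.2 s1)]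
    have hg : ∀ s : ℝ, ((x, z, β) : XX) + s • d =
        ((x + s • ins u, z + s * (z' - z), β) : XX) := by
      intro s
      rw [hd]
      refine Prod.ext rfl (Prod.ext rfl ?_)
      show β + s • (0 : Fin 3 → ℝ) = β
      rw [smul_zero, add_zero]
    have hb : ∀ s ∈ Set.Icc (0 : ℝ) 1, ((x, z, β) : XX) + s • d ∈ UY ∧
        ‖fderiv ℝ (fun (q : XX) l => TA q l) (((x, z, β) : XX) + s • d)‖ ≤ C4 := by
      intro s hs'
      obtain ⟨g0, g1⟩ := hzs s hs'
      obtain ⟨a, b, -⟩ := h4 _ (hKX _ (hs s hs')) (0, z + s * (z' - z), 0)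
        (by rw [norm_zz _ g0]; exact g1)
      rw [← hadd, ← hg] at a b
      exact ⟨a, b⟩
    have hder : ∀ s ∈ Set.Icc (0 : ℝ) 1, HasDerivWithinAt
        (fun s : ℝ => (fun l => TA (((x, z, β) : XX) + s • d) l))
        (fderiv ℝ (fun (q : XX) l => TA q l) (((x, z, β) : XX) + s • d) d)
        (Set.Icc 0 1) s := by
      intro s hs'
      have e1 : HasFDerivAt (fun (q : XX) l => TA q l)
          (fderiv ℝ (fun (q : XX) l => TA q l) (((x, z, β) : XX) + s • d))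
          (((x, z, β) : XX) + s • d) :=
        (((hTA.contDiffAt (isOpen_UY.mem_nhds (hb s hs').1)).differentiableAt
          (by norm_num))).hasFDerivAt
      have e2 : HasDerivAt (fun s : ℝ => ((x, z, β) : XX) + s • d) d s := by
        have := ((hasDerivAt_id s).smul_const d).const_add ((x, z, β) : XX)
        rwa [one_smul] at this
      exact (e1.comp_hasDerivAt s e2).hasDerivWithinAt
    have hmv := (convex_Icc (0 : ℝ) 1).norm_image_sub_le_of_norm_hasDerivWithin_le hder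
      (C := C4 * (ρ + |z' - z|)) (fun s hs' => by
        refine (ContinuousLinearMap.le_opNorm _ _).trans ?_
        exact mul_le_mul (hb s hs').2 hdn (norm_nonneg _) hC4.le)
      (Set.left_mem_Icc.2 zero_le_one) (Set.right_mem_Icc.2 zero_le_one)
    rw [sub_zero, norm_one, mul_one] at hmv
    have e5 := norm_le_pi_norm ((fun l => TA (((x, z, β) : XX) + (1 : ℝ) • d) l) -
      (fun l => TA (((x, z, β) : XX) + (0 : ℝ) • d) l)) l
    have e6 := e5.trans hmv
    rw [Pi.sub_apply, hg, hg, one_smul, one_mul, zero_smul, zero_mul, add_zero, add_zero,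
      add_sub_cancel] at e6
    refine e6.trans (mul_le_mul_of_nonneg_right (by linarith) ?_)
    positivity

end Pool.Agent.F5H.H9
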