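import Pool.Agent.F5H.StmtsG

/-!
MP_f5cbfa_nt, squad F5H, block C, row I2: from the chart to the target.
-/

set_option autoImplicit false

open MeasureTheory Complex ComplexConjugate

namespace Pool.Agent.F5H.H9

open Pool.Agent.BTL Pool.Agent.F5S Pool.Agent.F5H Pool.Agent.F5.H58 Pool.Agent.F5H.BC

/-! ### numbers -/

theorem c2_bound {Q C k0 kpr kap K r1 r2 S dl : ℝ} (hQ : 1000 ≤ Q) (_hC : 0 ≤ C) (hCQ : C ≤ Q)
    (h1 : kpr * k0 ≤ Q) (hk0 : 0 ≤ k0) (h2 : r1 * k0 ≤ 1) (hr1 : 0 ≤ r1) (h4 : Q ^ 4 * kap ≤ 1)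
    (hkap : 0 ≤ kap) (h5 : K * r1 ≤ Q ^ 2) (hK : 0 ≤ K) (h6 : K * (2 * S) ≤ 1) (hS : 0 ≤ S)
    (h7 : r2 * k0 ≤ 1) (hr2 : 0 ≤ r2) (hdl : 0 ≤ dl) (h8 : dl * k0 ^ 2 * r2 ≤ Q ^ 6) :
    (Q ^ 2 * kpr + C * (r1 * (Q ^ 4 * kap + K * r1)) + C * (K * (2 * S) * r1) +
      C * ((Q ^ 4 * k0 * dl + K * (2 * S)) * r2)) * k0 ≤ Q ^ 12 := by
  have hQ0 : 0 < Q := by linarith
  have t1 : Q ^ 2 * (kpr * k0) ≤ Q ^ 2 * Q := mul_le_mul_of_nonneg_left h1 (by positivity)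
  have a2 : Q ^ 4 * kap + K * r1 ≤ 1 + Q ^ 2 := add_le_add h4 h5
  have t2 : C * ((r1 * k0) * (Q ^ 4 * kap + K * r1)) ≤ Q * (1 * (1 + Q ^ 2)) :=
    mul_le_mul hCQ (mul_le_mul h2 a2 (by positivity) zero_le_one) (by positivity) hQ0.le
  have t3 : C * (K * (2 * S) * (r1 * k0)) ≤ Q * (1 * 1) :=
    mul_le_mul hCQ (mul_le_mul h6 h2 (by positivity) zero_le_one) (by positivity) hQ0.le
  have a4 : Q ^ 4 * (dl * k0 ^ 2 * r2) ≤ Q ^ 4 * Q ^ 6 :=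
    mul_le_mul_of_nonneg_left h8 (by positivity)
  have a5 : K * (2 * S) * (r2 * k0) ≤ 1 * 1 :=
    mul_le_mul h6 h7 (by positivity) zero_le_one
  have t4 : C * (Q ^ 4 * (dl * k0 ^ 2 * r2) + K * (2 * S) * (r2 * k0)) ≤
      Q * (Q ^ 4 * Q ^ 6 + 1 * 1) :=
    mul_le_mul hCQ (add_le_add a4 a5) (by positivity) hQ0.le
  have e : (Q ^ 2 * kpr + C * (r1 * (Q ^ 4 * kap + K * r1)) + C * (K * (2 * S) * r1) +
      C * ((Q ^ 4 * k0 * dl + K * (2 * S)) * r2)) * k0 = Q ^ 2 * (kpr * k0) +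
      C * ((r1 * k0) * (Q ^ 4 * kap + K * r1)) + C * (K * (2 * S) * (r1 * k0)) +
      C * (Q ^ 4 * (dl * k0 ^ 2 * r2) + K * (2 * S) * (r2 * k0)) := by ring
  rw [e]
  have q1 : Q ≤ Q ^ 11 := by
    calc Q = Q ^ 1 := (pow_one Q).symm
      _ ≤ Q ^ 11 := pow_le_pow_right₀ (by linarith) (by norm_num)
  have q3 : Q ^ 3 ≤ Q ^ 11 := pow_le_pow_right₀ (by linarith) (by norm_num)
  have q12 : 1000 * Q ^ 11 ≤ Q ^ 12 := by
    have : Q ^ 12 = Q * Q ^ 11 := by ring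
    rw [this]
    exact mul_le_mul_of_nonneg_right hQ (by positivity)
  have e2 : Q ^ 2 * Q = Q ^ 3 := by ring
  have e3 : Q * (1 * (1 + Q ^ 2)) = Q + Q ^ 3 := by ring
  have e4 : Q * (Q ^ 4 * Q ^ 6 + 1 * 1) = Q ^ 11 + Q := by ring
  rw [e2] at t1
  rw [e3] at t2
  rw [e4] at t4
  have q0 : 0 ≤ Q ^ 11 := by positivity
  linarith

section

variable {T Q : ℝ} {V : Fin 3 → ℝ} {k0 : ℝ} {s : Bool × Bool} {h k : R6} {A : ℝ × ℝ × ℝ}

theorem kap_le (X : Ctr T Q V k0 s h k A) : Q ^ 4 * kap T (V 0) ≤ 1 ∧ kap T (V 0) ≤ 1 := by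
  have h1 := X.p1
  have h0 := X.p0.le
  constructor
  · exact (mul_le_mul_of_nonneg_right (X.pw (by norm_num)) h0).trans h1
  · exact (le_mul_of_one_le_left h0 (one_le_pow₀ X.Q1)).trans h1

theorem r1_facts (X : Ctr T Q V k0 s h k A) : 0 ≤ r1 T Q V k0 ∧ r1 T Q V k0 ≤ k0⁻¹ ∧
    r1 T Q V k0 ≤ Rx T / T / V 2 ∧ r1 T Q V k0 ≤ 1 / 1000 := by
  have hk := X.k00
  have hk1 : k0⁻¹ ≤ 1 := inv_le_one_of_one_le₀ X.k1
  have hV := X.V2
  have hR := X.p6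
  have hQ := X.Q1
  have hQ60 : 1 ≤ Q ^ 60 := one_le_pow₀ hQ
  have hQ60' : 1000 ≤ Q ^ 60 := by
    have : Q ^ 1 ≤ Q ^ 60 := X.pw (by norm_num)
    rw [pow_one] at this
    exact X.hQ.trans this
  obtain ⟨m, hm⟩ : ∃ m, m = min k0⁻¹ (min (Rx T / T / V 2) (√(kap T (V 0) / k0))) := ⟨_, rfl⟩
  have hr : r1 T Q V k0 = m / Q ^ 60 := by rw [hm]; rfl
  have hm0 : 0 ≤ m := by
    rw [hm]
    exact le_min (inv_nonneg.2 hk.le) (le_min (div_pos hR hV).le (Real.sqrt_nonneg _))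
  have hm1 : m ≤ k0⁻¹ := by rw [hm]; exact min_le_left _ _
  have hm2 : m ≤ Rx T / T / V 2 := by
    rw [hm]
    exact (min_le_right _ _).trans (min_le_left _ _)
  rw [hr]
  have hs : m / Q ^ 60 ≤ m := div_le_self hm0 hQ60
  refine ⟨by positivity, hs.trans hm1, hs.trans hm2, ?_⟩
  exact div_le_div₀ zero_le_one (hm1.trans hk1) (by norm_num) hQ60'

theorem r2_facts (X : Ctr T Q V k0 s h k A) (j : ℕ) : 0 ≤ r2 T Q V k0 h A j ∧
    r2 T Q V k0 h A j ≤ sF T A h ∧ dl k0 j * k0 ^ 2 * r2 T Q V k0 h A j ≤ Q ^ 6 := by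
  have hk := X.k00
  have hz := X.ze0
  have hS := X.S0
  have hQ60 : 1 ≤ Q ^ 60 := one_le_pow₀ X.Q1
  have hd : 0 < dl k0 j := lt_max_of_lt_right (inv_pos.2 hk)
  obtain ⟨m, hm⟩ : ∃ m, m = min 1 (dl k0 j * k0 ^ 2 * ze T V)⁻¹ := ⟨_, rfl⟩
  have hr : r2 T Q V k0 h A j = sF T A h * m / Q ^ 60 := by rw [hm]; rfl
  have hm0 : 0 ≤ m := by
    rw [hm]
    exact le_min zero_le_one (inv_nonneg.2 (by positivity))
  have hm1 : m ≤ 1 := by rw [hm]; exact min_le_left _ _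
  have hm2 : m ≤ (dl k0 j * k0 ^ 2 * ze T V)⁻¹ := by rw [hm]; exact min_le_right _ _
  have hs : sF T A h * m / Q ^ 60 ≤ sF T A h * m := div_le_self (by positivity) hQ60
  rw [hr]
  refine ⟨by positivity, hs.trans (mul_le_of_le_one_right hS.le hm1), ?_⟩
  have h1 : dl k0 j * k0 ^ 2 * (sF T A h * m / Q ^ 60) ≤
      dl k0 j * k0 ^ 2 * (sF T A h * (dl k0 j * k0 ^ 2 * ze T V)⁻¹) := by
    refine mul_le_mul_of_nonneg_left (hs.trans ?_) (by positivity)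
    exact mul_le_mul_of_nonneg_left hm2 hS.le
  refine h1.trans ?_
  have h2 : dl k0 j * k0 ^ 2 * (sF T A h * (dl k0 j * k0 ^ 2 * ze T V)⁻¹) =
      sF T A h / ze T V := by
    field_simp
  rw [h2, div_le_iff₀ hz]
  exact X.S2

theorem Kz1 (X : Ctr T Q V k0 s h k A) {z : ℝ} (hz0 : 0 ≤ z) (hz : z ≤ 2 * sF T A h) :
    Q * (‖kG A k‖ * z) ≤ 1 ∧ ‖kG A k‖ * z ≤ 1 := by
  have h1 := X.Kz hz0 hz
  have h2 := (kap_le X).2
  have h0 : 0 ≤ ‖kG A k‖ * z := mul_nonneg (norm_nonneg _) hz0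
  have h3 : Q ^ 90 * (‖kG A k‖ * z) ≤ 1 := h1.trans h2
  have hQ : Q ≤ Q ^ 90 := by
    calc Q = Q ^ 1 := (pow_one Q).symm
      _ ≤ Q ^ 90 := X.pw (by norm_num)
  constructor
  · exact (mul_le_mul_of_nonneg_right hQ h0).trans h3
  · exact (le_mul_of_one_le_left h0 (one_le_pow₀ X.Q1)).trans h3

theorem norm_R6 (cha : CHAStmt) (X : Ctr T Q V k0 s h k A) : ‖k‖ ≤ Q ^ 4 * k0 := by
  have h1 := (cha.1 A Q X.Q1 X.hA).2.2.2.2.2.2
  have hQ := X.Q0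
  have hk := X.k00
  have key : ∀ l : Fin 3, ‖cp k l‖ ≤ Q ^ 4 * k0 := by
    intro l
    have h2 : ‖cp k l‖ ≤ 4 * Q * ‖kA A (cp k l)‖ := (h1 (cp k l)).1
    have h3 : ‖kA A (cp k l)‖ ≤ ‖kG A k‖ := norm_le_pi_norm (kG A k) l
    have h4 := h3.trans X.kA2
    calc ‖cp k l‖ ≤ 4 * Q * ‖kA A (cp k l)‖ := h2
      _ ≤ 4 * Q * (Q ^ 2 * k0) := mul_le_mul_of_nonneg_left h4 (by positivity)
      _ = 4 * (Q ^ 3 * k0) := by ring
      _ ≤ Q * (Q ^ 3 * k0) := mul_le_mul_of_nonneg_right (by linarith [X.hQ]) (by positivity)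
      _ = Q ^ 4 * k0 := by ring
  have h0 := key 0
  have h1' := key 1
  have h2' := key 2
  rw [Prod.norm_def]
  refine max_le h0 ?_
  rw [Prod.norm_def]
  exact max_le h1' h2'

end

theorem sepU_of {d η : ℝ} {u v U W : ℂ} (hu : ‖u‖ = 1) (hv : ‖v‖ = 1) (hU : ‖U‖ = 1)
    (hW : ‖W‖ = 1) (e1 : ‖U - u‖ ≤ d) (e2 : ‖W - v‖ ≤ d) (h : 8 * d ≤ η)
    (hs : η ≤ ‖u ^ 2 - v ^ 2‖) : η / 4 ≤ |(conj U * W).im| := by
  have hd : 0 ≤ d := (norm_nonneg _).trans e1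
  -- `‖U² - W²‖ = 2 |im (conj U * W)|`
  have key : ‖U ^ 2 - W ^ 2‖ = 2 * |(conj U * W).im| := by
    have h1 : U ^ 2 - W ^ 2 = -(U * W * (2 * ((conj U * W).im : ℂ) * I)) := by
      have h2 : (2 * ((conj U * W).im : ℂ) * I) = conj U * W - conj (conj U * W) := by
        rw [sub_conj]
        push_cast
        ring
      have h3 := unit_mul_conj hU
      have h4 := unit_mul_conj hW
      rw [h2, map_mul, conj_conj]
      calc U ^ 2 - W ^ 2 = U ^ 2 * 1 - 1 * W ^ 2 := by ring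
        _ = U ^ 2 * (W * conj W) - (U * conj U) * W ^ 2 := by rw [h3, h4]
        _ = _ := by ring
    rw [h1, norm_neg, norm_mul, norm_mul, hU, hW, norm_mul, norm_mul, norm_I, norm_real,
      Real.norm_eq_abs]
    norm_num
  have h1 : ‖U ^ 2 - u ^ 2‖ ≤ 2 * d := by
    have : U ^ 2 - u ^ 2 = (U - u) * (U + u) := by ring
    rw [this, norm_mul]
    have h2 : ‖U + u‖ ≤ 2 := (norm_add_le _ _).trans (by rw [hU, hu]; norm_num)
    calc ‖U - u‖ * ‖U + u‖ ≤ d * 2 := mul_le_mul e1 h2 (norm_nonneg _) hd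
      _ = 2 * d := by ring
  have h2 : ‖W ^ 2 - v ^ 2‖ ≤ 2 * d := by
    have : W ^ 2 - v ^ 2 = (W - v) * (W + v) := by ring
    rw [this, norm_mul]
    have h2 : ‖W + v‖ ≤ 2 := (norm_add_le _ _).trans (by rw [hW, hv]; norm_num)
    calc ‖W - v‖ * ‖W + v‖ ≤ d * 2 := mul_le_mul e2 h2 (norm_nonneg _) hd
      _ = 2 * d := by ring
  have h3 : ‖u ^ 2 - v ^ 2‖ ≤ ‖U ^ 2 - W ^ 2‖ + ‖U ^ 2 - u ^ 2‖ + ‖W ^ 2 - v ^ 2‖ := by
    have : u ^ 2 - v ^ 2 = (U ^ 2 - W ^ 2) - (U ^ 2 - u ^ 2) + (W ^ 2 - v ^ 2) := by ring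
    rw [this]
    exact (norm_add_le _ _).trans (add_le_add (norm_sub_le _ _) le_rfl)
  linarith

theorem arg_small {μ : ℂ} (h : ‖μ‖ ≤ 1 / 8) : |arg (1 + μ)| ≤ 1 / 2 := by
  have hr : |μ.re| ≤ 1 / 8 := (abs_re_le_norm μ).trans h
  have hi : |μ.im| ≤ 1 / 8 := (abs_im_le_norm μ).trans h
  rw [abs_le] at hr
  have hre : 0 ≤ (1 + μ).re := by
    rw [add_re, one_re]
    linarith [hr.1]
  have hn : 7 / 8 ≤ ‖1 + μ‖ := by
    have h1 := norm_sub_norm_le (1 : ℂ) (-μ)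
    rw [sub_neg_eq_add, norm_neg, norm_one] at h1
    linarith
  have hy : |(1 + μ).im / ‖1 + μ‖| ≤ 1 / 7 := by
    rw [abs_div, abs_norm, div_le_iff₀ (by linarith), add_im, one_im, zero_add]
    linarith
  rw [arg_of_re_nonneg hre]
  have hs : 1 / 7 ≤ Real.sin (1 / 2) := by
    have := Real.sin_gt_sub_cube (x := 1 / 2) (by norm_num)
    norm_num at this ⊢
    linarith
  have hpi := Real.pi_gt_three
  rw [abs_le] at hy ⊢
  constructor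
  · rw [Real.le_arcsin_iff_sin_le' ⟨by linarith, by linarith⟩, Real.sin_neg]
    linarith [hy.1]
  · rw [Real.arcsin_le_iff_le_sin' ⟨by linarith, by linarith⟩]
    linarith [hy.2]

theorem Psi_six (A : ℝ × ℝ × ℝ) {w : ℝ × (Fin 3 → ℝ)} (hμ : ‖mw w‖ ≤ 1 / 8)
    (h2 : |w.2 2| ≤ 5) : |(Psi A w).2| ≤ 6 := by
  have h3 := arg_small hμ
  have e : (Psi A w).2 = ph3 (mw w) (w.2 2) - arg (1 + mw w) := rfl
  have h4 : |(mw w * cexp (((-2 * w.2 2 : ℝ) : ℂ) * I)).im| ≤ 1 / 8 := by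
    refine (abs_im_le_norm _).trans ?_
    rw [norm_mul, norm_exp_ofReal_mul_I, mul_one]
    exact hμ
  rw [e]
  unfold ph3
  rw [abs_le] at h2 h3 h4 ⊢
  constructor <;> linarith [h2.1, h2.2, h3.1, h3.2, h4.1, h4.2]

theorem q_a {Q : ℝ} (h : 1000 ≤ Q) : 1 + Q * Q ^ 2 + 1 ≤ Q ^ 4 := by
  have e2 : Q ^ 4 = Q * Q ^ 3 := by ring
  have e1 : Q * Q ^ 2 = Q ^ 3 := by ring
  have e3 : 1 ≤ Q ^ 3 := one_le_pow₀ (by linarith)
  have e4 : 1000 * Q ^ 3 ≤ Q * Q ^ 3 := mul_le_mul_of_nonneg_right h (by linarith)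
  rw [e1, e2]
  linarith

theorem q_b {Q : ℝ} (h : 1000 ≤ Q) : 4 + 5 * Q ≤ Q ^ 2 := by nlinarith

theorem q_c {Q : ℝ} (h : 1000 ≤ Q) : Q ^ 4 + 6 ≤ Q ^ 5 := by
  have e2 : Q ^ 5 = Q * Q ^ 4 := by ring
  have e3 : 1 ≤ Q ^ 4 := one_le_pow₀ (by linarith)
  have e4 : 1000 * Q ^ 4 ≤ Q * Q ^ 4 := mul_le_mul_of_nonneg_right h (by linarith)
  rw [e2]
  linarith

theorem q_d {Q p : ℝ} (h : 1000 ≤ Q) (hp : p ≤ Q ^ 12) : 2 * Q ^ 4 + p + 1 ≤ Q ^ 13 := by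
  have e1 : Q ^ 4 ≤ Q ^ 12 := pow_le_pow_right₀ (by linarith) (by norm_num)
  have e2 : 1 ≤ Q ^ 12 := one_le_pow₀ (by linarith)
  have e3 : Q ^ 13 = Q * Q ^ 12 := by ring
  have e4 : 1000 * Q ^ 12 ≤ Q * Q ^ 12 := mul_le_mul_of_nonneg_right h (by linarith)
  rw [e3]
  linarith

theorem q_g {Q : ℝ} (h : 1000 ≤ Q) : 4 * Q ≤ Q ^ 2 := by nlinarith

theorem sq_le_two {x : ℝ} (h0 : 0 ≤ x) (h : x ≤ 9 / 8) : x ^ 2 ≤ 2 := by nlinarith

theorem i2' (cha : CHAStmt) (frm : FRMStmt) (C T Q : ℝ) (V : Fin 3 → ℝ) (k0 : ℝ)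
    (s : Bool × Bool) (h k : R6) (A : ℝ × ℝ × ℝ) (j : ℕ) (hC1 : 1 ≤ C) (hCQ : C ≤ Q)
    (X : Ctr T Q V k0 s h k A) (rg : Rg T Q V) (hkr : kpr T (V 0) * k0 ≤ Q)
    (w : ℝ × (Fin 3 → ℝ))
    (hw : (sF T A h * w.1, w.2) ∈ Bj' C T Q V k0 s h k A j ∩ Ew' T Q V s h k A) :
    Psi A w ∈ TgP T (Q ^ 1000) V k0 (dl k0 j) s h k ∧ |(Psi A w).2| ≤ 6 := by
  obtain ⟨⟨⟨hD0, hY, hsep⟩, hFF, hphi, -, hkh⟩, ⟨z1, z2, d0, d1, d2, hwin⟩⟩ := hw
  obtain ⟨ρ0, ρk, ρV, ρs⟩ := r1_facts X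
  obtain ⟨τ0, τS, τd⟩ := r2_facts X j
  have hQ := X.hQ
  have hQ0 := X.Q0
  have hQ1 := X.Q1
  have hk := X.k00
  have hS := X.S0
  have hT := X.T0
  obtain ⟨hk4, hkap1⟩ := kap_le X
  have hkap0 := X.p0.le
  set z := sF T A h * w.1 with hz
  have hz0 : 0 < z := by linarith
  have hlam1 : 1 / 2 ≤ w.1 := by
    have : sF T A h * (1 / 2) ≤ sF T A h * w.1 := by linarith
    exact le_of_mul_le_mul_left this hS
  have hlam2 : w.1 ≤ 2 := by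
    have : sF T A h * w.1 ≤ sF T A h * 2 := by linarith
    exact le_of_mul_le_mul_left this hS
  have hlam0 : 0 < w.1 := by linarith
  have hd : 1 / Q ^ 50 + 6 * r1 T Q V k0 ≤ 1 / 64 := by
    have : 1 / Q ^ 50 ≤ 1 / 1000 := by
      refine div_le_div_of_nonneg_left zero_le_one (by norm_num) ?_
      have h1 : Q ^ 1 ≤ Q ^ 50 := X.pw (by norm_num)
      rw [pow_one] at h1
      linarith
    linarith
  have hL : 4 + r1 T Q V k0 ≤ 5 := by linarith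
  have hKK : xw (Pc A s h) (z, w.2) ∈ KK := D0_KK X.std hd hL hD0
  have hμ8 : ‖mw w‖ ≤ 1 / 8 := KK_mu hKK
  have hμ1 : ‖mw w‖ < 1 := by linarith
  have hθ : |w.2 2| ≤ 5 := d2
  obtain ⟨ux, aN, awp, aZ, aDG, akh, aKQ, -⟩ := X.ac (xw (Pc A s h) (z, w.2)) hKK (bc A h)
    X.bc_le z hz0.le (X.zz z2)
  have hqU : Qp T A s h w ∈ UX := ux
  obtain ⟨F, D⟩ := frm cha T Q A s h k w hT hQ1 X.hA X.neH hlam0 hμ1 hqU
  set q := Qp T A s h w with hq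
  have hmuq : mu q.1 = mw w := rfl
  obtain ⟨H, hH⟩ : ∃ H, H = hG (Ach A w.1 (mw w)) h := ⟨_, rfl⟩
  obtain ⟨Kc, hKc⟩ : ∃ Kc, Kc = kG (Ach A w.1 (mw w)) k := ⟨_, rfl⟩
  obtain ⟨K, hK⟩ : ∃ K, K = kG A k := ⟨_, rfl⟩
  obtain ⟨θ, hθd⟩ : ∃ θ, θ = (Psi A w).2 := ⟨_, rfl⟩
  rw [← hH, ← hθd] at F
  rw [← hKc, ← hK] at D
  rw [← hmuq] at D
  -- the square root
  have hs1 : 1 / 2 ≤ √w.1 := by
    rw [Real.le_sqrt' (by norm_num)]
    linarith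
  have hs2 : √w.1 ≤ 3 / 2 := by
    rw [Real.sqrt_le_left (by norm_num)]
    linarith
  have hEh : ∀ l, 7 / 8 ≤ ‖Eh ((Pc A s h).1 l) (mw w)‖ ∧ ‖Eh ((Pc A s h).1 l) (mw w)‖ ≤ 9 / 8 := by
    intro l
    refine ⟨norm_Eh_ge (X.std.e1 l) hμ8, ?_⟩
    unfold Eh
    refine (norm_add_le _ _).trans ?_
    rw [norm_mul, norm_conj, X.std.e1 l, mul_one]
    linarith
  have hnH : ∀ l, ‖H l‖ = √w.1 * ‖hG A h l‖ * ‖Eh ((Pc A s h).1 l) (mw w)‖ := by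
    intro l
    have h1 := F.norm_H l
    have h2 : bc A h l * ‖hG A h 0‖ = ‖hG A h l‖ := by
      unfold bc
      exact div_mul_cancel₀ _ (X.nH 0).ne'
    have h3 : ‖H l‖ = √w.1 * (bc A h l * ‖hG A h 0‖) * ‖Eh ((Pc A s h).1 l) (mw w)‖ := h1
    rw [h3, h2]
  have hH1 : ∀ l, ‖hG A h l‖ ≤ 4 * ‖H l‖ := by
    intro l
    have h1 := X.nH l
    rw [hnH l]
    have h2 : 1 / 2 * ‖hG A h l‖ * (7 / 8) ≤
        √w.1 * ‖hG A h l‖ * ‖Eh ((Pc A s h).1 l) (mw w)‖ :=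
      mul_le_mul (mul_le_mul_of_nonneg_right hs1 h1.le) (hEh l).1 (by norm_num) (by positivity)
    linarith
  have hH2 : ∀ l, ‖H l‖ ≤ 2 * ‖hG A h l‖ := by
    intro l
    have h1 := X.nH l
    rw [hnH l]
    have h2 : √w.1 * ‖hG A h l‖ * ‖Eh ((Pc A s h).1 l) (mw w)‖ ≤
        3 / 2 * ‖hG A h l‖ * (9 / 8) :=
      mul_le_mul (mul_le_mul_of_nonneg_right hs2 h1.le) (hEh l).2 (norm_nonneg _) (by positivity)
    linarith
  -- sizes with `V`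
  have hV1 : ∀ l, V l ≤ Q ^ 3 * ‖H l‖ := by
    intro l
    have h1 := X.sz1 l
    have h2 := hH1 l
    have h3 := norm_nonneg (H l)
    calc V l ≤ Q ^ 2 * ‖hG A h l‖ := h1
      _ ≤ Q ^ 2 * (4 * ‖H l‖) := mul_le_mul_of_nonneg_left h2 (by positivity)
      _ = 4 * (Q ^ 2 * ‖H l‖) := by ring
      _ ≤ Q * (Q ^ 2 * ‖H l‖) := mul_le_mul_of_nonneg_right (by linarith) (by positivity)
      _ = Q ^ 3 * ‖H l‖ := by ring
  have hV2 : ∀ l, ‖H l‖ ≤ Q ^ 4 * V l := by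
    intro l
    have h1 := X.sz2 l
    have h2 := hH2 l
    have h3 : 0 ≤ V l := by linarith [X.Vl l]
    calc ‖H l‖ ≤ 2 * ‖hG A h l‖ := h2
      _ ≤ 2 * (Q ^ 3 * V l) := by linarith
      _ ≤ Q * (Q ^ 3 * V l) := mul_le_mul_of_nonneg_right (by linarith) (by positivity)
      _ = Q ^ 4 * V l := by ring
  have hVV : ∀ l, V l ≤ V 0 := by
    intro l
    fin_cases l
    · exact le_rfl
    · exact X.v01
    · exact X.v12.trans X.v01
  have hVV1 : ∀ l : Fin 3, l ≠ 2 → V 1 ≤ V l := by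
    intro l hl
    fin_cases l
    · exact X.v01
    · exact le_rfl
    · exact absurd rfl hl
  obtain ⟨-, -, -, rg4, rg5⟩ := rg
  -- `‖K‖ r1 ≤ Q²`
  have hKr : ‖K‖ * r1 T Q V k0 ≤ Q ^ 2 := by
    rw [hK]
    calc ‖kG A k‖ * r1 T Q V k0 ≤ (Q ^ 2 * k0) * k0⁻¹ :=
          mul_le_mul X.kA2 ρk ρ0 (by positivity)
      _ = Q ^ 2 := by field_simp
  have hrk : r1 T Q V k0 * k0 ≤ 1 := by
    calc r1 T Q V k0 * k0 ≤ k0⁻¹ * k0 := mul_le_mul_of_nonneg_right ρk hk.le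
      _ = 1 := inv_mul_cancel₀ hk.ne'
  obtain ⟨hKz, hKz'⟩ := Kz1 X hz0.le z2
  obtain ⟨-, hKS⟩ := Kz1 X (z := 2 * sF T A h) (by positivity) le_rfl
  have hrk2 : r2 T Q V k0 h A j * k0 ≤ 1 := by
    have h1 : r2 T Q V k0 h A j * k0 ≤ sF T A h * k0 := mul_le_mul_of_nonneg_right τS hk.le
    have h2 := X.kS1
    have h3 : k0 * sF T A h ≤ Q ^ 94 * (k0 * sF T A h) :=
      le_mul_of_one_le_left (by positivity) (one_le_pow₀ hQ1)
    linarith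
  have hdl0 : 0 < dl k0 j := lt_max_of_lt_right (inv_pos.2 hk)
  have hdlk : 1 ≤ k0 * dl k0 j := by
    calc (1 : ℝ) = k0 * k0⁻¹ := (mul_inv_cancel₀ hk.ne').symm
      _ ≤ k0 * dl k0 j := mul_le_mul_of_nonneg_left (le_max_right _ _) hk.le
  -- the radial window
  obtain ⟨p, hp⟩ : ∃ p, p = Q ^ 2 * kpr T (V 0) + C * (r1 T Q V k0 * (Q ^ 4 * kap T (V 0) +
      ‖kG A k‖ * r1 T Q V k0)) + C * (‖kG A k‖ * (2 * sF T A h) * r1 T Q V k0) +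
      C * ((A2j Q k0 j + ‖kG A k‖ * (2 * sF T A h)) * r2 T Q V k0 h A j) := ⟨_, rfl⟩
  have hpk : p * k0 ≤ Q ^ 12 := by
    rw [hp]
    unfold A2j
    exact c2_bound hQ (by linarith) hCQ hkr hk.le hrk ρ0 hk4 hkap0 (by rw [← hK]; exact hKr)
      (norm_nonneg _) hKS hS.le hrk2 τ0 hdl0.le τd
  have hphi' : |phi K q| ≤ p := by
    rw [hK, hp]
    exact hphi
  have hp0 : 0 ≤ p := (abs_nonneg _).trans hphi'
  have hpQ : p ≤ Q ^ 12 / k0 := by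
    rw [le_div_iff₀ hk]
    exact hpk
  have hpQ' : p ≤ Q ^ 12 := (le_mul_of_one_le_right hp0 X.k1).trans hpk
  have ha : ∀ j', |sp K (DG q j')| ≤ Q ^ 4 := by
    intro j'
    have h1 : |sp K (DG q j') - sp K (F5.H58.FF (xw (Pc A s h) (z, w.2)) j')| ≤
      Q * (‖K‖ * z) := aDG K j'
    have h2 := hFF j'
    have h3 : |sp K (DG q j')| ≤ |sp K (F5.H58.FF (xw (Pc A s h) (z, w.2)) j')| +
        Q * (‖K‖ * z) := by
      have h4 := abs_sub_abs_le_abs_sub (sp K (DG q j'))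
        (sp K (F5.H58.FF (xw (Pc A s h) (z, w.2)) j'))
      linarith only [h4, h1]
    rw [← hK] at h2 hKz
    have h5 : C * (‖K‖ * r1 T Q V k0) ≤ Q * Q ^ 2 :=
      mul_le_mul hCQ hKr (by positivity) hQ0.le
    have h6 : 1 + Q * Q ^ 2 + 1 ≤ Q ^ 4 := q_a hQ
    linarith only [h1, h2, h3, h5, h6, hKz, hk4]
  have he : |q.2.1 * sp K (Z1 q)| ≤ 1 := by
    have h1 : |sp K (Z1 q)| ≤ Q * ‖K‖ := aZ K
    rw [abs_mul, show q.2.1 = z from rfl, abs_of_pos hz0]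
    rw [← hK] at hKz
    calc z * |sp K (Z1 q)| ≤ z * (Q * ‖K‖) := mul_le_mul_of_nonneg_left h1 hz0.le
      _ = Q * (‖K‖ * z) := by ring
      _ ≤ 1 := hKz
  have hzs : Q * z ≤ 1 := X.zz z2
  have hz1000 : z ≤ 1 / 1000 := by
    rw [le_div_iff₀ (by norm_num)]
    have : 1000 * z ≤ Q * z := mul_le_mul_of_nonneg_right hQ hz0.le
    linarith
  have hbz : bz q 2 ≤ 1 / 4 := by
    have e : bz q 2 = bc A h 2 ^ 2 * normSq (Eh ((Pc A s h).1 2) (mw w)) * z := rfl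
    rw [e]
    have h1 : bc A h 2 ^ 2 ≤ 1 := by
      rw [← sq_abs]
      exact pow_le_one₀ (abs_nonneg _) (X.bc_le 2)
    have h2 : normSq (Eh ((Pc A s h).1 2) (mw w)) ≤ 2 := by
      rw [normSq_eq_norm_sq]
      exact sq_le_two (norm_nonneg _) (hEh 2).2
    have h5 : bc A h 2 ^ 2 * normSq (Eh ((Pc A s h).1 2) (mw w)) ≤ 1 * 2 :=
      mul_le_mul h1 h2 (normSq_nonneg _) zero_le_one
    calc _ ≤ 1 * 2 * z := mul_le_mul_of_nonneg_right h5 hz0.le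
      _ ≤ 1 / 4 := by linarith
  have hCB := F.chartB D hμ8 (by linarith : (1 : ℝ) / 4 ≤ w.1) hbz aN he hphi' ha
  obtain ⟨b1, b2, b3, b4, b5⟩ := hCB
  have hN8 : normSq (mu q.1) ≤ 1 / 64 := normSq_le hμ8
  have hN0 := normSq_nonneg (mu q.1)
  -- big powers
  have hbig : ∀ n : ℕ, n ≤ 1000 → Q ^ n ≤ Q ^ 1000 := fun n hn => X.pw hn
  have hsum : 2 * Q ^ 4 + p + 1 ≤ Q ^ 13 := q_d hQ hpQ'
  have hsum0 : 0 ≤ 2 * Q ^ 4 + p + 1 := by positivity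
  have hb3 : (4 + 5 * Q) * (2 * Q ^ 4 + p + 1) * T ≤ Q ^ 1000 * T := by
    refine mul_le_mul_of_nonneg_right ?_ hT.le
    have e1 : 4 + 5 * Q ≤ Q ^ 2 := q_b hQ
    calc (4 + 5 * Q) * (2 * Q ^ 4 + p + 1) ≤ Q ^ 2 * Q ^ 13 :=
          mul_le_mul e1 hsum hsum0 (by positivity)
      _ = Q ^ 15 := by ring
      _ ≤ Q ^ 1000 := hbig 15 (by norm_num)
  have hfin : |θ| ≤ 6 := by
    rw [hθd]
    exact Psi_six A hμ8 hθ
  refine ⟨⟨?_, ?_, ?_, ?_, ?_, ?_⟩, ?_⟩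
  · -- the form
    have h1 := (cha.2 A Q w.1 (mw w) hQ1 X.hA hlam0 hμ1).2.2 hlam1 hlam2 hμ8
    refine KM_mono (by positivity) ?_ h1
    have e1 : 4 * Q ≤ Q ^ 2 := q_g hQ
    exact e1.trans (hbig 2 (by norm_num))
  · -- the sizes
    intro l
    show V l ≤ Q ^ 1000 * ‖hG (Ach A w.1 (mw w)) h l‖ ∧
      ‖hG (Ach A w.1 (mw w)) h l‖ ≤ Q ^ 1000 * V l
    rw [← hH]
    refine ⟨(hV1 l).trans (mul_le_mul_of_nonneg_right (hbig 3 (by norm_num)) (norm_nonneg _)),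
      (hV2 l).trans (mul_le_mul_of_nonneg_right (hbig 4 (by norm_num)) ?_)⟩
    linarith [X.Vl l]
  · -- the good region
    show Gd (Q ^ 1000) T (hG (Ach A w.1 (mw w)) h) (sg s) (Psi A w).2
    rw [← hH, ← hθd]
    have hLx : 0 ≤ Lx T := Real.rpow_nonneg hT.le _
    refine ⟨fun l => ⟨?_, ?_⟩, fun l hl => ?_, ?_, ?_⟩
    · exact (X.Vl l).trans ((hV1 l).trans
        (mul_le_mul_of_nonneg_right (hbig 3 (by norm_num)) (norm_nonneg _)))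
    · calc ‖H l‖ ≤ Q ^ 4 * V l := hV2 l
        _ ≤ Q ^ 4 * (Q * Lx T) := mul_le_mul_of_nonneg_left ((hVV l).trans rg4) (by positivity)
        _ = Q ^ 5 * Lx T := by ring
        _ ≤ Q ^ 1000 * Lx T := mul_le_mul_of_nonneg_right (hbig 5 (by norm_num)) hLx
    · calc T ^ (677 / 2000 : ℝ) ≤ Q * V 1 := rg5
        _ ≤ Q * V l := mul_le_mul_of_nonneg_left (hVV1 l hl) hQ0.le
        _ ≤ Q * (Q ^ 3 * ‖H l‖) := mul_le_mul_of_nonneg_left (hV1 l) hQ0.le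
        _ = Q ^ 4 * ‖H l‖ := by ring
        _ ≤ Q ^ 1000 * ‖H l‖ := mul_le_mul_of_nonneg_right (hbig 4 (by norm_num)) (norm_nonneg _)
    · -- the slab
      rw [F.Y_eq]
      have hYq : |Yf (q.1.2.1 2) (mu q.1) (th q.1)| ≤
          Q ^ 4 * (Rx T / T / V 2) + 6 * r1 T Q V k0 := hY
      have e2 : q.2.2 2 * ‖hG A h 0‖ = ‖hG A h 2‖ := by
        show bc A h 2 * ‖hG A h 0‖ = ‖hG A h 2‖
        unfold bc
        exact div_mul_cancel₀ _ (X.nH 0).ne'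
      rw [e2, abs_mul, abs_mul, abs_of_nonneg (Real.sqrt_nonneg _), abs_of_pos (X.nH 2)]
      have hv2 := X.V2
      have hr := X.p6
      obtain ⟨r, hrd⟩ : ∃ r, r = Rx T / T / V 2 := ⟨_, rfl⟩
      have hr0 : 0 ≤ r := by rw [hrd]; positivity
      rw [← hrd] at hYq ρV
      have e3 : |Yf (q.1.2.1 2) (mu q.1) (th q.1)| ≤ Q ^ 5 * r := by
        have e4 : Q ^ 4 * r + 6 * r ≤ Q ^ 5 * r := by
          have e5 : Q ^ 4 + 6 ≤ Q ^ 5 := q_c hQ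
          calc Q ^ 4 * r + 6 * r = (Q ^ 4 + 6) * r := by ring
            _ ≤ Q ^ 5 * r := mul_le_mul_of_nonneg_right e5 hr0
        linarith
      have e4 : √w.1 * ‖hG A h 2‖ ≤ Q ^ 4 * V 2 := by
        have e5 := X.sz2 2
        calc √w.1 * ‖hG A h 2‖ ≤ 3 / 2 * (Q ^ 3 * V 2) :=
              mul_le_mul hs2 e5 (norm_nonneg _) (by norm_num)
          _ ≤ Q * (Q ^ 3 * V 2) := mul_le_mul_of_nonneg_right (by linarith) (by positivity)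
          _ = Q ^ 4 * V 2 := by ring
      have e5 : √w.1 * ‖hG A h 2‖ * |Yf (q.1.2.1 2) (mu q.1) (th q.1)| ≤
          Q ^ 4 * V 2 * (Q ^ 5 * r) := mul_le_mul e4 e3 (abs_nonneg _) (by positivity)
      have e6 : T * (Q ^ 4 * V 2 * (Q ^ 5 * r)) = Q ^ 9 * Rx T := by
        rw [hrd]
        field_simp
      have hRx : 0 ≤ Rx T := Real.rpow_nonneg hT.le _
      calc T * (√w.1 * ‖hG A h 2‖ * |Yf (q.1.2.1 2) (mu q.1) (th q.1)|) ≤
            T * (Q ^ 4 * V 2 * (Q ^ 5 * r)) := mul_le_mul_of_nonneg_left e5 hT.le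
        _ = Q ^ 9 * Rx T := e6
        _ ≤ Q ^ 1000 * Rx T := mul_le_mul_of_nonneg_right (hbig 9 (by norm_num)) hRx
    · -- the separation
      intro l m hlm
      have hw0 : ∀ l, ‖wp ((xw (Pc A s h) (z, w.2), 0, bc A h) : XX) l‖ = 1 := by
        intro l
        rw [wp_zero rfl]
        exact norm_ww (dom_of X.std (KK_sub hKK)) l
      have hwz : ∀ l, ‖wp q l‖ = 1 := fun l => norm_wp F.hq F.hε l
      have hs := hsep l m hlm
      have hXq : ∀ l, Xq (Pc A s h).1 (Pc A s h).2.1 (Pc A s h).2.2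
          (mu (xw (Pc A s h) (z, w.2))) (th (xw (Pc A s h) (z, w.2))) l =
          wp ((xw (Pc A s h) (z, w.2), 0, bc A h) : XX) l ^ 2 := by
        intro l
        rw [wp_zero rfl]
        rfl
      rw [hXq, hXq] at hs
      have h8 : 8 * (Q * z) ≤ 1 / Q / 2 := by
        have h9 := X.S3
        have h10 : 16 * Q ^ 2 * z ≤ 1 := by
          calc 16 * Q ^ 2 * z ≤ 16 * Q ^ 2 * (2 * sF T A h) :=
                mul_le_mul_of_nonneg_left z2 (by positivity)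
            _ = 32 * (Q ^ 2 * sF T A h) := by ring
            _ ≤ Q * (Q ^ 2 * sF T A h) :=
                mul_le_mul_of_nonneg_right (by linarith) (by positivity)
            _ = Q ^ 3 * sF T A h := by ring
            _ ≤ Q ^ 94 * sF T A h := mul_le_mul_of_nonneg_right (X.pw (by norm_num)) hS.le
            _ ≤ 1 := h9
        rw [div_div, le_div_iff₀ (by positivity)]
        calc 8 * (Q * z) * (Q * 2) = 16 * Q ^ 2 * z := by ring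
          _ ≤ 1 := h10
      have h11 := sepU_of (hw0 l) (hw0 m) (hwz l) (hwz m) (awp l) (awp m) h8 hs
      have h12 : conj (wG T H (sg s) θ l) * wG T H (sg s) θ m = conj (wp q l) * wp q m := by
        rw [F.wG_eq, F.wG_eq, map_mul]
        have h13 := unit_mul_conj F.hω
        calc _ = (om (mw w) * conj (om (mw w))) * (conj (wp q l) * wp q m) := by ring
          _ = _ := by rw [h13, one_mul]
      rw [h12]
      have h14 : 1 ≤ Q ^ 2 * (1 / Q / 2 / 4) := by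
        have : Q ^ 2 * (1 / Q / 2 / 4) = Q / 8 := by field_simp; norm_num
        rw [this]
        linarith
      calc 1 ≤ Q ^ 2 * (1 / Q / 2 / 4) := h14
        _ ≤ Q ^ 1000 * |(conj (wp q l) * wp q m).im| :=
          mul_le_mul (hbig 2 (by norm_num)) h11 (by positivity) (by positivity)
  · exact (norm_R6 cha X).trans (mul_le_mul_of_nonneg_right (hbig 4 (by norm_num)) hk.le)
  · -- the body
    show BD T (Q ^ 1000) (Q ^ 1000 / k0) (fun l => Q ^ 1000 * V l)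
      (hG (Ach A w.1 (mw w)) h) (sg s) (Psi A w).2 (kG (Ach A w.1 (mw w)) k)
    rw [← hH, ← hθd, ← hKc]
    refine ⟨b1.trans hb3, b2.trans hb3, b3.trans hb3, ?_, ?_, fun l => ?_⟩
    · refine b4.trans ?_
      calc 4 * (2 * Q ^ 4 + p + 1) ≤ Q * Q ^ 13 :=
            mul_le_mul (by linarith) hsum hsum0 hQ0.le
        _ = Q ^ 14 := by ring
        _ ≤ Q ^ 1000 := hbig 14 (by norm_num)
    · refine b5.trans (mul_le_mul_of_nonneg_right ?_ hT.le)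
      calc 2 * p ≤ Q * (Q ^ 12 / k0) := mul_le_mul (by linarith) hpQ hp0 hQ0.le
        _ = Q ^ 13 / k0 := by ring
        _ ≤ Q ^ 1000 / k0 := div_le_div_of_nonneg_right (hbig 13 (by norm_num)) hk.le
    · have hvl := X.Vl l
      rw [F.tan_eq D l, abs_div, abs_mul, abs_of_nonneg (Real.sqrt_nonneg _),
        abs_of_nonneg (by linarith : 0 ≤ 1 - normSq (mu q.1))]
      have h1 : |(conj (K l) * TA q l).re| ≤ Q ^ 3 * V l := by
        rw [hK]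
        exact hwin l
      have h2 : 1 / 4 ≤ √w.1 * (1 - normSq (mu q.1)) := by
        calc (1 / 4 : ℝ) ≤ 1 / 2 * (63 / 64) := by norm_num
          _ ≤ _ := mul_le_mul hs1 (by linarith) (by norm_num) (by positivity)
      rw [div_le_iff₀ (by linarith)]
      have h3 : Q ^ 3 * V l ≤ Q ^ 4 * V l * (1 / 4) := by
        have e1 : Q ^ 4 * V l * (1 / 4) = (Q / 4) * (Q ^ 3 * V l) := by ring
        rw [e1]
        exact le_mul_of_one_le_left (by positivity) (by linarith)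
      have h4 : Q ^ 4 * V l * (1 / 4) ≤ Q ^ 1000 * V l * (√w.1 * (1 - normSq (mu q.1))) :=
        mul_le_mul (mul_le_mul_of_nonneg_right (hbig 4 (by norm_num)) (by linarith)) h2
          (by norm_num) (by positivity)
      linarith
  · -- kappa
    show |kph T (hG (Ach A w.1 (mw w)) h) (sg s) (Psi A w).2 (kG (Ach A w.1 (mw w)) k)| ≤
      Q ^ 1000 * (dl k0 j * k0 * V 0 ^ 2)
    rw [← hH, ← hθd, ← hKc, F.kph_eq D, abs_mul]
    have h1 := aKQ K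
    have h2 : |kh ((xw (Pc A s h) (z, w.2), 0, bc A h) : XX) K| ≤
        A2j Q k0 j + C * (‖K‖ * r1 T Q V k0) := by
      rw [hK]
      exact hkh
    have h3 : |sp K (KQ q)| ≤ Q ^ 5 * (k0 * dl k0 j) := by
      have h4 := abs_sub_abs_le_abs_sub (sp K (KQ q))
        (kh ((xw (Pc A s h) (z, w.2), 0, bc A h) : XX) K)
      have h5 : |sp K (KQ q) - kh ((xw (Pc A s h) (z, w.2), 0, bc A h) : XX) K| ≤
          Q * (‖K‖ * z) := h1
      rw [← hK] at hKz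
      have h6 : C * (‖K‖ * r1 T Q V k0) ≤ Q * Q ^ 2 :=
        mul_le_mul hCQ hKr (by positivity) hQ0.le
      have h7 : A2j Q k0 j = Q ^ 4 * (k0 * dl k0 j) := by
        unfold A2j
        ring
      have h8 : Q * Q ^ 2 + 1 ≤ Q ^ 4 * (k0 * dl k0 j) := by
        have e1 : Q * Q ^ 2 + 1 ≤ Q ^ 4 := by linarith only [q_a hQ]
        exact e1.trans (le_mul_of_one_le_right (by positivity) hdlk)
      have h9 : Q ^ 5 * (k0 * dl k0 j) = Q * (Q ^ 4 * (k0 * dl k0 j)) := by ring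
      rw [h9]
      have h10 : 0 ≤ Q ^ 4 * (k0 * dl k0 j) := by positivity
      have h11 : 2 * (Q ^ 4 * (k0 * dl k0 j)) ≤ Q * (Q ^ 4 * (k0 * dl k0 j)) :=
        mul_le_mul_of_nonneg_right (by linarith only [hQ]) h10
      rw [h7] at h2
      linarith only [h2, h4, h5, h6, h8, h11, hKz]
    have h4 : |√w.1 * ‖hG A h 0‖ ^ 2 / (1 - normSq (mu q.1))| ≤ Q ^ 7 * V 0 ^ 2 := by
      have hv0 := X.V0
      rw [abs_of_nonneg (div_nonneg (by positivity) (by linarith)),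
        div_le_iff₀ (by linarith)]
      have e1 : ‖hG A h 0‖ ^ 2 ≤ (Q ^ 3 * V 0) ^ 2 := pow_le_pow_left₀ (norm_nonneg _) (X.sz2 0) 2
      have e2 : √w.1 * ‖hG A h 0‖ ^ 2 ≤ 3 / 2 * (Q ^ 3 * V 0) ^ 2 :=
        mul_le_mul hs2 e1 (by positivity) (by norm_num)
      have e3 : Q ^ 7 * V 0 ^ 2 * (63 / 64) ≤ Q ^ 7 * V 0 ^ 2 * (1 - normSq (mu q.1)) :=
        mul_le_mul_of_nonneg_left (by linarith) (by positivity)
      have e4 : Q ^ 7 * V 0 ^ 2 * (63 / 64) = (63 / 64 * Q) * (Q ^ 3 * V 0) ^ 2 := by ring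
      have e5 : 3 / 2 * (Q ^ 3 * V 0) ^ 2 ≤ (63 / 64 * Q) * (Q ^ 3 * V 0) ^ 2 :=
        mul_le_mul_of_nonneg_right (by linarith) (by positivity)
      linarith
    have hv0 := X.V0
    calc |√w.1 * ‖hG A h 0‖ ^ 2 / (1 - normSq (mu q.1))| * |sp K (KQ q)| ≤
          Q ^ 7 * V 0 ^ 2 * (Q ^ 5 * (k0 * dl k0 j)) :=
          mul_le_mul h4 h3 (abs_nonneg _) (by positivity)
      _ = Q ^ 12 * (dl k0 j * k0 * V 0 ^ 2) := by ring
      _ ≤ Q ^ 1000 * (dl k0 j * k0 * V 0 ^ 2) :=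
          mul_le_mul_of_nonneg_right (hbig 12 (by norm_num)) (by positivity)
  · rw [← hθd]
    exact hfin

/-- row I2 -/
theorem i2 : I2Stmt := by
  intro cha frm C T Q V k0 s h k A j hC1 hCQ X rg hkr w hw
  exact i2' cha frm C T Q V k0 s h k A j hC1 hCQ X rg hkr w hw

end Pool.Agent.F5H.H9
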