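import Pool.Agent.Helper9_F5H.Len
import Pool.Agent.Helper38_F5.Arith

/-!
MP_f5cbfa_nt, block N: the exponents of the conic pair count with two lengths (case B).
-/

set_option autoImplicit false

open MeasureTheory

namespace Pool.Agent.F5H.H9

open Pool.Agent.Helper68_F5 Pool.Agent.Helper38_F5

theorem ff_scale {R V V' W lam : ℝ} (hR : 1 ≤ R) (hW : 0 ≤ W) (hl : 1 ≤ lam)
    (h : V' ≤ lam * V) : FF R V' W ≤ lam * FF R V W := by
  have hR0 : 0 < R := by linarith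
  have hs : 0 < Real.sqrt R := Real.sqrt_pos.2 hR0
  have hlog : 0 ≤ 1 + Real.log R := by linarith [Real.log_nonneg hR]
  unfold FF
  have h1 : V' / Real.sqrt R ≤ lam * (V / Real.sqrt R) := by
    rw [← mul_div_assoc]
    exact div_le_div_of_nonneg_right h hs.le
  have h2 : V' * W / R * (1 + Real.log R) ≤ lam * (V * W / R * (1 + Real.log R)) := by
    have : V' * W / R * (1 + Real.log R) = V' * (W / R * (1 + Real.log R)) := by ring
    rw [this]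
    have e : lam * (V * W / R * (1 + Real.log R)) = lam * V * (W / R * (1 + Real.log R)) := by ring
    rw [e]
    exact mul_le_mul_of_nonneg_right h (by positivity)
  linarith

/-- exponents for the classes below `1` -/
theorem core2 {t a b c r m q f : ℝ} (ht : 0 ≤ t) (hc : 0 ≤ c) (hcb : c ≤ b) (hba : b ≤ a)
    (ha : a ≤ 277 / 500 * t + q) (hb : b ≤ 677 / 2000 * t + q) (hq : 0 ≤ q) (hqt : 2000 * q ≤ t)
    (hr : 0 ≤ r) (hrm : r ≤ m + q)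
    (hm : (m = 0 ∧ a + b + c ≤ t) ∨ (m = 2 * (a + b + c - t) ∧ t ≤ a + b + c))
    (hf : f = 0 ∨ f = a - 2 / 3 * r ∨ f = 2 * a - 2 * r ∨ f = 4 * a - 2 * t) :
    4 * r + f + c - 2 * t ≤ m + 4 * q := by
  rcases hm with ⟨hm, hs⟩ | ⟨hm, hs⟩
  · subst hm
    rcases hf with h | h | h | h <;> subst h <;> linarith
  · subst hm
    rcases hf with h | h | h | h <;> subst h <;> linarith

theorem core3 {t a b c r m q : ℝ} (ht : 0 ≤ t) (hc : 0 ≤ c) (hcb : c ≤ b) (hba : b ≤ a)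
    (ha : a ≤ 277 / 500 * t + q) (hb : b ≤ 677 / 2000 * t + q) (hq : 0 ≤ q) (hqt : 2000 * q ≤ t)
    (hrm : r ≤ m + q)
    (hm : (m = 0 ∧ a + b + c ≤ t) ∨ (m = 2 * (a + b + c - t) ∧ t ≤ a + b + c)) :
    2 * a + b + r - 2 * t ≤ 0 := by
  rcases hm with ⟨hm, hs⟩ | ⟨hm, hs⟩
  · subst hm; linarith
  · subst hm; linarith

/-- classes `n ≥ 1` -/
theorem nl_le1 {T P Q R R₁ V₁ V₂ V₃ ω₁ ω₂ n L : ℝ} {k : ℕ} (hT : 1 ≤ T) (hP : 1 ≤ P)
    (hQ : 1 ≤ Q) (hQT : Q ^ 2000 ≤ T) (hR : 1 ≤ R) (hlog : 1 + Real.log R ≤ P)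
    (h3 : 1 ≤ V₃) (h32 : V₃ ≤ V₂) (h23 : V₂ ≤ 4 * V₃) (h21 : V₂ ≤ V₁)
    (hV1 : V₁ ≤ Q * T ^ (277 / 500 : ℝ)) (hV1T : V₁ ≤ T)
    (hV2 : V₂ ≤ Q * T ^ (677 / 2000 : ℝ)) (hR₁ : R₁ = max 1 ((V₁ * V₂ * V₃ / T) ^ 2))
    (hRR : R ≤ Q * R₁) (hω₁0 : 0 ≤ ω₁) (hω₂0 : 0 ≤ ω₂)
    (hω₁ : ω₁ ≤ P ^ k * (1 + V₁ / R)) (hω₂ : ω₂ ≤ P ^ k * (1 + V₂ / R))
    (hn : 1 ≤ n) (hn2 : n ≤ 4 * V₂) (hL0 : 0 ≤ L) (hL : L ≤ P ^ k * n) :
    NL P R (T ^ 2) V₁ V₂ V₃ ω₁ ω₂ L L * (V₂ / (n * R * T ^ 2)) ≤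
      10 ^ 16 * P ^ (5 * k + 10) * Q ^ 4 * R₁ := by
  have hT0 : 0 < T := by linarith
  have hP0 : 0 < P := by linarith
  have hR0 : 0 < R := by linarith
  have h30 : 0 < V₃ := by linarith
  have h20 : 0 < V₂ := by linarith
  have h10 : 0 < V₁ := by linarith
  have hn0 : 0 < n := by linarith
  have hpk : 1 ≤ P ^ k := one_le_pow₀ hP
  have hpk2 : 1 ≤ P ^ (k + 2) := one_le_pow₀ hP
  have hpkk : P ^ k ≤ P ^ (k + 2) := pow_le_pow_right₀ hP (by omega)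
  have hp2k : P ^ 2 ≤ P ^ (k + 2) := pow_le_pow_right₀ hP (by omega)
  have hR₁1 : 1 ≤ R₁ := by rw [hR₁]; exact le_max_left _ _
  have hnc := nc_le (T := T) (P := P) (Q := Q) (R := R) (R₁ := R₁) (V₁ := V₁) (V₂ := V₂)
    (V₃ := V₃) (ω₁ := ω₁) (ω₂ := ω₂) (ω₃ := R * V₃) (lam := 0) (k := k) hT hP hQ hQT hR hlog h3 h32
    h21 hV1 hV2 hR₁ hRR hω₁0 hω₂0 (by positivity) hω₁ hω₂ (by
      have : 0 ≤ R * V₃ := by positivity
      nlinarith) (Or.inl rfl)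
  rw [Real.rpow_zero, one_mul] at hnc
  obtain ⟨X₁, hX₁⟩ : ∃ X, X = FC R V₁ (WW P R (T ^ 2) V₁ V₁ ω₁) := ⟨_, rfl⟩
  obtain ⟨W₂, hW₂⟩ : ∃ X, X = WW P R (T ^ 2) V₁ V₂ ω₂ := ⟨_, rfl⟩
  have hW₂0 : 0 ≤ W₂ := by rw [hW₂]; exact WW_nonneg hR0.le (by positivity) h20.le hω₂0
  have hX₁0 : 0 ≤ X₁ := by
    have h5 := WW_nonneg (P := P) (R := R) (S := T ^ 2) (V₁ := V₁) (V := V₁) (ω := ω₁) hR0.le
      (by positivity) h10.le hω₁0
    have h6 := Real.log_nonneg hR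
    rw [hX₁, FC]
    positivity
  obtain ⟨X₂, hX₂⟩ : ∃ X, X = FF R V₂ W₂ := ⟨_, rfl⟩
  have hX₂0 : 0 ≤ X₂ := by
    rw [hX₂]
    have := FF_ge (R := R) (V := V₂) (W := W₂) hR h20.le hW₂0
    linarith
  -- the length
  have hWR : W₂ / R ≤ 1538 * P ^ (k + 2) * V₂ := by
    have e1 : W₂ / R = ω₂ / R + 1536 * P ^ 2 * (V₁ ^ 2 / T ^ 2 * V₂) := by
      rw [hW₂]
      unfold WW
      field_simp
    have e2 : ω₂ / R ≤ 2 * P ^ k * V₂ := by
      have hVR : V₂ / R ≤ V₂ := div_le_self h20.le hR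
      have : 1 ≤ V₂ := by linarith
      calc ω₂ / R ≤ ω₂ := div_le_self hω₂0 hR
        _ ≤ P ^ k * (1 + V₂ / R) := hω₂
        _ ≤ P ^ k * (2 * V₂) := mul_le_mul_of_nonneg_left (by linarith) (by linarith)
        _ = _ := by ring
    have e3 : V₁ ^ 2 / T ^ 2 ≤ 1 := by
      rw [div_le_one (by positivity)]
      exact pow_le_pow_left₀ h10.le hV1T 2
    have e4 : 1536 * P ^ 2 * (V₁ ^ 2 / T ^ 2 * V₂) ≤ 1536 * P ^ (k + 2) * V₂ := by
      calc 1536 * P ^ 2 * (V₁ ^ 2 / T ^ 2 * V₂) ≤ 1536 * P ^ 2 * (1 * V₂) :=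
            mul_le_mul_of_nonneg_left (mul_le_mul_of_nonneg_right e3 h20.le) (by positivity)
        _ ≤ 1536 * P ^ (k + 2) * V₂ := by
            have := mul_le_mul_of_nonneg_right hp2k h20.le
            linarith
    have e5 : 2 * P ^ k * V₂ ≤ 2 * P ^ (k + 2) * V₂ := by
      have := mul_le_mul_of_nonneg_right hpkk h20.le
      linarith
    rw [e1]
    linarith
  have hLL : 1 + L + W₂ / R ≤ 1543 * P ^ (k + 2) * V₂ := by
    have e1 : L ≤ 4 * P ^ (k + 2) * V₂ := by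
      calc L ≤ P ^ k * n := hL
        _ ≤ P ^ (k + 2) * (4 * V₂) := mul_le_mul hpkk hn2 hn0.le (by positivity)
        _ = _ := by ring
    have e2 : 1 ≤ P ^ (k + 2) * V₂ := by nlinarith
    linarith
  have hff := ff_scale (R := R) (V := V₂) (V' := 1 + L + W₂ / R) (W := W₂)
    (lam := 1543 * P ^ (k + 2)) hR hW₂0 (by linarith) hLL
  rw [← hX₂] at hff
  -- last factor
  have hlast : (1 + V₃) * (1 + L) ≤ 4 * P ^ k * V₃ * n := by
    have e1 : 1 + L ≤ 2 * (P ^ k * n) := by nlinarith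
    calc (1 + V₃) * (1 + L) ≤ (2 * V₃) * (2 * (P ^ k * n)) :=
          mul_le_mul (by linarith) e1 (by linarith) (by linarith)
      _ = _ := by ring
  have hNC : R ^ 4 * X₁ * X₂ * V₃ ^ 2 ≤ NC P R (T ^ 2) V₁ V₂ V₃ ω₁ ω₂ (R * V₃) := by
    unfold NC
    rw [← hX₁, ← hW₂, ← hX₂]
    refine mul_le_mul_of_nonneg_left ?_ (by positivity)
    have e1 : R * V₃ ≤ WW P R (T ^ 2) V₁ V₃ (R * V₃) := by
      unfold WW
      have : 0 ≤ 1536 * P ^ 2 * (V₁ ^ 2 / T ^ 2) * R * V₃ := by positivity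
      linarith
    have e2 : V₃ ≤ WW P R (T ^ 2) V₁ V₃ (R * V₃) / R := by
      rw [le_div_iff₀ hR0]; linarith
    calc V₃ ^ 2 = V₃ * V₃ := by ring
      _ ≤ max 1 V₃ * (1 + WW P R (T ^ 2) V₁ V₃ (R * V₃) / R) :=
          mul_le_mul (le_max_right _ _) (by linarith) h30.le
            (le_trans zero_le_one (le_max_left _ _))
  have hNL : NL P R (T ^ 2) V₁ V₂ V₃ ω₁ ω₂ L L * (V₂ / (n * R * T ^ 2)) ≤
      24688 * P ^ (2 * k + 2) * (R ^ 4 * X₁ * X₂ * V₃ ^ 2 / (T ^ 2 * R)) := by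
    unfold NL
    rw [← hX₁, ← hW₂]
    calc R ^ 4 * X₁ * FF R (1 + L + W₂ / R) W₂ * ((1 + V₃) * (1 + L)) * (V₂ / (n * R * T ^ 2))
        ≤ R ^ 4 * X₁ * (1543 * P ^ (k + 2) * X₂) * (4 * P ^ k * V₃ * n) *
            ((4 * V₃) / (n * R * T ^ 2)) := by
          have hFF0 : 0 ≤ FF R (1 + L + W₂ / R) W₂ := by
            have h7 : 0 ≤ W₂ / R := by positivity
            have := FF_ge (R := R) (V := 1 + L + W₂ / R) (W := W₂) hR (by linarith) hW₂0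
            linarith
          refine mul_le_mul (mul_le_mul (mul_le_mul_of_nonneg_left hff (by positivity)) hlast
            (by positivity) (by positivity)) ?_ (by positivity) (by positivity)
          exact div_le_div_of_nonneg_right h23 (by positivity)
      _ = 24688 * (P ^ (k + 2) * P ^ k) * (R ^ 4 * X₁ * X₂ * V₃ ^ 2 / (T ^ 2 * R)) := by
          field_simp
          ring
      _ = _ := by
          rw [← pow_add]
          congr 3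
          ring
  refine le_trans hNL ?_
  have h8 : R ^ 4 * X₁ * X₂ * V₃ ^ 2 / (T ^ 2 * R) ≤
      NC P R (T ^ 2) V₁ V₂ V₃ ω₁ ω₂ (R * V₃) / (T ^ 2 * R) :=
    div_le_div_of_nonneg_right hNC (by positivity)
  have hQ3 : Q ^ 3 ≤ Q ^ 4 := pow_le_pow_right₀ hQ (by norm_num)
  calc 24688 * P ^ (2 * k + 2) * (R ^ 4 * X₁ * X₂ * V₃ ^ 2 / (T ^ 2 * R))
      ≤ 24688 * P ^ (2 * k + 2) * (16 * 1539 ^ 3 * P ^ (3 * k + 8) * Q ^ 3 * R₁) :=
        mul_le_mul_of_nonneg_left (le_trans h8 hnc) (by positivity)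
    _ = (24688 * 16 * 1539 ^ 3) * (P ^ (2 * k + 2) * P ^ (3 * k + 8)) * Q ^ 3 * R₁ := by ring
    _ = (24688 * 16 * 1539 ^ 3) * P ^ (5 * k + 10) * Q ^ 3 * R₁ := by
        rw [← pow_add]
        congr 4
        ring
    _ ≤ 10 ^ 16 * P ^ (5 * k + 10) * Q ^ 3 * R₁ := by
        refine mul_le_mul_of_nonneg_right (mul_le_mul_of_nonneg_right (mul_le_mul_of_nonneg_right
          (by norm_num) (by positivity)) (by positivity)) (by linarith)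
    _ ≤ _ := by
        refine mul_le_mul_of_nonneg_right (mul_le_mul_of_nonneg_left hQ3 (by positivity))
          (by linarith)

/-- classes `n ≤ 1` -/
theorem nl_le2 {T P Q R R₁ V₁ V₂ V₃ ω₁ ω₂ n L : ℝ} {k : ℕ} (hT : 1 ≤ T) (hP : 1 ≤ P)
    (hQ : 1 ≤ Q) (hQT : Q ^ 2000 ≤ T) (hR : 1 ≤ R) (hlog : 1 + Real.log R ≤ P)
    (h3 : 1 ≤ V₃) (h32 : V₃ ≤ V₂) (h21 : V₂ ≤ V₁)
    (hV1 : V₁ ≤ Q * T ^ (277 / 500 : ℝ))
    (hV2 : V₂ ≤ Q * T ^ (677 / 2000 : ℝ)) (hR₁ : R₁ = max 1 ((V₁ * V₂ * V₃ / T) ^ 2))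
    (hRR : R ≤ Q * R₁) (hω₁0 : 0 ≤ ω₁) (hω₂0 : 0 ≤ ω₂)
    (hω₁ : ω₁ ≤ P ^ k * (1 + V₁ / R)) (hω₂ : ω₂ ≤ P ^ k * (1 + V₂ / R))
    (hn0 : V₂ / R ≤ n) (hn : n ≤ 1) (hL0 : 0 ≤ L) (hL : L ≤ P ^ k * n) :
    NL P R (T ^ 2) V₁ V₂ V₃ ω₁ ω₂ L L * (V₂ / (n * R * T ^ 2)) ≤
      10 ^ 16 * P ^ (5 * k + 10) * Q ^ 4 * R₁ := by
  have hT0 : 0 < T := by linarith
  have hP0 : 0 < P := by linarith
  have hQ0 : 0 < Q := by linarith
  have hR0 : 0 < R := by linarith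
  have h30 : 0 < V₃ := by linarith
  have h20 : 0 < V₂ := by linarith
  have h10 : 0 < V₁ := by linarith
  have hnn : 0 < n := lt_of_lt_of_le (by positivity) hn0
  have hR₁1 : 1 ≤ R₁ := by rw [hR₁]; exact le_max_left _ _
  have hR₁0 : 0 < R₁ := by linarith
  have hpk : 1 ≤ P ^ k := one_le_pow₀ hP
  have hpk2 : 1 ≤ P ^ (k + 2) := one_le_pow₀ hP
  have hpkk : P ^ k ≤ P ^ (k + 2) := pow_le_pow_right₀ hP (by omega)
  have hp2k : P ^ 2 ≤ P ^ (k + 2) := pow_le_pow_right₀ hP (by omega)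
  obtain ⟨t, ht⟩ : ∃ t, t = Real.log T := ⟨_, rfl⟩
  obtain ⟨a, ha⟩ : ∃ a, a = Real.log V₁ := ⟨_, rfl⟩
  obtain ⟨b, hb⟩ : ∃ b, b = Real.log V₂ := ⟨_, rfl⟩
  obtain ⟨c, hc⟩ : ∃ c, c = Real.log V₃ := ⟨_, rfl⟩
  obtain ⟨r, hr⟩ : ∃ r, r = Real.log R := ⟨_, rfl⟩
  obtain ⟨q, hq⟩ : ∃ q, q = Real.log Q := ⟨_, rfl⟩
  obtain ⟨m, hm⟩ : ∃ m, m = Real.log R₁ := ⟨_, rfl⟩
  have eT : T = Real.exp t := by rw [ht, Real.exp_log hT0]
  have eV1 : V₁ = Real.exp a := by rw [ha, Real.exp_log h10]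
  have eV2 : V₂ = Real.exp b := by rw [hb, Real.exp_log h20]
  have eV3 : V₃ = Real.exp c := by rw [hc, Real.exp_log h30]
  have eR : R = Real.exp r := by rw [hr, Real.exp_log hR0]
  have eQ : Q = Real.exp q := by rw [hq, Real.exp_log hQ0]
  have eR1 : R₁ = Real.exp m := by rw [hm, Real.exp_log hR₁0]
  have ht0 : 0 ≤ t := by rw [ht]; exact Real.log_nonneg hT
  have hc0 : 0 ≤ c := by rw [hc]; exact Real.log_nonneg h3
  have hcb : c ≤ b := by rw [hc, hb]; exact Real.log_le_log h30 h32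
  have hba : b ≤ a := by rw [ha, hb]; exact Real.log_le_log h20 h21
  have hq0 : 0 ≤ q := by rw [hq]; exact Real.log_nonneg hQ
  have hr0 : 0 ≤ r := by rw [hr]; exact Real.log_nonneg hR
  have ha' : a ≤ 277 / 500 * t + q := by
    have := Real.log_le_log h10 hV1
    rw [Real.log_mul (by positivity) (by positivity), Real.log_rpow hT0, ← ha, ← hq, ← ht] at this
    linarith
  have hb' : b ≤ 677 / 2000 * t + q := by
    have := Real.log_le_log h20 hV2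
    rw [Real.log_mul (by positivity) (by positivity), Real.log_rpow hT0, ← hb, ← hq, ← ht] at this
    linarith
  have hqt : 2000 * q ≤ t := by
    have := Real.log_le_log (by positivity) hQT
    rw [Real.log_pow, ← hq, ← ht] at this
    norm_num at this
    exact this
  have hrm : r ≤ m + q := by
    have := Real.log_le_log hR0 hRR
    rw [Real.log_mul (by positivity) (by positivity), ← hr, ← hq, ← hm] at this
    linarith
  have e0 : (V₁ * V₂ * V₃ / T) ^ 2 = Real.exp (2 * (a + b + c - t)) := by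
    rw [eV1, eV2, eV3, eT, ← Real.exp_add, ← Real.exp_add, exp_div', ← Real.exp_nat_mul]
    norm_num
  have hm' : (m = 0 ∧ a + b + c ≤ t) ∨ (m = 2 * (a + b + c - t) ∧ t ≤ a + b + c) := by
    rcases le_total (a + b + c) t with h | h
    · left
      refine ⟨?_, h⟩
      rw [hm, hR₁, e0, max_eq_left, Real.log_one]
      rw [← Real.exp_zero]
      exact Real.exp_le_exp.2 (by linarith)
    · right
      refine ⟨?_, h⟩
      rw [hm, hR₁, e0, max_eq_right, Real.log_exp]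
      rw [← Real.exp_zero]
      exact Real.exp_le_exp.2 (by linarith)
  -- the second factor is bounded
  obtain ⟨W₂, hW₂⟩ : ∃ X, X = WW P R (T ^ 2) V₁ V₂ ω₂ := ⟨_, rfl⟩
  have hW₂0 : 0 ≤ W₂ := by rw [hW₂]; exact WW_nonneg hR0.le (by positivity) h20.le hω₂0
  have hZ : V₁ ^ 2 / T ^ 2 * R * V₂ ≤ 1 := by
    have h5 := core3 ht0 hc0 hcb hba ha' hb' hq0 hqt hrm hm'
    have h6 : V₁ ^ 2 / T ^ 2 * R * V₂ = Real.exp (2 * a + b + r - 2 * t) := by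
      rw [eV1, eV2, eT, eR, ← Real.exp_nat_mul, ← Real.exp_nat_mul, exp_div', ← Real.exp_add,
        ← Real.exp_add]
      congr 1
      push_cast
      ring
    rw [h6, ← Real.exp_zero]
    exact Real.exp_le_exp.2 h5
  have hVR : V₂ / R ≤ 1 := by linarith
  have hW₂le : W₂ ≤ 1538 * P ^ (k + 2) := by
    have e1 : W₂ = ω₂ + 1536 * P ^ 2 * (V₁ ^ 2 / T ^ 2 * R * V₂) := by
      rw [hW₂]; unfold WW; ring
    have e2 : ω₂ ≤ 2 * P ^ k := by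
      calc ω₂ ≤ P ^ k * (1 + V₂ / R) := hω₂
        _ ≤ P ^ k * 2 := mul_le_mul_of_nonneg_left (by linarith) (by linarith)
        _ = _ := by ring
    have e3 : 1536 * P ^ 2 * (V₁ ^ 2 / T ^ 2 * R * V₂) ≤ 1536 * P ^ 2 * 1 :=
      mul_le_mul_of_nonneg_left hZ (by positivity)
    rw [e1]
    linarith
  have hW₂R : W₂ / R ≤ 1538 * P ^ (k + 2) := le_trans (div_le_self hW₂0 hR) hW₂le
  have hWR0 : 0 ≤ W₂ / R := by positivity
  have hLk : L ≤ P ^ k := by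
    calc L ≤ P ^ k * n := hL
      _ ≤ P ^ k * 1 := mul_le_mul_of_nonneg_left hn (by linarith)
      _ = _ := by ring
  have hLL : 1 + L + W₂ / R ≤ 1540 * P ^ (k + 2) := by linarith
  have hFF : FF R (1 + L + W₂ / R) W₂ ≤ 2400000 * P ^ (2 * k + 5) := by
    unfold FF
    have hs : 1 ≤ Real.sqrt R := Real.one_le_sqrt.2 hR
    have e1 : (1 + L + W₂ / R) / Real.sqrt R ≤ 1540 * P ^ (k + 2) :=
      le_trans (div_le_self (by linarith) hs) hLL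
    have e2 : (1 + L + W₂ / R) * W₂ / R * (1 + Real.log R) ≤
        1540 * P ^ (k + 2) * (1538 * P ^ (k + 2)) * P := by
      have h9 : (1 + L + W₂ / R) * W₂ / R ≤ 1540 * P ^ (k + 2) * (1538 * P ^ (k + 2)) :=
        le_trans (div_le_self (by positivity) hR)
          (mul_le_mul hLL hW₂le hW₂0 (by positivity))
      have h10' := Real.log_nonneg hR
      exact mul_le_mul h9 hlog (by linarith) (by positivity)
    have e3 : P ^ (k + 2) * P ^ (k + 2) * P = P ^ (2 * k + 5) := by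
      rw [← pow_add, ← pow_succ]
      congr 1
      ring
    have e4 : 1540 * P ^ (k + 2) * (1538 * P ^ (k + 2)) * P = 2368520 * P ^ (2 * k + 5) := by
      rw [← e3]; ring
    have e5 : P ^ (k + 2) ≤ P ^ (2 * k + 5) := pow_le_pow_right₀ hP (by omega)
    rw [e4] at e2
    linarith
  have hFF0 : 0 ≤ FF R (1 + L + W₂ / R) W₂ := by
    have := FF_ge (R := R) (V := 1 + L + W₂ / R) (W := W₂) hR (by linarith) hW₂0
    linarith
  -- the first factor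
  have f1 := fc_le (T := T) hT0 hP hR h10.le hlog hω₁0 hω₁
  obtain ⟨X₁, hX₁⟩ : ∃ X, X = FC R V₁ (WW P R (T ^ 2) V₁ V₁ ω₁) := ⟨_, rfl⟩
  have hX₁0 : 0 ≤ X₁ := by
    have h5 := WW_nonneg (P := P) (R := R) (S := T ^ 2) (V₁ := V₁) (V := V₁) (ω := ω₁) hR0.le
      (by positivity) h10.le hω₁0
    have h6 := Real.log_nonneg hR
    rw [hX₁, FC]
    positivity
  have g1 : 1 + V₁ / R ^ (2 / 3 : ℝ) + V₁ ^ 2 / R ^ 2 + V₁ ^ 4 / T ^ 2 =
      Real.exp 0 + Real.exp (a - 2 / 3 * r) + Real.exp (2 * a - 2 * r) + Real.exp (4 * a - 2 * t) := by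
    rw [eV1, eT, eR, ← Real.exp_mul, ← Real.exp_nat_mul, ← Real.exp_nat_mul, ← Real.exp_nat_mul,
      ← Real.exp_nat_mul, exp_div', exp_div', exp_div', Real.exp_zero]
    norm_num
    ring_nf
  rw [← hX₁, g1] at f1
  have g3 : R ^ 4 * V₃ / T ^ 2 = Real.exp (4 * r + c - 2 * t) := by
    rw [eT, eV3, eR, ← Real.exp_nat_mul, ← Real.exp_nat_mul, ← Real.exp_add, exp_div']
    norm_num
  have key : ∀ f : ℝ, (f = 0 ∨ f = a - 2 / 3 * r ∨ f = 2 * a - 2 * r ∨ f = 4 * a - 2 * t) →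
      Real.exp (4 * r + c - 2 * t) * Real.exp f ≤ Q ^ 4 * R₁ := by
    intro f hf
    have h5 := core2 ht0 hc0 hcb hba ha' hb' hq0 hqt hr0 hrm hm' hf
    rw [eQ, eR1, ← Real.exp_nat_mul, ← Real.exp_add, ← Real.exp_add]
    refine Real.exp_le_exp.2 ?_
    push_cast
    linarith
  have k1 := key 0 (by simp)
  have k2 := key (a - 2 / 3 * r) (by simp)
  have k3 := key (2 * a - 2 * r) (by simp)
  have k4 := key (4 * a - 2 * t) (by simp)
  obtain ⟨F, hF⟩ : ∃ F, F = Real.exp 0 + Real.exp (a - 2 / 3 * r) + Real.exp (2 * a - 2 * r) +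
    Real.exp (4 * a - 2 * t) := ⟨_, rfl⟩
  have hF0 : 0 ≤ F := by rw [hF]; positivity
  rw [← hF] at f1
  have hRF : R ^ 4 * V₃ / T ^ 2 * F ≤ 4 * (Q ^ 4 * R₁) := by
    rw [g3, hF]
    linarith
  -- the last factor
  have hlast : (1 + V₃) * (1 + L) ≤ 4 * P ^ k * V₃ := by
    calc (1 + V₃) * (1 + L) ≤ (2 * V₃) * (2 * P ^ k) :=
          mul_le_mul (by linarith) (by linarith) (by linarith) (by linarith)
      _ = _ := by ring
  have hq1 : V₂ / (n * R * T ^ 2) ≤ 1 / T ^ 2 := by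
    rw [div_le_div_iff₀ (by positivity) (by positivity)]
    rw [div_le_iff₀ hR0] at hn0
    nlinarith [sq_nonneg T]
  unfold NL
  rw [← hX₁, ← hW₂]
  calc R ^ 4 * X₁ * FF R (1 + L + W₂ / R) W₂ * ((1 + V₃) * (1 + L)) * (V₂ / (n * R * T ^ 2))
      ≤ R ^ 4 * (1537 * P ^ (k + 3) * F) * (2400000 * P ^ (2 * k + 5)) * (4 * P ^ k * V₃) *
          (1 / T ^ 2) := by
        refine mul_le_mul (mul_le_mul (mul_le_mul (mul_le_mul_of_nonneg_left f1 (by positivity)) hFF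
          hFF0 (by positivity)) hlast (by positivity) (by positivity)) hq1 (by positivity)
          (by positivity)
    _ = (1537 * 2400000 * 4) * (P ^ (k + 3) * P ^ (2 * k + 5) * P ^ k) *
          (R ^ 4 * V₃ / T ^ 2 * F) := by ring
    _ ≤ (1537 * 2400000 * 4) * (P ^ (k + 3) * P ^ (2 * k + 5) * P ^ k) * (4 * (Q ^ 4 * R₁)) :=
        mul_le_mul_of_nonneg_left hRF (by positivity)
    _ = (1537 * 2400000 * 16) * P ^ (4 * k + 8) * (Q ^ 4 * R₁) := by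
        have : P ^ (k + 3) * P ^ (2 * k + 5) * P ^ k = P ^ (4 * k + 8) := by
          rw [← pow_add, ← pow_add]
          congr 1
          ring
        rw [this]
        ring
    _ ≤ 10 ^ 16 * P ^ (5 * k + 10) * (Q ^ 4 * R₁) := by
        refine mul_le_mul_of_nonneg_right ?_ (by positivity)
        have : P ^ (4 * k + 8) ≤ P ^ (5 * k + 10) := pow_le_pow_right₀ hP (by omega)
        have h0 : 0 ≤ P ^ (4 * k + 8) := by positivity
        nlinarith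
    _ = _ := by ring

/-- **the arithmetic of case B** -/
theorem nl_le {T P Q R R₁ V₁ V₂ V₃ ω₁ ω₂ n L : ℝ} {k : ℕ} (hT : 1 ≤ T) (hP : 1 ≤ P)
    (hQ : 1 ≤ Q) (hQT : Q ^ 2000 ≤ T) (hR : 1 ≤ R) (hlog : 1 + Real.log R ≤ P)
    (h3 : 1 ≤ V₃) (h32 : V₃ ≤ V₂) (h23 : V₂ ≤ 4 * V₃) (h21 : V₂ ≤ V₁)
    (hV1 : V₁ ≤ Q * T ^ (277 / 500 : ℝ)) (hV1T : V₁ ≤ T)
    (hV2 : V₂ ≤ Q * T ^ (677 / 2000 : ℝ)) (hR₁ : R₁ = max 1 ((V₁ * V₂ * V₃ / T) ^ 2))
    (hRR : R ≤ Q * R₁) (hω₁0 : 0 ≤ ω₁) (hω₂0 : 0 ≤ ω₂)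
    (hω₁ : ω₁ ≤ P ^ k * (1 + V₁ / R)) (hω₂ : ω₂ ≤ P ^ k * (1 + V₂ / R))
    (hn0 : V₂ / R ≤ n) (hn2 : n ≤ 4 * V₂) (hL0 : 0 ≤ L) (hL : L ≤ P ^ k * n) :
    NL P R (T ^ 2) V₁ V₂ V₃ ω₁ ω₂ L L * (V₂ / (n * R * T ^ 2)) ≤
      10 ^ 16 * P ^ (5 * k + 10) * Q ^ 4 * R₁ := by
  rcases le_total n 1 with h | h
  · exact nl_le2 hT hP hQ hQT hR hlog h3 h32 h21 hV1 hV2 hR₁ hRR hω₁0 hω₂0 hω₁ hω₂ hn0 h hL0 hL
  · exact nl_le1 hT hP hQ hQT hR hlog h3 h32 h23 h21 hV1 hV1T hV2 hR₁ hRR hω₁0 hω₂0 hω₁ hω₂ h hn2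
      hL0 hL

end Pool.Agent.F5H.H9
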