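import Pool.Agent.Helper9_F5H.Conic
import Pool.Agent.Helper68_F5.Cnt

/-!
MP_f5cbfa_nt, block N (note 2519 (2)(b)): number of pairs `(v, h)` with the conic improvement in
the first index.
-/

set_option autoImplicit false

open MeasureTheory

namespace Pool.Agent.F5H.H9

open Pool.Agent.Helper68_F5

/-- the improved elementary factor -/
noncomputable def FC (R V W : ℝ) : ℝ := 1 + V / R ^ (2 / 3 : ℝ) + V * W / R * (1 + Real.log R)

/-- the bound of the count -/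
noncomputable def NC (P R S V₁ V₂ V₃ ω₁ ω₂ ω₃ : ℝ) : ℝ :=
  R ^ 4 * FC R V₁ (WW P R S V₁ V₁ ω₁) * FF R V₂ (WW P R S V₁ V₂ ω₂) *
    (max 1 V₃ * (1 + WW P R S V₁ V₃ ω₃ / R))

/-- sum over triples of a function of the second component -/
theorem fib3 (𝓤 : Finset T3) (F : ℤ × ℤ → ℝ) (hF : ∀ z, 0 ≤ F z) {N₁ N₂ N₃ : ℝ}
    (h2 : 0 ≤ N₂) (h3 : 0 ≤ N₃) (a1 : ((𝓤.image (fun v => v.1)).card : ℝ) ≤ N₁)
    (a2 : ∀ v₁ ∈ 𝓤.image (fun v => v.1),
      ∑ v₂ ∈ (𝓤.filter (fun v => v.1 = v₁)).image (fun v => v.2.1), F v₂ ≤ N₂)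
    (a3 : ∀ w ∈ 𝓤, ((((𝓤.filter (fun v => v.1 = w.1)).filter
      (fun v => v.2.1 = w.2.1)).image (fun v => v.2.2)).card : ℝ) ≤ N₃) :
    ∑ v ∈ 𝓤, F v.2.1 ≤ N₁ * (N₂ * N₃) := by
  classical
  rw [← Finset.sum_fiberwise_of_maps_to (t := 𝓤.image (fun v => v.1)) (g := fun v : T3 => v.1)
    (fun v hv => Finset.mem_image_of_mem _ hv)]
  have key : ∀ v₁ ∈ 𝓤.image (fun v => v.1),
      ∑ v ∈ 𝓤.filter (fun v => v.1 = v₁), F v.2.1 ≤ N₂ * N₃ := by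
    intro v₁ hv₁
    rw [← Finset.sum_fiberwise_of_maps_to
      (t := (𝓤.filter (fun v => v.1 = v₁)).image (fun v => v.2.1)) (g := fun v : T3 => v.2.1)
      (fun v hv => Finset.mem_image_of_mem _ hv)]
    refine le_trans ?_ (mul_le_mul_of_nonneg_right (a2 v₁ hv₁) h3)
    rw [Finset.sum_mul]
    refine Finset.sum_le_sum fun v₂ hv₂ => ?_
    have e4 : ∑ v ∈ (𝓤.filter (fun v => v.1 = v₁)).filter (fun v => v.2.1 = v₂), F v.2.1 =
        (((𝓤.filter (fun v => v.1 = v₁)).filter (fun v => v.2.1 = v₂)).card : ℝ) * F v₂ := by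
      rw [← nsmul_eq_mul, ← Finset.sum_const]
      refine Finset.sum_congr rfl fun v hv => ?_
      rw [(Finset.mem_filter.1 hv).2]
    rw [e4, mul_comm (F v₂)]
    refine mul_le_mul_of_nonneg_right ?_ (hF _)
    have hinj : Set.InjOn (fun v : T3 => v.2.2)
        ((𝓤.filter (fun v => v.1 = v₁)).filter (fun v => v.2.1 = v₂) : Finset _) := by
      intro x hx y hy hxy
      rw [Finset.mem_coe, Finset.mem_filter, Finset.mem_filter] at hx hy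
      exact Prod.ext (hx.1.2.trans hy.1.2.symm) (Prod.ext (hx.2.trans hy.2.symm) hxy)
    rw [← Finset.card_image_of_injOn hinj]
    rw [Finset.mem_image] at hv₂
    obtain ⟨w, hw, rfl⟩ := hv₂
    rw [Finset.mem_filter] at hw
    have := a3 w hw.1
    rw [hw.2] at this
    exact this
  calc ∑ v₁ ∈ 𝓤.image (fun v => v.1), ∑ v ∈ 𝓤.filter (fun v => v.1 = v₁), F v.2.1
      ≤ ∑ _v₁ ∈ 𝓤.image (fun v => v.1), N₂ * N₃ := Finset.sum_le_sum key
    _ = (𝓤.image (fun v => v.1)).card * (N₂ * N₃) := by rw [Finset.sum_const, nsmul_eq_mul]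
    _ ≤ N₁ * (N₂ * N₃) := mul_le_mul_of_nonneg_right a1 (mul_nonneg h2 h3)

/-- arithmetic for one short vector `z`: `w = W / ‖z‖` -/
theorem one_z {P R W n K₄ KJ N₃ G : ℝ} (hP : 1 ≤ P) (hR : 0 < R) (hn : 0 < n) (hW : 0 ≤ W)
    (hK₄ : 0 ≤ K₄) (hKJ : 0 ≤ KJ) (hG : 0 ≤ G) (h0 : 0 ≤ N₃) (h1 : N₃ ≤ 3 * K₄ * P * R)
    (h2 : W < n → N₃ ≤ KJ * (16384 * P * (W * R / n) + 2 * G)) :
    (1 + W / n) * N₃ ≤ (6 * K₄ + 32768 * KJ) * P * (W * R / n + G) := by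
  have hP0 : 0 < P := by linarith
  have hX : 0 ≤ W * R / n := by positivity
  by_cases h : W < n
  · have e1 : 1 + W / n ≤ 2 := by
      have : W / n ≤ 1 := by rw [div_le_one hn]; exact h.le
      linarith
    calc (1 + W / n) * N₃ ≤ 2 * (KJ * (16384 * P * (W * R / n) + 2 * G)) :=
          mul_le_mul e1 (h2 h) h0 (by norm_num)
      _ = 32768 * KJ * P * (W * R / n) + 4 * KJ * G := by ring
      _ ≤ (6 * K₄ + 32768 * KJ) * P * (W * R / n + G) := by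
          have a1 : KJ * G ≤ KJ * P * G := by
            have : 0 ≤ KJ * G := by positivity
            nlinarith
          have a2 : 0 ≤ K₄ * P * (W * R / n) := by positivity
          have a3 : 0 ≤ K₄ * P * G := by positivity
          have a4 : 0 ≤ KJ * P * G := by positivity
          nlinarith
  · have hle : n ≤ W := not_lt.1 h
    have e1 : 1 + W / n ≤ 2 * (W / n) := by
      have : 1 ≤ W / n := by rw [le_div_iff₀ hn]; linarith
      linarith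
    calc (1 + W / n) * N₃ ≤ 2 * (W / n) * (3 * K₄ * P * R) :=
          mul_le_mul e1 h1 h0 (by positivity)
      _ = 6 * K₄ * P * (W * R / n) := by ring
      _ ≤ (6 * K₄ + 32768 * KJ) * P * (W * R / n + G) := by
          have a2 : 0 ≤ KJ * P * (W * R / n) := by positivity
          have a3 : 0 ≤ K₄ * P * G := by positivity
          have a4 : 0 ≤ KJ * P * G := by positivity
          nlinarith

theorem pair_count_conic (hst : StripStmt) (hds : DiscStripStmt) (hbox : BoxStmt)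
    (han : AnnStmt) (has : AnnStripStmt) (hsh : ShortStmt) : ∀ c₀ : ℝ, 0 < c₀ →
    ∀ KJ : ℝ, 1 ≤ KJ → ∃ K : ℝ, 1 ≤ K ∧ ∀ g : ℤ × ℤ →+ ℂ, Sep c₀ g → JG KJ g →
      ∀ (P R S V₁ V₂ V₃ ω₁ ω₂ ω₃ : ℝ), 1 ≤ P → 20000 * P ^ 3 ≤ R → 0 < S →
      1 ≤ V₂ → V₂ ≤ V₁ → 0 ≤ V₃ → V₃ ≤ V₂ → 0 ≤ ω₁ → 0 ≤ ω₂ → 0 ≤ ω₃ →
      ∀ 𝓟 : Finset (T3 × T3), (∀ p ∈ 𝓟, Pair g P R S V₁ V₂ V₃ ω₁ ω₂ ω₃ p.1 p.2) →
        (𝓟.card : ℝ) ≤ K * P ^ 8 * NC P R S V₁ V₂ V₃ ω₁ ω₂ ω₃ := by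
  classical
  intro c₀ hc₀ KJ hKJ
  obtain ⟨K₁, hK₁, h1⟩ := hcount2 hst hds c₀ hc₀
  obtain ⟨K₂, hK₂, h2⟩ := dsum_ann han has hsh c₀ hc₀
  obtain ⟨K₃, hK₃, h3⟩ := hbox c₀ hc₀
  obtain ⟨K₄, hK₄, h4⟩ := han c₀ hc₀
  obtain ⟨K₅, hK₅, h5⟩ := hds c₀ hc₀
  obtain ⟨K₆, hK₆, h6⟩ := hsh c₀ hc₀
  obtain ⟨C₁, hC₁⟩ : ∃ C, C = 6 * K₄ + 32768 * KJ := ⟨_, rfl⟩
  obtain ⟨K, hK⟩ : ∃ K, K = 2 * K₁ * K₂ * (54 * K₃ * K₄ + 9218 * K₅ * C₁ * K₆) := ⟨_, rfl⟩
  have hK1 : 1 ≤ K := by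
    have a1 : 1 ≤ K₁ * K₂ := by nlinarith [mul_le_mul hK₁ hK₂ zero_le_one (by linarith)]
    have a2 : 1 ≤ K₃ * K₄ := by nlinarith [mul_le_mul hK₃ hK₄ zero_le_one (by linarith)]
    have a3 : 0 ≤ K₅ * C₁ * K₆ := by
      have : 0 ≤ C₁ := by rw [hC₁]; linarith
      positivity
    have a4 : 1 ≤ 54 * K₃ * K₄ + 9218 * K₅ * C₁ * K₆ := by nlinarith
    have a5 := mul_le_mul a1 a4 zero_le_one (by linarith)
    rw [hK]; nlinarith
  refine ⟨K, hK1, ?_⟩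
  intro g hg hJ P R S V₁ V₂ V₃ ω₁ ω₂ ω₃ hP hPR hS hV2 h21 h30 h32 hω₁ hω₂ hω₃ 𝓟 h𝓟
  have hP3 : 1 ≤ P ^ 3 := one_le_pow₀ hP
  have hPP3 : P ≤ P ^ 3 := by
    calc P = P ^ 1 := (pow_one P).symm
      _ ≤ P ^ 3 := pow_le_pow_right₀ hP (by norm_num)
  have hPR4 : 4 * P ≤ R := by linarith
  have hR : 1 ≤ R := by linarith
  have hR0 : 0 < R := by linarith
  have hP0 : 0 < P := by linarith
  have hC₁0 : 0 < C₁ := by rw [hC₁]; linarith
  obtain ⟨G, hG⟩ : ∃ G, G = R ^ (2 / 3 : ℝ) := ⟨_, rfl⟩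
  have hG1 : 1 ≤ G := by rw [hG]; exact Real.one_le_rpow hR (by norm_num)
  have hG0 : 0 < G := by linarith
  have hGR : G * G * G = R * R := by
    rw [hG, ← Real.rpow_add hR0, ← Real.rpow_add hR0]
    norm_num
    ring
  have hlogG : Real.log G ≤ Real.log R := by
    rw [hG, Real.log_rpow hR0]
    have := Real.log_nonneg hR
    linarith
  have hlR := Real.log_nonneg hR
  obtain ⟨W₁, hW₁⟩ : ∃ W, W = WW P R S V₁ V₁ ω₁ := ⟨_, rfl⟩
  obtain ⟨W₂, hW₂⟩ : ∃ W, W = WW P R S V₁ V₂ ω₂ := ⟨_, rfl⟩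
  obtain ⟨W₃, hW₃⟩ : ∃ W, W = WW P R S V₁ V₃ ω₃ := ⟨_, rfl⟩
  have hW₁0 : 0 ≤ W₁ := by rw [hW₁]; exact WW_nonneg hR0.le hS.le (by linarith) hω₁
  have hW₂0 : 0 ≤ W₂ := by rw [hW₂]; exact WW_nonneg hR0.le hS.le (by linarith) hω₂
  have hW₃0 : 0 ≤ W₃ := by rw [hW₃]; exact WW_nonneg hR0.le hS.le h30 hω₃
  obtain ⟨B, hB⟩ : ∃ B, B = max 1 V₃ * (1 + W₃ / R) := ⟨_, rfl⟩
  have hB0 : 0 ≤ B := by
    rw [hB]
    have : (0 : ℝ) ≤ max 1 V₃ := le_trans zero_le_one (le_max_left _ _)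
    positivity
  have hV1 : 0 ≤ V₁ := by linarith
  have hF₂ := FF_ge (R := R) (V := V₂) (W := W₂) hR (by linarith) hW₂0
  obtain ⟨F, hF⟩ : ∃ F, F = FF R V₂ W₂ := ⟨_, rfl⟩
  rw [← hF] at hF₂
  have hne : ∀ z : ℤ × ℤ, z ≠ 0 → 0 < ‖g z‖ := fun z hz => lt_of_lt_of_le hc₀ (hg z hz)
  -- the first projection
  obtain ⟨𝓥, h𝓥⟩ : ∃ 𝓥, 𝓥 = 𝓟.image (fun p => p.1) := ⟨_, rfl⟩
  have hv : ∀ v ∈ 𝓥, R ≤ ‖g v.1‖ ∧ ‖g v.1‖ ≤ 2 * R ∧ Tri P ‖g v.1‖ (g v.1) (g v.2.1) (g v.2.2) := by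
    intro v hv
    rw [h𝓥, Finset.mem_image] at hv
    obtain ⟨p, hp, rfl⟩ := hv
    exact ⟨(h𝓟 p hp).lo, (h𝓟 p hp).hi, (h𝓟 p hp).tri⟩
  -- the normal vector of the first strip
  obtain ⟨a, ha⟩ : ∃ a : T3 → ℂ, a = fun v => vc (A0 ‖g v.1‖ (g v.1) (g v.2.1) (g v.2.2)) (g v.1) :=
    ⟨_, rfl⟩
  have hDP₂ : ∀ z, 0 ≤ DP g P R V₂ W₂ (g z) := fun z => by
    have := DP_nonneg g (P := P) (by linarith : (0 : ℝ) ≤ V₂) hW₂0 hR0.le (g z)
    linarith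
  -- number of pairs as a sum over `v`
  have e1 : (𝓟.card : ℝ) ≤ ∑ v ∈ 𝓥, 2 * K₁ * B * (DQ g G V₁ W₁ (a v) * DP g P R V₂ W₂ (g v.2.1)) := by
    have h7 := Finset.card_eq_sum_card_image (fun p : T3 × T3 => p.1) 𝓟
    have h8 : (𝓟.card : ℝ) = ∑ v ∈ 𝓥, ((𝓟.filter (fun p => p.1 = v)).card : ℝ) := by
      rw [h7, h𝓥]; push_cast; rfl
    rw [h8]
    refine Finset.sum_le_sum fun v hv' => ?_
    obtain ⟨hlo, hhi, ht⟩ := hv v hv'
    have hinj : Set.InjOn (fun p : T3 × T3 => p.2) (𝓟.filter (fun p => p.1 = v) : Finset _) := by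
      intro x hx y hy hxy
      rw [Finset.mem_coe, Finset.mem_filter] at hx hy
      exact Prod.ext (hx.2.trans hy.2.symm) hxy
    rw [← Finset.card_image_of_injOn hinj]
    have key := h1 g hg P R S ‖g v.1‖ V₁ V₂ V₃ ω₁ ω₂ ω₃ G (Real.sqrt R) (g v.1) (g v.2.1) (g v.2.2)
      ht hR hG1 (Real.one_le_sqrt.2 hR) hlo hhi hS hV2 h21 h30 h32 hω₁ hω₂ hω₃
      ((𝓟.filter (fun p => p.1 = v)).image (fun p => p.2)) (by
        intro h hh
        rw [Finset.mem_image] at hh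
        obtain ⟨p, hp, rfl⟩ := hh
        rw [Finset.mem_filter] at hp
        rw [← hp.2]
        exact (h𝓟 p hp.1).win)
    rw [← hW₁, ← hW₂, ← hW₃, ← hB] at key
    have k2 := DQ_le_DP g (P := P) (R := R) (V := V₂) (W := W₂) ht hR hlo ht.n₂
      (itp_val₂ ht.w12 ht.w23 ht.w31 _ _ _) (by linarith) hW₂0
    have k3 : 0 ≤ DQ g G V₁ W₁ (a v) := by
      have := DQ_ge g hG0.le hV1 hW₁0 (a v)
      linarith
    refine le_trans key ?_
    have e0 : vc (A0 ‖g v.1‖ (g v.1) (g v.2.1) (g v.2.2)) (g v.1) = a v := by rw [ha]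
    rw [e0]
    calc K₁ * DQ g G V₁ W₁ (a v) * DQ g (Real.sqrt R) V₂ W₂
          (vc (A0 ‖g v.1‖ (g v.1) (g v.2.1) (g v.2.2)) (g v.2.1)) * B
        ≤ K₁ * DQ g G V₁ W₁ (a v) * (2 * DP g P R V₂ W₂ (g v.2.1)) * B := by
          refine mul_le_mul_of_nonneg_right (mul_le_mul_of_nonneg_left k2 ?_) hB0
          positivity
      _ = _ := by ring
  -- the annulus sums
  have e6 : ∀ 𝓤 : Finset T3, 𝓤 ⊆ 𝓥 → ∀ v₁ ∈ 𝓤.image (fun v => v.1),
      ∑ v₂ ∈ (𝓤.filter (fun v => v.1 = v₁)).image (fun v => v.2.1), DP g P R V₂ W₂ (g v₂) ≤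
        K₂ * P ^ 4 * R * F := by
    intro 𝓤 hsub v₁ hv₁
    rw [Finset.mem_image] at hv₁
    obtain ⟨w, hw, rfl⟩ := hv₁
    obtain ⟨hlo, hhi, ht⟩ := hv w (hsub hw)
    rw [hF]
    refine h2 g hg P R ‖g w.1‖ V₂ W₂ hP hPR4 hlo hhi (by linarith) hW₂0 _ ?_
    intro z hz
    rw [Finset.mem_image] at hz
    obtain ⟨u, hu, rfl⟩ := hz
    rw [Finset.mem_filter] at hu
    have := (hv u (hsub hu.1)).2.2.n₂
    rw [hu.2] at this
    exact this
  -- the third component, trivial bound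
  have e7 : ∀ 𝓤 : Finset T3, 𝓤 ⊆ 𝓥 → ∀ w ∈ 𝓤, ((((𝓤.filter (fun v => v.1 = w.1)).filter
      (fun v => v.2.1 = w.2.1)).image (fun v => v.2.2)).card : ℝ) ≤ 3 * K₄ * P * R := by
    intro 𝓤 hsub w hw
    obtain ⟨hlo, hhi, ht⟩ := hv w (hsub hw)
    have key := h4 g hg ‖g w.1‖ P hP (norm_nonneg _)
      (((𝓤.filter (fun v => v.1 = w.1)).filter (fun v => v.2.1 = w.2.1)).image (fun v => v.2.2)) (by
        intro z hz
        rw [Finset.mem_image] at hz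
        obtain ⟨u, hu, rfl⟩ := hz
        rw [Finset.mem_filter, Finset.mem_filter] at hu
        have := (hv u (hsub hu.1.1)).2.2.n₃
        rw [hu.1.2] at this
        exact this)
    refine le_trans key ?_
    calc K₄ * P * (‖g w.1‖ + P) ≤ K₄ * P * (3 * R) :=
          mul_le_mul_of_nonneg_left (by linarith) (by positivity)
      _ = 3 * K₄ * P * R := by ring
  -- the full sum
  have s1 : ∑ v ∈ 𝓥, DP g P R V₂ W₂ (g v.2.1) ≤
      9 * K₃ * R ^ 2 * (K₂ * P ^ 4 * R * F * (3 * K₄ * P * R)) := by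
    refine fib3 𝓥 (fun z => DP g P R V₂ W₂ (g z)) hDP₂ (by positivity) (by positivity) ?_
      (e6 𝓥 (Finset.Subset.refl _)) (e7 𝓥 (Finset.Subset.refl _))
    have key := h3 g hg 1 norm_one (2 * R) (2 * R) 0 0 (by linarith) (by linarith)
      (𝓥.image (fun v => v.1)) (fun z hz => by
      rw [Finset.mem_image] at hz
      obtain ⟨u, hu, rfl⟩ := hz
      have h9 := (hv u hu).2.1
      have h10 := abs_sp_le 1 (g u.1)
      have h11 := abs_wd_le 1 (g u.1)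
      rw [norm_one, one_mul] at h10 h11
      rw [sub_zero, sub_zero]
      exact ⟨le_trans h10 h9, le_trans h11 h9⟩)
    refine le_trans key ?_
    have h12 : (1 + 2 * R) * (1 + 2 * R) ≤ 9 * (R * R) := by nlinarith
    calc K₃ * (1 + 2 * R) * (1 + 2 * R) = K₃ * ((1 + 2 * R) * (1 + 2 * R)) := by ring
      _ ≤ K₃ * (9 * (R * R)) := mul_le_mul_of_nonneg_left h12 (by linarith)
      _ = _ := by ring
  -- the sum with one short vector
  have s2 : ∀ z : ℤ × ℤ, z ≠ 0 →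
      ∑ v ∈ 𝓥.filter (fun v => |sp (a v) (g z)| ≤ 2 * W₁), DP g P R V₂ W₂ (g v.2.1) ≤
      9218 * K₅ * P ^ 3 * R * (K₂ * P ^ 4 * R * F) * (C₁ * P * (W₁ * R / ‖g z‖ + G)) := by
    intro z hz
    have hn := hne z hz
    obtain ⟨𝓤, h𝓤⟩ : ∃ 𝓤, 𝓤 = 𝓥.filter (fun v => |sp (a v) (g z)| ≤ 2 * W₁) := ⟨_, rfl⟩
    have hsub : 𝓤 ⊆ 𝓥 := by rw [h𝓤]; exact Finset.filter_subset _ _
    have hs : ∀ v ∈ 𝓤, |sp (a v) (g z)| ≤ 2 * W₁ := by
      intro v hv'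
      rw [h𝓤, Finset.mem_filter] at hv'
      exact hv'.2
    rw [← h𝓤]
    -- the number of `v₁`
    have n1 : ((𝓤.image (fun v => v.1)).card : ℝ) ≤ 9218 * K₅ * P ^ 3 * R * (1 + W₁ / ‖g z‖) := by
      have key := h5 g hg (g z) (norm_pos_iff.1 hn) (2 * R) (2 * W₁ + 4608 * P ^ 3 * ‖g z‖)
        (by linarith) (by positivity) (𝓤.image (fun v => v.1)) (fun w hw => by
          rw [Finset.mem_image] at hw
          obtain ⟨u, hu, rfl⟩ := hw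
          have ht := (hv u (hsub hu)).2.2
          have h13 := hs u hu
          rw [ha] at h13
          exact ⟨(hv u (hsub hu)).2.1, ht.short ht.n₁ h13⟩)
      refine le_trans key ?_
      have e8 : (2 * W₁ + 4608 * P ^ 3 * ‖g z‖) / ‖g z‖ = 2 * (W₁ / ‖g z‖) + 4608 * P ^ 3 := by
        field_simp
      rw [e8]
      have hw0 : 0 ≤ W₁ / ‖g z‖ := by positivity
      have e9 : 1 + (2 * (W₁ / ‖g z‖) + 4608 * P ^ 3) ≤ 4609 * P ^ 3 * (1 + W₁ / ‖g z‖) := by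
        nlinarith [mul_nonneg (by linarith : (0 : ℝ) ≤ P ^ 3 - 1) hw0]
      calc K₅ * (2 * R) * (1 + (2 * (W₁ / ‖g z‖) + 4608 * P ^ 3))
          ≤ K₅ * (2 * R) * (4609 * P ^ 3 * (1 + W₁ / ‖g z‖)) :=
            mul_le_mul_of_nonneg_left e9 (by positivity)
        _ = _ := by ring
    -- the maximal number of `v₃`
    obtain ⟨N₃, hN₃⟩ : ∃ N : ℝ, N = min (3 * K₄ * P * R)
        (if W₁ < ‖g z‖ then KJ * (16384 * P * (W₁ * R / ‖g z‖) + 2 * G) else 3 * K₄ * P * R) :=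
      ⟨_, rfl⟩
    have hN0 : 0 ≤ N₃ := by
      rw [hN₃]
      refine le_min (by positivity) ?_
      split_ifs <;> positivity
    have n3 : ∀ w ∈ 𝓤, ((((𝓤.filter (fun v => v.1 = w.1)).filter
        (fun v => v.2.1 = w.2.1)).image (fun v => v.2.2)).card : ℝ) ≤ N₃ := by
      intro w hw
      rw [hN₃]
      refine le_min (e7 𝓤 hsub w hw) ?_
      split_ifs with hWz
      · obtain ⟨hlo, hhi, ht⟩ := hv w (hsub hw)
        have key := conic_count hJ (P := P) (c := ‖g w.1‖) (d := 2 * W₁) (v₁ := g w.1)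
          (v₂ := g w.2.1) (z := g z) (by linarith) (norm_pos_iff.1 hn) (by linarith)
          (by linarith) (by nlinarith) hP
          (((𝓤.filter (fun v => v.1 = w.1)).filter (fun v => v.2.1 = w.2.1)).image
            (fun v => v.2.2)) (fun y hy => by
            rw [Finset.mem_image] at hy
            obtain ⟨u, hu, rfl⟩ := hy
            rw [Finset.mem_filter, Finset.mem_filter] at hu
            have hu1 := (hv u (hsub hu.1.1)).2.2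
            have hu2 := hs u hu.1.1
            rw [ha] at hu2
            simp only [hu.1.2, hu.2] at hu1 hu2
            exact ⟨hu1, hu2⟩)
        refine le_trans key (mul_le_mul_of_nonneg_left ?_ (by linarith))
        have e10 : 4096 * P * (2 * W₁) * ‖g w.1‖ / ‖g z‖ ≤ 16384 * P * (W₁ * R / ‖g z‖) := by
          calc 4096 * P * (2 * W₁) * ‖g w.1‖ / ‖g z‖ ≤ 4096 * P * (2 * W₁) * (2 * R) / ‖g z‖ := by
                refine div_le_div_of_nonneg_right ?_ hn.le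
                exact mul_le_mul_of_nonneg_left hhi (by positivity)
            _ = _ := by ring
        have e11 : ‖g w.1‖ ^ (2 / 3 : ℝ) ≤ 2 * G := by
          calc ‖g w.1‖ ^ (2 / 3 : ℝ) ≤ (2 * R) ^ (2 / 3 : ℝ) :=
                Real.rpow_le_rpow (norm_nonneg _) hhi (by norm_num)
            _ = 2 ^ (2 / 3 : ℝ) * G := by rw [Real.mul_rpow (by norm_num) hR0.le, hG]
            _ ≤ 2 * G := by
                refine mul_le_mul_of_nonneg_right ?_ hG0.le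
                calc (2 : ℝ) ^ (2 / 3 : ℝ) ≤ 2 ^ (1 : ℝ) :=
                      Real.rpow_le_rpow_of_exponent_le (by norm_num) (by norm_num)
                  _ = 2 := Real.rpow_one 2
        linarith
      · exact e7 𝓤 hsub w hw
    have key := fib3 𝓤 (fun z => DP g P R V₂ W₂ (g z)) hDP₂ (by positivity) hN0 n1
      (e6 𝓤 hsub) n3
    refine le_trans key ?_
    have oz := one_z (P := P) (R := R) (W := W₁) (n := ‖g z‖) (K₄ := K₄) (KJ := KJ) (N₃ := N₃)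
      (G := G) hP hR0 hn hW₁0 (by linarith) (by linarith) hG0.le hN0
      (by rw [hN₃]; exact min_le_left _ _)
      (fun h => by rw [hN₃, if_pos h]; exact min_le_right _ _)
    rw [← hC₁] at oz
    calc 9218 * K₅ * P ^ 3 * R * (1 + W₁ / ‖g z‖) * (K₂ * P ^ 4 * R * F * N₃)
        = 9218 * K₅ * P ^ 3 * R * (K₂ * P ^ 4 * R * F) * ((1 + W₁ / ‖g z‖) * N₃) := by ring
      _ ≤ _ := mul_le_mul_of_nonneg_left oz (by positivity)
  -- the sum of the products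
  obtain ⟨A, hA⟩ : ∃ A, A = 1 + V₁ / G + 2 * (V₁ * W₁ / R) := ⟨_, rfl⟩
  have hA0 : 0 ≤ A := by rw [hA]; positivity
  have hshG := h6 g hg G hG1
  have s3 : ∑ v ∈ 𝓥, DQ g G V₁ W₁ (a v) * DP g P R V₂ W₂ (g v.2.1) ≤
      A * ∑ v ∈ 𝓥, DP g P R V₂ W₂ (g v.2.1) +
      ∑ z ∈ (lt g G).filter (fun z => z ≠ 0), V₁ / ‖g z‖ *
        ∑ v ∈ 𝓥.filter (fun v => |sp (a v) (g z)| ≤ 2 * W₁), DP g P R V₂ W₂ (g v.2.1) := by
    have e12 : ∀ v ∈ 𝓥, DQ g G V₁ W₁ (a v) * DP g P R V₂ W₂ (g v.2.1) ≤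
        A * DP g P R V₂ W₂ (g v.2.1) + ∑ z ∈ (lt g G).filter (fun z => z ≠ 0),
          if |sp (a v) (g z)| ≤ 2 * W₁ then V₁ / ‖g z‖ * DP g P R V₂ W₂ (g v.2.1) else 0 := by
      intro v hv'
      obtain ⟨hlo, hhi, ht⟩ := hv v hv'
      have ha1 : ‖g v.1‖ / 2 ≤ ‖a v‖ := by
        rw [ha]
        exact ht.norm_vc_ge ht.n₁ (itp_val₁ ht.w12 ht.w23 ht.w31 _ _ _)
      have e13 : V₁ * W₁ / ‖a v‖ ≤ 2 * (V₁ * W₁ / R) := by
        calc V₁ * W₁ / ‖a v‖ ≤ V₁ * W₁ / (R / 2) :=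
              div_le_div_of_nonneg_left (by positivity) (by positivity) (by linarith)
          _ = 2 * (V₁ * W₁ / R) := by field_simp
      have e14 : ∑ z ∈ (lt g G).filter (fun z => z ≠ 0),
          (if |sp (a v) (g z)| ≤ 2 * W₁ then V₁ / ‖g z‖ * DP g P R V₂ W₂ (g v.2.1) else 0) =
          (∑ z ∈ (lt g G).filter (fun z => z ≠ 0 ∧ |sp (a v) (g z)| ≤ 2 * W₁), V₁ / ‖g z‖) *
            DP g P R V₂ W₂ (g v.2.1) := by
        rw [← Finset.sum_filter, Finset.filter_filter, Finset.sum_mul]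
      rw [e14]
      unfold DQ
      have := hDP₂ v.2.1
      have e15 : 1 + V₁ / G + V₁ * W₁ / ‖a v‖ ≤ A := by rw [hA]; linarith
      rw [add_mul]
      exact add_le_add (mul_le_mul_of_nonneg_right e15 this) le_rfl
    refine le_trans (Finset.sum_le_sum e12) ?_
    rw [Finset.sum_add_distrib, ← Finset.mul_sum, Finset.sum_comm]
    refine le_of_eq ?_
    congr 1
    refine Finset.sum_congr rfl fun z _ => ?_
    rw [← Finset.sum_filter, Finset.mul_sum]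
  have s4 : ∑ z ∈ (lt g G).filter (fun z => z ≠ 0), V₁ / ‖g z‖ *
        ∑ v ∈ 𝓥.filter (fun v => |sp (a v) (g z)| ≤ 2 * W₁), DP g P R V₂ W₂ (g v.2.1) ≤
      9218 * K₅ * P ^ 3 * R * (K₂ * P ^ 4 * R * F) * (C₁ * P) * V₁ *
        (W₁ * R * (K₆ * (1 + Real.log R)) + G * (K₆ * G)) := by
    have e16 : ∀ z ∈ (lt g G).filter (fun z => z ≠ 0), V₁ / ‖g z‖ *
        ∑ v ∈ 𝓥.filter (fun v => |sp (a v) (g z)| ≤ 2 * W₁), DP g P R V₂ W₂ (g v.2.1) ≤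
        9218 * K₅ * P ^ 3 * R * (K₂ * P ^ 4 * R * F) * (C₁ * P) * V₁ *
          (W₁ * R * (1 / ‖g z‖ ^ 2) + G * (1 / ‖g z‖)) := by
      intro z hz
      rw [Finset.mem_filter] at hz
      have hn := hne z hz.2
      refine le_trans (mul_le_mul_of_nonneg_left (s2 z hz.2) (by positivity)) (le_of_eq ?_)
      field_simp
    refine le_trans (Finset.sum_le_sum e16) ?_
    rw [← Finset.mul_sum, Finset.sum_add_distrib, ← Finset.mul_sum, ← Finset.mul_sum]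
    refine mul_le_mul_of_nonneg_left ?_ (by positivity)
    have e17 : K₆ * (1 + Real.log G) ≤ K₆ * (1 + Real.log R) :=
      mul_le_mul_of_nonneg_left (by linarith) (by linarith)
    refine add_le_add (mul_le_mul_of_nonneg_left (le_trans hshG.2 e17) (by positivity))
      (mul_le_mul_of_nonneg_left hshG.1 hG0.le)
  -- final arithmetic
  have hFC : FC R V₁ W₁ = 1 + V₁ / G + V₁ * W₁ / R * (1 + Real.log R) := by
    rw [FC, ← hG]
  have hx0 : 0 ≤ V₁ / G := by positivity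
  have hy0 : 0 ≤ V₁ * W₁ / R := by positivity
  have hFC0 : 1 ≤ FC R V₁ W₁ := by
    rw [hFC]
    have : 0 ≤ V₁ * W₁ / R * (1 + Real.log R) := by positivity
    linarith
  have hAF : A ≤ 2 * FC R V₁ W₁ := by
    rw [hA, hFC]
    nlinarith [mul_nonneg hy0 hlR]
  have hP5 : P ^ 5 ≤ P ^ 8 := pow_le_pow_right₀ hP (by norm_num)
  have t1 : A * ∑ v ∈ 𝓥, DP g P R V₂ W₂ (g v.2.1) ≤
      54 * K₃ * K₄ * K₂ * P ^ 8 * (R ^ 4 * FC R V₁ W₁ * F) := by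
    calc A * ∑ v ∈ 𝓥, DP g P R V₂ W₂ (g v.2.1)
        ≤ 2 * FC R V₁ W₁ * (9 * K₃ * R ^ 2 * (K₂ * P ^ 4 * R * F * (3 * K₄ * P * R))) :=
          mul_le_mul hAF s1 (Finset.sum_nonneg fun v _ => hDP₂ _) (by linarith)
      _ = 54 * K₃ * K₄ * K₂ * P ^ 5 * (R ^ 4 * FC R V₁ W₁ * F) := by ring
      _ ≤ 54 * K₃ * K₄ * K₂ * P ^ 8 * (R ^ 4 * FC R V₁ W₁ * F) := by
          refine mul_le_mul_of_nonneg_right (mul_le_mul_of_nonneg_left hP5 (by positivity)) ?_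
          positivity
  have hGG : G * G = R * R / G := by
    rw [eq_div_iff hG0.ne']; exact hGR
  have t2 : 9218 * K₅ * P ^ 3 * R * (K₂ * P ^ 4 * R * F) * (C₁ * P) * V₁ *
        (W₁ * R * (K₆ * (1 + Real.log R)) + G * (K₆ * G)) ≤
      9218 * K₅ * C₁ * K₆ * K₂ * P ^ 8 * (R ^ 4 * FC R V₁ W₁ * F) := by
    have e18 : V₁ * (W₁ * R * (K₆ * (1 + Real.log R)) + G * (K₆ * G)) ≤
        K₆ * R ^ 2 * FC R V₁ W₁ := by
      have e19 : V₁ * (W₁ * R * (K₆ * (1 + Real.log R)) + G * (K₆ * G)) =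
          K₆ * R ^ 2 * (V₁ * W₁ / R * (1 + Real.log R) + V₁ / G) := by
        rw [show G * (K₆ * G) = K₆ * (G * G) by ring, hGG]
        field_simp
      rw [e19, hFC]
      refine mul_le_mul_of_nonneg_left (by linarith) (by positivity)
    calc 9218 * K₅ * P ^ 3 * R * (K₂ * P ^ 4 * R * F) * (C₁ * P) * V₁ *
        (W₁ * R * (K₆ * (1 + Real.log R)) + G * (K₆ * G))
        = 9218 * K₅ * C₁ * K₂ * P ^ 8 * R ^ 2 * F *
          (V₁ * (W₁ * R * (K₆ * (1 + Real.log R)) + G * (K₆ * G))) := by ring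
      _ ≤ 9218 * K₅ * C₁ * K₂ * P ^ 8 * R ^ 2 * F * (K₆ * R ^ 2 * FC R V₁ W₁) :=
          mul_le_mul_of_nonneg_left e18 (by positivity)
      _ = _ := by ring
  have tot : ∑ v ∈ 𝓥, DQ g G V₁ W₁ (a v) * DP g P R V₂ W₂ (g v.2.1) ≤
      K₂ * (54 * K₃ * K₄ + 9218 * K₅ * C₁ * K₆) * P ^ 8 * (R ^ 4 * FC R V₁ W₁ * F) := by
    refine le_trans s3 ?_
    refine le_trans (add_le_add t1 (le_trans s4 t2)) (le_of_eq ?_)
    ring
  refine le_trans e1 ?_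
  rw [← Finset.mul_sum]
  refine le_trans (mul_le_mul_of_nonneg_left tot (by positivity)) (le_of_eq ?_)
  unfold NC
  rw [← hW₁, ← hW₂, ← hW₃, ← hB, ← hF, hK]
  ring

end Pool.Agent.F5H.H9
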