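import Pool.Agent.Helper38_F5.Vol6
import Pool.Agent.Helper46_F5N.Iso

/-!
MP_f5cbfa_nt, block N, case B: volumes of the classes of one pair.
-/

set_option autoImplicit false

open MeasureTheory

namespace Pool.Agent.F5H.H9

open Pool.Agent.Helper68_F5 Pool.Agent.Helper38_F5

/-- the class set: index `0` regular, index `1` of size at least `n₁`, index `2` on an arc -/
def CS (Q s₀ s₁ s₂ w₀ w₁ n₀ n₁ b c : ℝ) (H₀ H₁ H₂ v₂ : ℂ) : Set (ℂ × ℂ × ℂ) :=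
  {m | |‖m.1‖ ^ 2 - s₀| ≤ Q ∧ |‖m.2.1‖ ^ 2 - s₁| ≤ Q ∧ |‖m.2.2‖ ^ 2 - s₂| ≤ Q ∧
    |sp m.1 H₀ - sp m.2.1 H₁| ≤ w₀ ∧ n₀ ≤ |wd m.1 H₀| ∧ |sp m.2.1 H₁ - sp m.2.2 H₂| ≤ w₁ ∧
    n₁ ≤ |wd m.2.1 H₁| ∧ |wd m.2.2 v₂| ≤ b ∧ c ≤ |sp m.2.2 v₂|}

theorem closed_CS (Q s₀ s₁ s₂ w₀ w₁ n₀ n₁ b c : ℝ) (H₀ H₁ H₂ v₂ : ℂ) :
    IsClosed (CS Q s₀ s₁ s₂ w₀ w₁ n₀ n₁ b c H₀ H₁ H₂ v₂) := by
  have a1 : Continuous (fun q : ℂ × ℂ × ℂ => |‖q.1‖ ^ 2 - s₀|) := by fun_prop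
  have a2 : Continuous (fun q : ℂ × ℂ × ℂ => |‖q.2.1‖ ^ 2 - s₁|) := by fun_prop
  have a3 : Continuous (fun q : ℂ × ℂ × ℂ => |‖q.2.2‖ ^ 2 - s₂|) := by fun_prop
  have c1 : Continuous (fun q : ℂ × ℂ × ℂ => q.1) := continuous_fst
  have c2 : Continuous (fun q : ℂ × ℂ × ℂ => q.2.1) := continuous_snd.fst
  have c3 : Continuous (fun q : ℂ × ℂ × ℂ => q.2.2) := continuous_snd.snd
  have b1 : Continuous (fun q : ℂ × ℂ × ℂ => |sp q.1 H₀ - sp q.2.1 H₁|) :=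
    ((continuous_sp c1 H₀).sub (continuous_sp c2 H₁)).abs
  have b2 : Continuous (fun q : ℂ × ℂ × ℂ => |wd q.1 H₀|) := (continuous_wd c1 H₀).abs
  have b3 : Continuous (fun q : ℂ × ℂ × ℂ => |sp q.2.1 H₁ - sp q.2.2 H₂|) :=
    ((continuous_sp c2 H₁).sub (continuous_sp c3 H₂)).abs
  have b4 : Continuous (fun q : ℂ × ℂ × ℂ => |wd q.2.1 H₁|) := (continuous_wd c2 H₁).abs
  have b5 : Continuous (fun q : ℂ × ℂ × ℂ => |wd q.2.2 v₂|) := (continuous_wd c3 v₂).abs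
  have b6 : Continuous (fun q : ℂ × ℂ × ℂ => |sp q.2.2 v₂|) := (continuous_sp c3 v₂).abs
  exact (isClosed_le a1 continuous_const).inter ((isClosed_le a2 continuous_const).inter
    ((isClosed_le a3 continuous_const).inter ((isClosed_le b1 continuous_const).inter
    ((isClosed_le continuous_const b2).inter ((isClosed_le b3 continuous_const).inter
    ((isClosed_le continuous_const b4).inter ((isClosed_le b5 continuous_const).inter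
    (isClosed_le continuous_const b6))))))))

theorem vol_CS {Q s₀ s₁ s₂ w₀ w₁ n₀ n₁ b c : ℝ} {H₀ H₁ H₂ v₂ : ℂ} (hQ : 0 ≤ Q) (hw₀ : 0 ≤ w₀)
    (hw₁ : 0 ≤ w₁) (hn₀ : 0 < n₀) (hn₁ : 0 < n₁) (hb : 0 ≤ b) (hc : 0 < c) :
    volume (CS Q s₀ s₁ s₂ w₀ w₁ n₀ n₁ b c H₀ H₁ H₂ v₂) ≤
      ENNReal.ofReal (8 * Q * w₀ / n₀ * (8 * Q * w₁ / n₁ * (8 * Q * b / c))) := by
  have d2 : Continuous (fun q : ℂ × ℂ => q.1) := continuous_fst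
  have d3 : Continuous (fun q : ℂ × ℂ => q.2) := continuous_snd
  have a2 : Continuous (fun q : ℂ × ℂ => |‖q.1‖ ^ 2 - s₁|) := by fun_prop
  have a3 : Continuous (fun q : ℂ × ℂ => |‖q.2‖ ^ 2 - s₂|) := by fun_prop
  have b3 : Continuous (fun q : ℂ × ℂ => |sp q.1 H₁ - sp q.2 H₂|) :=
    ((continuous_sp d2 H₁).sub (continuous_sp d3 H₂)).abs
  have b4 : Continuous (fun q : ℂ × ℂ => |wd q.1 H₁|) := (continuous_wd d2 H₁).abs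
  have b5 : Continuous (fun q : ℂ × ℂ => |wd q.2 v₂|) := (continuous_wd d3 v₂).abs
  have b6 : Continuous (fun q : ℂ × ℂ => |sp q.2 v₂|) := (continuous_sp d3 v₂).abs
  have c3 : Continuous (fun q : ℂ => |‖q‖ ^ 2 - s₂|) := by fun_prop
  have c5 : Continuous (fun q : ℂ => |wd q v₂|) := (continuous_wd continuous_id v₂).abs
  have c6 : Continuous (fun q : ℂ => |sp q v₂|) := (continuous_sp continuous_id v₂).abs
  refine le_trans (volT (E := CS Q s₀ s₁ s₂ w₀ w₁ n₀ n₁ b c H₀ H₁ H₂ v₂)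
    (F := CS Q s₀ s₁ s₂ w₀ w₁ n₀ n₁ b c H₀ H₁ H₂ v₂) (Set.Subset.refl _)
    (closed_CS Q s₀ s₁ s₂ w₀ w₁ n₀ n₁ b c H₀ H₁ H₂ v₂).measurableSet
    (G := {q : ℂ × ℂ | |‖q.1‖ ^ 2 - s₁| ≤ Q ∧ |‖q.2‖ ^ 2 - s₂| ≤ Q ∧
      |sp q.1 H₁ - sp q.2 H₂| ≤ w₁ ∧ n₁ ≤ |wd q.1 H₁| ∧ |wd q.2 v₂| ≤ b ∧ c ≤ |sp q.2 v₂|})
    ?_ (B := {y : ℂ | |‖y‖ ^ 2 - s₂| ≤ Q ∧ |wd y v₂| ≤ b ∧ c ≤ |sp y v₂|}) ?_
    (m₁ := ENNReal.ofReal (8 * Q * w₀ / n₀)) (m₂ := ENNReal.ofReal (8 * Q * w₁ / n₁))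
    (m₃ := ENNReal.ofReal (8 * Q * b / c)) ?_ ?_ ?_ ?_ ?_) ?_
  · exact ((isClosed_le a2 continuous_const).inter ((isClosed_le a3 continuous_const).inter
      ((isClosed_le b3 continuous_const).inter ((isClosed_le continuous_const b4).inter
      ((isClosed_le b5 continuous_const).inter (isClosed_le continuous_const b6)))))).measurableSet
  · exact ((isClosed_le c3 continuous_const).inter ((isClosed_le c5 continuous_const).inter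
      (isClosed_le continuous_const c6))).measurableSet
  · intro q
    refine le_trans (measure_mono ?_) (area_reg (H := H₀) (s := s₀) (t := sp q.1 H₁) hQ hw₀ hn₀)
    rintro x ⟨h1, _, _, h4, h5, _⟩
    exact ⟨h1, h4, h5⟩
  · rintro x q ⟨_, h2, h3, _, _, h6, h7, h8, h9⟩
    exact ⟨h2, h3, h6, h7, h8, h9⟩
  · intro y
    refine le_trans (measure_mono ?_) (area_reg (H := H₁) (s := s₁) (t := sp y H₂) hQ hw₁ hn₁)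
    rintro x ⟨h1, _, h3, h4, _⟩
    exact ⟨h1, h3, h4⟩
  · rintro x y ⟨_, h2, _, _, h5, h6⟩
    exact ⟨h2, h5, h6⟩
  · exact area_arc hQ hb hc
  · rw [← ENNReal.ofReal_mul (by positivity), ← ENNReal.ofReal_mul (by positivity)]

/-- the same with the indices `1`, `2` exchanged -/
theorem vol_CS' {Q s₀ s₁ s₂ w₀ w₁ n₀ n₁ b c : ℝ} {H₀ H₁ H₂ v₁ : ℂ} (hQ : 0 ≤ Q) (hw₀ : 0 ≤ w₀)
    (hw₁ : 0 ≤ w₁) (hn₀ : 0 < n₀) (hn₁ : 0 < n₁) (hb : 0 ≤ b) (hc : 0 < c) :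
    volume {m : ℂ × ℂ × ℂ | (m.1, m.2.2, m.2.1) ∈
      CS Q s₀ s₂ s₁ w₀ w₁ n₀ n₁ b c H₀ H₂ H₁ v₁} ≤
      ENNReal.ofReal (8 * Q * w₀ / n₀ * (8 * Q * w₁ / n₁ * (8 * Q * b / c))) := by
  rw [Pool.Agent.Helper46_F5N.perm23
    (closed_CS Q s₀ s₂ s₁ w₀ w₁ n₀ n₁ b c H₀ H₂ H₁ v₁).measurableSet]
  exact vol_CS hQ hw₀ hw₁ hn₀ hn₁ hb hc

/-- only index `0` regular -/
theorem vol_0 {Q T s₀ s₁ s₂ w₀ n₀ d μ : ℝ} {H₀ H₁ H₂ : ℂ} (hT : 0 < T) (hs : T ^ 2 / 2 ≤ s₁)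
    (hs2 : s₁ ≤ 2 * T ^ 2) (hs' : T ^ 2 / 2 ≤ s₂) (hs2' : s₂ ≤ 2 * T ^ 2)
    (hQ : 0 ≤ Q) (hQT : 8 * Q ≤ T ^ 2) (hd : 0 ≤ d) (hμ : 0 < μ) (h1 : μ ≤ ‖H₁‖) (h2 : μ ≤ ‖H₂‖)
    (J : ℕ) (hJ : μ * T ≤ 4 ^ J * d) (hw₀ : 0 ≤ w₀) (hn₀ : 0 < n₀) :
    volume {m : ℂ × ℂ × ℂ | |‖m.1‖ ^ 2 - s₀| ≤ Q ∧ |‖m.2.1‖ ^ 2 - s₁| ≤ Q ∧
      |‖m.2.2‖ ^ 2 - s₂| ≤ Q ∧ |sp m.1 H₀ - sp m.2.1 H₁| ≤ w₀ ∧ n₀ ≤ |wd m.1 H₀| ∧
      |sp m.2.1 H₁ - sp m.2.2 H₂| ≤ d} ≤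
      ENNReal.ofReal (8 * Q * w₀ / n₀ * (2 ^ 18 * (J + 1) * Q ^ 2 * d / (μ * T))) := by
  have a1 : Continuous (fun q : ℂ × ℂ × ℂ => |‖q.1‖ ^ 2 - s₀|) := by fun_prop
  have a2 : Continuous (fun q : ℂ × ℂ × ℂ => |‖q.2.1‖ ^ 2 - s₁|) := by fun_prop
  have a3 : Continuous (fun q : ℂ × ℂ × ℂ => |‖q.2.2‖ ^ 2 - s₂|) := by fun_prop
  have c1 : Continuous (fun q : ℂ × ℂ × ℂ => q.1) := continuous_fst
  have c2 : Continuous (fun q : ℂ × ℂ × ℂ => q.2.1) := continuous_snd.fst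
  have c3 : Continuous (fun q : ℂ × ℂ × ℂ => q.2.2) := continuous_snd.snd
  have b1 : Continuous (fun q : ℂ × ℂ × ℂ => |sp q.1 H₀ - sp q.2.1 H₁|) :=
    ((continuous_sp c1 H₀).sub (continuous_sp c2 H₁)).abs
  have b2 : Continuous (fun q : ℂ × ℂ × ℂ => |wd q.1 H₀|) := (continuous_wd c1 H₀).abs
  have b3 : Continuous (fun q : ℂ × ℂ × ℂ => |sp q.2.1 H₁ - sp q.2.2 H₂|) :=
    ((continuous_sp c2 H₁).sub (continuous_sp c3 H₂)).abs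
  have d2 : Continuous (fun q : ℂ × ℂ => |‖q.1‖ ^ 2 - s₁|) := by fun_prop
  have d3 : Continuous (fun q : ℂ × ℂ => |‖q.2‖ ^ 2 - s₂|) := by fun_prop
  have d4 : Continuous (fun q : ℂ × ℂ => |sp q.1 H₁ - sp q.2 H₂|) :=
    ((continuous_sp continuous_fst H₁).sub (continuous_sp continuous_snd H₂)).abs
  refine le_trans (volP (B := {q : ℂ × ℂ | |‖q.1‖ ^ 2 - s₁| ≤ Q ∧ |‖q.2‖ ^ 2 - s₂| ≤ Q ∧
      |sp q.1 H₁ - sp q.2 H₂| ≤ d}) (m := ENNReal.ofReal (8 * Q * w₀ / n₀))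
      (m' := ENNReal.ofReal (2 ^ 18 * (J + 1) * Q ^ 2 * d / (μ * T))) ?_ ?_ ?_ ?_ ?_) ?_
  · exact ((isClosed_le a1 continuous_const).inter ((isClosed_le a2 continuous_const).inter
      ((isClosed_le a3 continuous_const).inter ((isClosed_le b1 continuous_const).inter
      ((isClosed_le continuous_const b2).inter
        (isClosed_le b3 continuous_const)))))).measurableSet
  · exact ((isClosed_le d2 continuous_const).inter ((isClosed_le d3 continuous_const).inter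
      (isClosed_le d4 continuous_const))).measurableSet
  · intro q
    refine le_trans (measure_mono ?_) (area_reg (H := H₀) (s := s₀) (t := sp q.1 H₁) hQ hw₀ hn₀)
    rintro x ⟨h1, _, _, h4, h5, _⟩
    exact ⟨h1, h4, h5⟩
  · rintro x q ⟨_, h2, h3, _, _, h6⟩
    exact ⟨h2, h3, h6⟩
  · exact Pool.Agent.Helper46_F5N.area2 hT hs hs2 hs' hs2' hQ hQT hd hμ h1 h2 J hJ
  · rw [← ENNReal.ofReal_mul (by positivity)]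

end Pool.Agent.F5H.H9
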