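import Pool.Agent.Helper38_F5.Skel
import Pool.Agent.Helper9_F5H.VolB

/-!
MP_f5cbfa_nt, block N, case B (`4 V₁ ≤ V₀`, `V₁ ≤ 4 V₂`): volumes of the classes of a pair.
-/

set_option autoImplicit false

open MeasureTheory

namespace Pool.Agent.F5H.H9

open Pool.Agent.BTL Pool.Agent.F5H.BN Pool.Agent.Helper68_F5 Pool.Agent.Helper38_F5

section B

variable {Q T R₁ : ℝ} {V : Fin 3 → ℝ} {g : ℤ × ℤ →+ ℂ} {h v : Helper68_F5.T3} {m : ℂ × ℂ × ℂ}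

theorem Tp_le (hT : 1 ≤ T) : T ^ (1 / 100000 : ℝ) ≤ T := by
  calc T ^ (1 / 100000 : ℝ) ≤ T ^ (1 : ℝ) := Real.rpow_le_rpow_of_exponent_le hT (by norm_num)
    _ = T := Real.rpow_one T

theorem Qs (a : Helper38_F5.Par Q T R₁ V) (hT : 1 ≤ T) : 1000 * Q ≤ T := by
  have hQ := a.hQ
  have h1 : (2 : ℝ) ^ 10 ≤ Q ^ 10 := pow_le_pow_left₀ (by norm_num) hQ 10
  have h2 : Q ^ 11 ≤ T ^ (1 / 100000 : ℝ) := a.pow_le (by norm_num)
  have h3 := Tp_le hT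
  have h4 : 1000 * Q ≤ Q ^ 11 := by
    have : Q ^ 11 = Q ^ 10 * Q := by ring
    rw [this]
    nlinarith
  linarith

/-- the first index is regular -/
theorem reg0 (a : Helper38_F5.Par Q T R₁ V) (hT : 1 ≤ T) (hf : FamC g V h) (n : NRC Q T R₁ g h v m)
    (h10 : 4 * V 1 ≤ V 0) : 2 / 5 * (T * V 0) ≤ |wd m.1 (g3 g h 0)| := by
  have hT0 : 0 < T := by linarith
  have hQs := Qs a hT
  have hQ := a.hQ
  have hV0 : 1 ≤ V 0 := a.hV1 0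
  have hV1 : 1 ≤ V 1 := a.hV1 1
  obtain ⟨X, hX⟩ : ∃ X, X = T * V 0 := ⟨_, rfl⟩
  have hX0 : 0 < X := by rw [hX]; positivity
  have e0 : c3 m 0 = m.1 := rfl
  have hm0 := m_lo a hT hf n 0
  have hm1 := m_hi a hT hf n 1
  rw [e0] at hm0
  have hH0 := (hf 0).1
  have hH0' := (hf 0).2
  have hH1 := (hf 1).2
  have t1 := n.tb 0 1
  rw [e0] at t1
  have t2 : Q * max ‖g3 g h 0‖ ‖g3 g h 1‖ ≤ X / 1000 := by
    have h5 : max ‖g3 g h 0‖ ‖g3 g h 1‖ ≤ V 0 := max_le hH0' (by linarith)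
    calc Q * max ‖g3 g h 0‖ ‖g3 g h 1‖ ≤ (T / 1000) * V 0 :=
          mul_le_mul (by linarith) h5 (le_trans (norm_nonneg _) (le_max_left _ _)) (by positivity)
      _ = X / 1000 := by rw [hX]; ring
  have t3 : |sp (c3 m 1) (g3 g h 1)| ≤ 101 / 400 * X := by
    refine le_trans (abs_sp_le _ _) ?_
    calc ‖c3 m 1‖ * ‖g3 g h 1‖ ≤ (101 / 100 * T) * (V 0 / 4) :=
          mul_le_mul hm1 (by linarith) (norm_nonneg _) (by positivity)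
      _ = _ := by rw [hX]; ring
  have t4 : |sp m.1 (g3 g h 0)| ≤ 2535 / 10000 * X := by
    have u1 := abs_le.1 (le_trans t1 t2)
    have u2 := abs_le.1 t3
    rw [abs_le]
    constructor <;> linarith [u1.1, u1.2, u2.1, u2.2]
  have t5 : 99 / 200 * X ≤ ‖m.1‖ * ‖g3 g h 0‖ := by
    calc 99 / 200 * X = (99 / 100 * T) * (V 0 / 2) := by rw [hX]; ring
      _ ≤ _ := mul_le_mul hm0 hH0.le (by positivity) (norm_nonneg _)
  have t6 := sp_sq_add_wd_sq m.1 (g3 g h 0)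
  rw [← hX]
  by_contra hc
  rw [not_le] at hc
  have t7 : wd m.1 (g3 g h 0) ^ 2 ≤ (2 / 5 * X) ^ 2 := by
    rw [← sq_abs (wd m.1 (g3 g h 0))]
    exact pow_le_pow_left₀ (abs_nonneg _) hc.le 2
  have t8 : sp m.1 (g3 g h 0) ^ 2 ≤ (2535 / 10000 * X) ^ 2 := by
    rw [← sq_abs (sp m.1 (g3 g h 0))]
    exact pow_le_pow_left₀ (abs_nonneg _) t4 2
  have t9 : (99 / 200 * X) ^ 2 ≤ (‖m.1‖ * ‖g3 g h 0‖) ^ 2 := pow_le_pow_left₀ (by positivity) t5 2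
  have t10 : 0 < X ^ 2 := by positivity
  nlinarith

theorem HN (hf : FamC g V h) (l : Fin 3) : ‖g3 g h l‖ ^ 2 ≤ V l ^ 2 :=
  pow_le_pow_left₀ (norm_nonneg _) (hf l).2 2

/-- volume of all points of a pair, trivial in `v` -/
theorem volNRC (a : Helper38_F5.Par Q T R₁ V) (hT : 1 ≤ T) (hf : FamC g V h) (h10 : 4 * V 1 ≤ V 0)
    (h21 : V 2 ≤ V 1) (h12 : V 1 ≤ 4 * V 2) :
    volume {m : ℂ × ℂ × ℂ | NRC Q T R₁ g h v m} ≤ ENNReal.ofReal (10 ^ 8 * Q ^ 6 / T ^ 2) := by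
  have hT0 : 0 < T := by linarith
  have hQs := Qs a hT
  have hQ := a.hQ
  have hQ0 : 0 < Q := by linarith
  have hV0 : 1 ≤ V 0 := a.hV1 0
  have hV1 : 1 ≤ V 1 := a.hV1 1
  have hV2 : 1 ≤ V 2 := a.hV1 2
  have hV00 : 0 < V 0 := by linarith
  have hV10 : 0 < V 1 := by linarith
  have hV20 : 0 < V 2 := by linarith
  obtain ⟨J, hJ⟩ : ∃ J : ℕ, J = ⌈Q⌉₊ := ⟨_, rfl⟩
  have hJ1 : Q ≤ J := by rw [hJ]; exact Nat.le_ceil Q
  have hJ2 : (J : ℝ) < Q + 1 := by rw [hJ]; exact Nat.ceil_lt_add_one hQ0.le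
  have hJT : T ≤ 4 ^ J := by
    have e1 : T = Real.exp (Real.log T) := (Real.exp_log hT0).symm
    have e2 : Real.exp (Real.log T) ≤ Real.exp (J * 1) := by
      rw [mul_one]
      exact Real.exp_le_exp.2 (le_trans a.hlog hJ1)
    have e3 : Real.exp ((J : ℝ) * 1) = Real.exp 1 ^ J := by rw [Real.exp_nat_mul]
    have e4 : Real.exp 1 ^ J ≤ 4 ^ J :=
      pow_le_pow_left₀ (Real.exp_pos 1).le (by linarith [Real.exp_one_lt_d9]) J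
    rw [e1]
    linarith
  have sl : ∀ l : Fin 3, T ^ 2 / 2 ≤ T ^ 2 - ‖g3 g h l‖ ^ 2 / 4 ∧
      T ^ 2 - ‖g3 g h l‖ ^ 2 / 4 ≤ 2 * T ^ 2 := by
    intro l
    have h1 := a.E1 hT l
    have h2 := HN hf l
    have h3 : 0 ≤ ‖g3 g h l‖ ^ 2 := by positivity
    have h4 : 0 ≤ T ^ 2 := by positivity
    constructor <;> linarith
  have hsub : {m : ℂ × ℂ × ℂ | NRC Q T R₁ g h v m} ⊆ {m : ℂ × ℂ × ℂ |
      |‖m.1‖ ^ 2 - (T ^ 2 - ‖g3 g h 0‖ ^ 2 / 4)| ≤ Q ∧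
      |‖m.2.1‖ ^ 2 - (T ^ 2 - ‖g3 g h 1‖ ^ 2 / 4)| ≤ Q ∧
      |‖m.2.2‖ ^ 2 - (T ^ 2 - ‖g3 g h 2‖ ^ 2 / 4)| ≤ Q ∧
      |sp m.1 (g3 g h 0) - sp m.2.1 (g3 g h 1)| ≤ Q * V 0 ∧
      2 / 5 * (T * V 0) ≤ |wd m.1 (g3 g h 0)| ∧
      |sp m.2.1 (g3 g h 1) - sp m.2.2 (g3 g h 2)| ≤ Q * V 1} := by
    intro m n
    have e : ∀ x y : ℝ, x - (T ^ 2 - y / 4) = x + y / 4 - T ^ 2 := fun x y => by ring
    refine ⟨?_, ?_, ?_, ?_, reg0 a hT hf n h10, ?_⟩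
    · rw [e]; exact n.an 0
    · rw [e]; exact n.an 1
    · rw [e]; exact n.an 2
    · refine le_trans (n.tb 0 1) (mul_le_mul_of_nonneg_left ?_ hQ0.le)
      exact max_le (hf 0).2 (le_trans (hf 1).2 (by linarith))
    · refine le_trans (n.tb 1 2) (mul_le_mul_of_nonneg_left ?_ hQ0.le)
      exact max_le (hf 1).2 (le_trans (hf 2).2 h21)
  refine le_trans (measure_mono hsub) ?_
  have hQT : 8 * Q ≤ T ^ 2 := by nlinarith
  refine le_trans (vol_0 (μ := V 2 / 2) hT0 (sl 1).1 (sl 1).2 (sl 2).1 (sl 2).2 hQ0.le hQT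
    (by positivity) (by positivity) ?_ ?_ J ?_ (by positivity) (by positivity)) ?_
  · have := (hf 1).1
    linarith
  · exact (hf 2).1.le
  · calc V 2 / 2 * T ≤ T * (Q * V 1) := by
          have : V 2 / 2 ≤ Q * V 1 := by nlinarith
          nlinarith
      _ ≤ 4 ^ J * (Q * V 1) := mul_le_mul_of_nonneg_right hJT (by positivity)
  · apply ENNReal.ofReal_le_ofReal
    have e1 : 8 * Q * (Q * V 0) / (2 / 5 * (T * V 0)) = 20 * Q ^ 2 / T := by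
      field_simp
      ring
    have e2 : 2 ^ 18 * ((J : ℝ) + 1) * Q ^ 2 * (Q * V 1) / (V 2 / 2 * T) ≤ 2 ^ 22 * Q ^ 4 / T := by
      rw [div_le_div_iff₀ (by positivity) hT0]
      have f1 : (J : ℝ) + 1 ≤ 2 * Q := by linarith
      have f2 : 2 ^ 18 * ((J : ℝ) + 1) * Q ^ 2 * (Q * V 1) ≤
          2 ^ 18 * (2 * Q) * Q ^ 2 * (Q * (4 * V 2)) := by
        refine mul_le_mul (mul_le_mul_of_nonneg_right (mul_le_mul_of_nonneg_left f1 (by norm_num))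
          (by positivity)) (mul_le_mul_of_nonneg_left h12 hQ0.le) (by positivity) (by positivity)
      calc 2 ^ 18 * ((J : ℝ) + 1) * Q ^ 2 * (Q * V 1) * T
          ≤ 2 ^ 18 * (2 * Q) * Q ^ 2 * (Q * (4 * V 2)) * T :=
            mul_le_mul_of_nonneg_right f2 hT0.le
        _ = 2 ^ 22 * Q ^ 4 * (V 2 / 2 * T) := by ring
    rw [e1]
    calc 20 * Q ^ 2 / T * (2 ^ 18 * ((J : ℝ) + 1) * Q ^ 2 * (Q * V 1) / (V 2 / 2 * T))
        ≤ 20 * Q ^ 2 / T * (2 ^ 22 * Q ^ 4 / T) := mul_le_mul_of_nonneg_left e2 (by positivity)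
      _ = (20 * 2 ^ 22) * (Q ^ 6 / T ^ 2) := by field_simp
      _ ≤ 10 ^ 8 * (Q ^ 6 / T ^ 2) := mul_le_mul_of_nonneg_right (by norm_num) (by positivity)
      _ = _ := by ring

/-- the point is in the corner of size `n` -/
def Cor (T n : ℝ) (g : ℤ × ℤ →+ ℂ) (h : Helper68_F5.T3) (m : ℂ × ℂ × ℂ) : Prop :=
  |wd m.2.1 (g3 g h 1)| ≤ n * T ∧ |wd m.2.2 (g3 g h 2)| ≤ n * T

/-- volume of the points outside of the corner `n` -/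
theorem volCl (a : Helper38_F5.Par Q T R₁ V) (hT : 1 ≤ T) (hf : FamC g V h) (h10 : 4 * V 1 ≤ V 0)
    (h21 : V 2 ≤ V 1) (hv : 20000 * Q ^ 9 ≤ ‖g v.1‖) {n : ℝ} (hn : 0 < n) :
    volume {m : ℂ × ℂ × ℂ | NRC Q T R₁ g h v m ∧ ¬ Cor T n g h m} ≤
      ENNReal.ofReal (10 ^ 5 * Q ^ 6 * (V 1 / (n * ‖g v.1‖ * T ^ 2))) := by
  have hT0 : 0 < T := by linarith
  have hQ := a.hQ
  have hQ0 : 0 < Q := by linarith
  have hV0 : 1 ≤ V 0 := a.hV1 0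
  have hV1 : 1 ≤ V 1 := a.hV1 1
  have hV00 : 0 < V 0 := by linarith
  have hV10 : 0 < V 1 := by linarith
  obtain ⟨r, hr⟩ : ∃ r, r = ‖g v.1‖ := ⟨_, rfl⟩
  have hr0 : 0 < r := by
    rw [hr]
    have : 0 < 20000 * Q ^ 9 := by positivity
    linarith
  have e : ∀ x y : ℝ, x - (T ^ 2 - y / 4) = x + y / 4 - T ^ 2 := fun x y => by ring
  have hsub : {m : ℂ × ℂ × ℂ | NRC Q T R₁ g h v m ∧ ¬ Cor T n g h m} ⊆
      CS Q (T ^ 2 - ‖g3 g h 0‖ ^ 2 / 4) (T ^ 2 - ‖g3 g h 1‖ ^ 2 / 4)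
        (T ^ 2 - ‖g3 g h 2‖ ^ 2 / 4) (Q * V 0) (Q * V 1) (2 / 5 * (T * V 0)) (n * T)
        (2 * Q * T) (T * r / 2) (g3 g h 0) (g3 g h 1) (g3 g h 2) (g3 g v 2) ∪
      {m : ℂ × ℂ × ℂ | (m.1, m.2.2, m.2.1) ∈
        CS Q (T ^ 2 - ‖g3 g h 0‖ ^ 2 / 4) (T ^ 2 - ‖g3 g h 2‖ ^ 2 / 4)
        (T ^ 2 - ‖g3 g h 1‖ ^ 2 / 4) (Q * V 0) (Q * V 1) (2 / 5 * (T * V 0)) (n * T)
        (2 * Q * T) (T * r / 2) (g3 g h 0) (g3 g h 2) (g3 g h 1) (g3 g v 1)} := by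
    rintro m ⟨p, hc⟩
    have b0 : |‖m.1‖ ^ 2 - (T ^ 2 - ‖g3 g h 0‖ ^ 2 / 4)| ≤ Q := by rw [e]; exact p.an 0
    have b1 : |‖m.2.1‖ ^ 2 - (T ^ 2 - ‖g3 g h 1‖ ^ 2 / 4)| ≤ Q := by rw [e]; exact p.an 1
    have b2 : |‖m.2.2‖ ^ 2 - (T ^ 2 - ‖g3 g h 2‖ ^ 2 / 4)| ≤ Q := by rw [e]; exact p.an 2
    have c01 : |sp m.1 (g3 g h 0) - sp m.2.1 (g3 g h 1)| ≤ Q * V 0 := by
      refine le_trans (p.tb 0 1) (mul_le_mul_of_nonneg_left ?_ hQ0.le)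
      exact max_le (hf 0).2 (le_trans (hf 1).2 (by linarith))
    have c02 : |sp m.1 (g3 g h 0) - sp m.2.2 (g3 g h 2)| ≤ Q * V 0 := by
      refine le_trans (p.tb 0 2) (mul_le_mul_of_nonneg_left ?_ hQ0.le)
      exact max_le (hf 0).2 (le_trans (hf 2).2 (by linarith))
    have c12 : |sp m.2.1 (g3 g h 1) - sp m.2.2 (g3 g h 2)| ≤ Q * V 1 := by
      refine le_trans (p.tb 1 2) (mul_le_mul_of_nonneg_left ?_ hQ0.le)
      exact max_le (hf 1).2 (le_trans (hf 2).2 h21)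
    have c21 : |sp m.2.2 (g3 g h 2) - sp m.2.1 (g3 g h 1)| ≤ Q * V 1 := by
      rw [abs_sub_comm]; exact c12
    have d0 := reg0 a hT hf p h10
    have f1 := m_v a hT hf p hv 1
    have f2 := m_v a hT hf p hv 2
    rw [← hr] at f1 f2
    rcases not_and_or.1 hc with h' | h'
    · left
      exact ⟨b0, b1, b2, c01, d0, c12, (not_le.1 h').le, f2.1, f2.2⟩
    · right
      exact ⟨b0, b2, b1, c02, d0, c21, (not_le.1 h').le, f1.1, f1.2⟩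
  refine le_trans (measure_mono hsub) (le_trans (measure_union_le _ _) ?_)
  have k1 := vol_CS (Q := Q) (s₀ := T ^ 2 - ‖g3 g h 0‖ ^ 2 / 4) (s₁ := T ^ 2 - ‖g3 g h 1‖ ^ 2 / 4)
    (s₂ := T ^ 2 - ‖g3 g h 2‖ ^ 2 / 4) (w₀ := Q * V 0) (w₁ := Q * V 1)
    (n₀ := 2 / 5 * (T * V 0)) (n₁ := n * T) (b := 2 * Q * T) (c := T * r / 2)
    (H₀ := g3 g h 0) (H₁ := g3 g h 1) (H₂ := g3 g h 2) (v₂ := g3 g v 2) hQ0.le (by positivity)
    (by positivity) (by positivity) (by positivity) (by positivity) (by positivity)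
  have k2 := vol_CS' (Q := Q) (s₀ := T ^ 2 - ‖g3 g h 0‖ ^ 2 / 4)
    (s₁ := T ^ 2 - ‖g3 g h 1‖ ^ 2 / 4)
    (s₂ := T ^ 2 - ‖g3 g h 2‖ ^ 2 / 4) (w₀ := Q * V 0) (w₁ := Q * V 1)
    (n₀ := 2 / 5 * (T * V 0)) (n₁ := n * T) (b := 2 * Q * T) (c := T * r / 2)
    (H₀ := g3 g h 0) (H₁ := g3 g h 1) (H₂ := g3 g h 2) (v₁ := g3 g v 1) hQ0.le (by positivity)
    (by positivity) (by positivity) (by positivity) (by positivity) (by positivity)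
  refine le_trans (add_le_add k1 k2) ?_
  rw [← ENNReal.ofReal_add (by positivity) (by positivity)]
  apply ENNReal.ofReal_le_ofReal
  rw [← hr]
  have e1 : 8 * Q * (Q * V 0) / (2 / 5 * (T * V 0)) * (8 * Q * (Q * V 1) / (n * T) *
      (8 * Q * (2 * Q * T) / (T * r / 2))) = 5120 * (Q ^ 6 * (V 1 / (n * r * T ^ 2))) := by
    field_simp
    ring
  rw [e1]
  have h0 : 0 ≤ Q ^ 6 * (V 1 / (n * r * T ^ 2)) := by positivity
  linarith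

end B

end Pool.Agent.F5H.H9
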