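import Pool.Agent.Helper9_F5H.DuB1
import Pool.Agent.Helper9_F5H.ArithL
import Pool.Agent.Helper9_F5H.CoreJ

/-!
MP_f5cbfa_nt, block N, case B: the number of pairs in a corner, and the sum over one dyadic piece.
-/

set_option autoImplicit false

open MeasureTheory

namespace Pool.Agent.F5H.H9

open Pool.Agent.BTL Pool.Agent.F5H.BN Pool.Agent.Helper68_F5 Pool.Agent.Helper38_F5

/-- hypotheses of case B -/
structure HB (Q T R₁ : ℝ) (V : Fin 3 → ℝ) : Prop where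
  a : Helper38_F5.Par Q T R₁ V
  hT : 1 ≤ T
  h21 : V 2 ≤ V 1
  h12 : V 1 ≤ 4 * V 2
  h10 : 4 * V 1 ≤ V 0
  h1 : V 1 ≤ Q * T ^ (677 / 2000 : ℝ)
  b2 : bare T V ≤ Q * R₁
  b1 : R₁ ≤ Q * bare T V

theorem HB.RT {Q T R₁ R : ℝ} {V : Fin 3 → ℝ} (b : HB Q T R₁ V) (hR : R ≤ Q ^ 3 * R₁) : R ≤ T := by
  have hT := b.hT
  have hT0 : 0 < T := by linarith
  have hQ := b.a.hQ
  have h3 : Q ^ 3 ≤ T ^ (1 / 100000 : ℝ) := b.a.pow_le (by norm_num)
  calc R ≤ Q ^ 3 * R₁ := hR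
    _ ≤ Q ^ 3 * T ^ (49 / 100 : ℝ) := mul_le_mul_of_nonneg_left b.a.hR (by positivity)
    _ ≤ T ^ (1 / 100000 : ℝ) * T ^ (49 / 100 : ℝ) := mul_le_mul_of_nonneg_right h3 (by positivity)
    _ = T ^ (1 / 100000 + 49 / 100 : ℝ) := by rw [Real.rpow_add hT0]
    _ ≤ T ^ (1 : ℝ) := Real.rpow_le_rpow_of_exponent_le hT (by norm_num)
    _ = T := Real.rpow_one T

/-- the number of pairs in the corner `n` -/
theorem countB : ∃ K : ℝ, 1 ≤ K ∧ ∀ (T Q R₁ : ℝ) (V : Fin 3 → ℝ) (g : ℤ × ℤ →+ ℂ),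
    HB Q T R₁ V → Sep 1 g → JG Q g →
    ∀ R n : ℝ, 20000 * Q ^ 9 ≤ R → R ≤ Q ^ 3 * R₁ → V 1 / R ≤ n → n ≤ 4 * V 1 →
    ∀ 𝓟 : Finset (Helper68_F5.T3 × Helper68_F5.T3), (∀ p ∈ 𝓟, FamC g V p.2 ∧ R ≤ ‖g p.1.1‖ ∧
      ‖g p.1.1‖ ≤ 2 * R ∧ ∃ m, NRC Q T R₁ g p.2 p.1 m ∧ Cor T n g p.2 m) →
    (𝓟.card : ℝ) * (V 1 / (n * R * T ^ 2)) ≤ K * Q ^ 87 * R₁ := by
  classical
  obtain ⟨K₀, hK₀, hc⟩ := pairLJ 1 one_pos
  refine ⟨K₀ * 10 ^ 16, by nlinarith, ?_⟩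
  intro T Q R₁ V g b hg hJ R n hR hRR hn hn4 𝓟 h𝓟
  have a := b.a
  have hT := b.hT
  have hT0 : 0 < T := by linarith
  have hQ := a.hQ
  have hQ0 : 0 < Q := by linarith
  have hQ1 : 1 ≤ Q := by linarith
  have hV0 := a.hV1 0
  have hV1 := a.hV1 1
  have hV2 := a.hV1 2
  have hQ91 : 1 ≤ Q ^ 9 := one_le_pow₀ hQ1
  have hR1 : 1 ≤ R := by linarith
  have hR0 : 0 < R := by linarith
  have hRT : R ≤ T := b.RT hRR
  have hn0 : 0 < n := lt_of_lt_of_le (by positivity) hn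
  have hQQ9 : Q ≤ Q ^ 9 := by
    calc Q = Q ^ 1 := (pow_one Q).symm
      _ ≤ Q ^ 9 := pow_le_pow_right₀ hQ1 (by norm_num)
  have hQR : Q ≤ R := by linarith
  have hV1n : V 1 ≤ n * R := by rwa [div_le_iff₀ hR0] at hn
  have hb0 : 1 ≤ bare T V := by unfold bare; exact le_max_left _ _
  obtain ⟨ω₁, hω₁⟩ : ∃ ω, ω = Q * (1 + V 0 / R) := ⟨_, rfl⟩
  obtain ⟨ω₂, hω₂⟩ : ∃ ω, ω = Q * (1 + V 1 / R) := ⟨_, rfl⟩
  obtain ⟨ω₃, hω₃⟩ : ∃ ω, ω = ∑ p ∈ 𝓟, |bf (Ah (T ^ 2) ‖g p.1.1‖ (g p.1.1) (g p.1.2.1) (g p.1.2.2)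
    (g p.2.1) (g p.2.2.1) (g p.2.2.2)) (g p.1.2.2) (g p.2.2.2)| := ⟨_, rfl⟩
  have hω₁0 : 0 ≤ ω₁ := by rw [hω₁]; positivity
  have hω₂0 : 0 ≤ ω₂ := by rw [hω₂]; positivity
  have hω₃0 : 0 ≤ ω₃ := by rw [hω₃]; exact Finset.sum_nonneg fun _ _ => abs_nonneg _
  have key := hc Q hQ1 g hg hJ (Q ^ 3) R (T ^ 2) (V 0) (V 1) (V 2) ω₁ ω₂ ω₃ (3 * Q * n) (3 * Q * n)
    (one_le_pow₀ hQ1) (by
      have : (Q ^ 3) ^ 3 = Q ^ 9 := by ring
      rw [this]; exact hR) (by positivity) hV1 (by linarith [b.h10]) (by linarith) b.h21 hω₁0 hω₂0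
    hω₃0 (by positivity) (by positivity) 𝓟 (fun p hp => by
      obtain ⟨hf, hlo, hhi, m, hm, hcor⟩ := h𝓟 p hp
      have hvv : 20000 * Q ^ 9 ≤ ‖g p.1.1‖ := le_trans hR hlo
      have hg0 : 0 < ‖g p.1.1‖ := by linarith
      have hwn := hm.wn (by linarith)
      have hmax : ∀ i j : Fin 3, ∀ U : ℝ, 0 ≤ U → V i ≤ U → V j ≤ U →
          Q * (1 + max ‖g3 g p.2 i‖ ‖g3 g p.2 j‖ / ‖g p.1.1‖) ≤ Q * (1 + U / R) := by
        intro i j U hU hi hj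
        have h5 : max ‖g3 g p.2 i‖ ‖g3 g p.2 j‖ ≤ U :=
          max_le (le_trans (hf i).2 hi) (le_trans (hf j).2 hj)
        have h6 : max ‖g3 g p.2 i‖ ‖g3 g p.2 j‖ / ‖g p.1.1‖ ≤ U / R :=
          div_le_div₀ hU h5 hR0 hlo
        exact mul_le_mul_of_nonneg_left (by linarith) hQ0.le
      obtain ⟨ν, hν, hy⟩ := hm.ry
      have hνT : |ν| * T ≤ 3 * R := by
        have h7 := abs_le.1 (v_close a hT hf hm hν hy 0)
        have e0 : g3 g p.1 0 = g p.1.1 := rfl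
        rw [e0] at h7
        linarith [h7.1]
      have hwd : ∀ l : Fin 3, V l ≤ V 1 → |wd (c3 m l) (g3 g p.2 l)| ≤ n * T →
          |wd (g3 g p.1 l) (g3 g p.2 l)| ≤ R * (3 * Q * n) := by
        intro l hl hcl
        obtain ⟨y, hyd⟩ : ∃ y, y = g3 g p.1 l - (ν : ℂ) * c3 m l := ⟨_, rfl⟩
        have hyn : ‖y‖ ≤ Q := by rw [hyd]; exact hy l
        have ev : g3 g p.1 l = (ν : ℂ) * c3 m l + y := by rw [hyd]; ring
        rw [ev, wd_add', wd_real]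
        have t1 := abs_add_le (ν * wd (c3 m l) (g3 g p.2 l)) (wd y (g3 g p.2 l))
        have t2 : |ν * wd (c3 m l) (g3 g p.2 l)| ≤ 3 * R * n := by
          rw [abs_mul]
          calc |ν| * |wd (c3 m l) (g3 g p.2 l)| ≤ |ν| * (n * T) :=
                mul_le_mul_of_nonneg_left hcl (abs_nonneg _)
            _ = (|ν| * T) * n := by ring
            _ ≤ 3 * R * n := mul_le_mul_of_nonneg_right hνT hn0.le
        have t3 : |wd y (g3 g p.2 l)| ≤ Q * (n * R) := by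
          refine le_trans (abs_wd_le _ _) ?_
          exact mul_le_mul hyn (le_trans (hf l).2 (le_trans hl hV1n)) (norm_nonneg _) hQ0.le
        have t4 : 0 ≤ n * R := by positivity
        nlinarith
      refine ⟨⟨hlo, hhi, tri_of a hT hf hm hvv, ⟨(hf 0).2, (hf 1).2, (hf 2).2, ?_, ?_, ?_⟩⟩, ?_, ?_⟩
      · rw [hω₁]
        exact le_trans (hwn 0 2) (hmax 0 2 (V 0) (by linarith) le_rfl (by linarith [b.h10, b.h21]))
      · rw [hω₂]
        exact le_trans (hwn 1 2) (hmax 1 2 (V 1) (by linarith) le_rfl b.h21)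
      · rw [hω₃]
        exact Finset.single_le_sum (f := fun p : Helper68_F5.T3 × Helper68_F5.T3 =>
          |bf (Ah (T ^ 2) ‖g p.1.1‖ (g p.1.1) (g p.1.2.1) (g p.1.2.2)
            (g p.2.1) (g p.2.2.1) (g p.2.2.2)) (g p.1.2.2) (g p.2.2.2)|)
          (fun _ _ => abs_nonneg _) hp
      · exact hwd 1 le_rfl hcor.1
      · exact hwd 2 b.h21 hcor.2)
  -- arithmetic
  have hQ13 : Q ≤ Q ^ 3 := by
    calc Q = Q ^ 1 := (pow_one Q).symm
      _ ≤ Q ^ 3 := pow_le_pow_right₀ hQ1 (by norm_num)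
  have hQ14 : Q ≤ Q ^ 4 := by
    calc Q = Q ^ 1 := (pow_one Q).symm
      _ ≤ Q ^ 4 := pow_le_pow_right₀ hQ1 (by norm_num)
  have hQT : (Q ^ 4) ^ 2000 ≤ T := by
    have e1 : (Q ^ 4) ^ 2000 = (Q ^ 1000) ^ 8 := by rw [← pow_mul, ← pow_mul]
    rw [e1]
    calc (Q ^ 1000) ^ 8 ≤ (T ^ (1 / 100000 : ℝ)) ^ 8 := pow_le_pow_left₀ (by positivity) a.hT 8
      _ = T ^ (8 / 100000 : ℝ) := by
          rw [← Real.rpow_natCast (T ^ (1 / 100000 : ℝ)) 8, ← Real.rpow_mul hT0.le]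
          norm_num
      _ ≤ T ^ (1 : ℝ) := Real.rpow_le_rpow_of_exponent_le hT (by norm_num)
      _ = T := Real.rpow_one T
  have hlog : 1 + Real.log R ≤ Q ^ 3 := by
    have h5 : Real.log R ≤ Q := le_trans (Real.log_le_log hR0 hRT) a.hlog
    nlinarith [mul_nonneg (by linarith : 0 ≤ Q - 2) (sq_nonneg Q)]
  have hV0T : V 0 ≤ T := by
    calc V 0 ≤ Q * T ^ (277 / 500 : ℝ) := a.hV 0
      _ ≤ T ^ (1 / 100000 : ℝ) * T ^ (277 / 500 : ℝ) := by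
          refine mul_le_mul_of_nonneg_right ?_ (by positivity)
          have := a.pow_le (k := 1) (by norm_num)
          rwa [pow_one] at this
      _ = T ^ (1 / 100000 + 277 / 500 : ℝ) := by rw [Real.rpow_add hT0]
      _ ≤ T ^ (1 : ℝ) := Real.rpow_le_rpow_of_exponent_le hT (by norm_num)
      _ = T := Real.rpow_one T
  have hRb : R ≤ Q ^ 4 * bare T V := by
    calc R ≤ Q ^ 3 * R₁ := hRR
      _ ≤ Q ^ 3 * (Q * bare T V) := mul_le_mul_of_nonneg_left b.b1 (by positivity)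
      _ = _ := by ring
  have hVR0 : 0 ≤ V 0 / R := by positivity
  have hVR1 : 0 ≤ V 1 / R := by positivity
  have hnl := nl_le (T := T) (P := Q ^ 3) (Q := Q ^ 4) (R := R) (R₁ := bare T V) (V₁ := V 0)
    (V₂ := V 1) (V₃ := V 2) (ω₁ := ω₁) (ω₂ := ω₂) (n := n) (L := 3 * Q * n) (k := 1) hT
    (one_le_pow₀ hQ1) (one_le_pow₀ hQ1) hQT hR1 hlog hV2 b.h21 b.h12 (by linarith [b.h10])
    (le_trans (a.hV 0) (mul_le_mul_of_nonneg_right hQ14 (by positivity))) hV0T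
    (le_trans b.h1 (mul_le_mul_of_nonneg_right hQ14 (by positivity))) rfl hRb hω₁0 hω₂0 (by
      rw [hω₁, pow_one]
      exact mul_le_mul_of_nonneg_right hQ13 (by linarith)) (by
      rw [hω₂, pow_one]
      exact mul_le_mul_of_nonneg_right hQ13 (by linarith)) hn hn4 (by positivity) (by
      rw [pow_one]
      refine mul_le_mul_of_nonneg_right ?_ hn0.le
      nlinarith [mul_nonneg (by linarith : 0 ≤ Q - 2) (sq_nonneg Q)])
  obtain ⟨N, hN⟩ : ∃ N, N = NL (Q ^ 3) R (T ^ 2) (V 0) (V 1) (V 2) ω₁ ω₂ (3 * Q * n) (3 * Q * n) :=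
    ⟨_, rfl⟩
  rw [← hN] at key hnl
  have hX : 0 ≤ V 1 / (n * R * T ^ 2) := by positivity
  calc (𝓟.card : ℝ) * (V 1 / (n * R * T ^ 2))
      ≤ K₀ * Q * (Q ^ 3) ^ 8 * N * (V 1 / (n * R * T ^ 2)) := mul_le_mul_of_nonneg_right key hX
    _ = K₀ * Q * (Q ^ 3) ^ 8 * (N * (V 1 / (n * R * T ^ 2))) := by ring
    _ ≤ K₀ * Q * (Q ^ 3) ^ 8 * (10 ^ 16 * (Q ^ 3) ^ (5 * 1 + 10) * (Q ^ 4) ^ 4 * bare T V) :=
        mul_le_mul_of_nonneg_left hnl (by positivity)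
    _ = K₀ * 10 ^ 16 * Q ^ 86 * bare T V := by ring
    _ ≤ K₀ * 10 ^ 16 * Q ^ 86 * (Q * R₁) := mul_le_mul_of_nonneg_left b.b2 (by positivity)
    _ = _ := by ring

theorem Cor_mono {T n n' : ℝ} {g : ℤ × ℤ →+ ℂ} {h : Helper68_F5.T3} {m : ℂ × ℂ × ℂ} (hT : 0 ≤ T)
    (h1 : n ≤ n') (hc : Cor T n g h m) : Cor T n' g h m :=
  ⟨le_trans hc.1 (mul_le_mul_of_nonneg_right h1 hT), le_trans hc.2 (mul_le_mul_of_nonneg_right h1 hT)⟩

/-- a power of two between bounds has a small exponent -/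
theorem pow_exp {T Q : ℝ} (hT : 0 < T) (hQ : 2 ≤ Q) (hlog : Real.log T ≤ Q) {k : ℕ}
    (hk : (2 : ℝ) ^ k ≤ 2 * T) : (k : ℝ) + 2 ≤ 4 * Q := by
  have h1 := Real.log_le_log (by positivity) hk
  rw [Real.log_pow, Real.log_mul (by norm_num) hT.ne'] at h1
  have h2 : 0.6931471803 < Real.log 2 := Real.log_two_gt_d9
  have h3 : Real.log 2 < 0.6931471808 := Real.log_two_lt_d9
  have hk0 : (0 : ℝ) ≤ k := Nat.cast_nonneg k
  nlinarith

/-- one dyadic piece -/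
theorem pieceB : ∃ K : ℝ, 1 ≤ K ∧ ∀ (T Q R₁ : ℝ) (V : Fin 3 → ℝ) (g : ℤ × ℤ →+ ℂ),
    HB Q T R₁ V → Sep 1 g → JG Q g →
    ∀ R : ℝ, 20000 * Q ^ 9 ≤ R → R ≤ Q ^ 3 * R₁ →
    ∀ 𝓟 : Finset (Helper68_F5.T3 × Helper68_F5.T3), (∀ p ∈ 𝓟, FamC g V p.2 ∧ R ≤ ‖g p.1.1‖ ∧
      ‖g p.1.1‖ ≤ 2 * R) →
    ∑ p ∈ 𝓟, vlm Q T R₁ g p ≤ ENNReal.ofReal (K * Q ^ 94 * R₁) := by
  classical
  obtain ⟨K₀, hK₀, hc⟩ := countB
  refine ⟨4 * 10 ^ 8 * K₀, by linarith, ?_⟩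
  intro T Q R₁ V g b hg hJ R hR hRR 𝓟 h𝓟
  have a := b.a
  have hT := b.hT
  have hT0 : 0 < T := by linarith
  have hQ := a.hQ
  have hQ0 : 0 < Q := by linarith
  have hQ1 : 1 ≤ Q := by linarith
  have hV0 := a.hV1 0
  have hV1 := a.hV1 1
  have hQ91 : 1 ≤ Q ^ 9 := one_le_pow₀ hQ1
  have hR1 : 1 ≤ R := by linarith
  have hR0 : 0 < R := by linarith
  have hRT : R ≤ T := b.RT hRR
  have hR₁0 : 0 ≤ R₁ := by
    by_contra hcon
    rw [not_le] at hcon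
    have := mul_neg_of_pos_of_neg (show 0 < Q ^ 3 by positivity) hcon
    linarith
  obtain ⟨k, hk1, hk2⟩ := exists_nat_pow_near (show (1 : ℝ) ≤ 2 * R by linarith)
    (show (1 : ℝ) < 2 by norm_num)
  have hkQ : (k : ℝ) + 2 ≤ 4 * Q := pow_exp hT0 hQ a.hlog (by linarith)
  obtain ⟨N, hN⟩ : ∃ N : ℕ → ℝ, N = fun i => 2 ^ i * (V 1 / R) := ⟨_, rfl⟩
  have hNpos : ∀ i, 0 < N i := fun i => by rw [hN]; positivity
  have hNlo : ∀ i, V 1 / R ≤ N i := fun i => by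
    rw [hN]
    have : (1 : ℝ) ≤ 2 ^ i := one_le_pow₀ (by norm_num)
    exact le_mul_of_one_le_left (by positivity) this
  have hNhi : ∀ i, i ≤ k + 1 → N i ≤ 4 * V 1 := fun i hi => by
    rw [hN]
    have h5 : (2 : ℝ) ^ i ≤ 2 ^ (k + 1) := pow_le_pow_right₀ (by norm_num) hi
    have h6 : (2 : ℝ) ^ (k + 1) ≤ 4 * R := by rw [pow_succ]; linarith
    calc 2 ^ i * (V 1 / R) ≤ (4 * R) * (V 1 / R) :=
          mul_le_mul_of_nonneg_right (le_trans h5 h6) (by positivity)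
      _ = 4 * V 1 := by field_simp
  have hNsucc : ∀ i, N (i + 1) = 2 * N i := fun i => by rw [hN]; simp only [pow_succ]; ring
  -- classes
  obtain ⟨cls, hcls⟩ : ∃ cls : Helper68_F5.T3 × Helper68_F5.T3 → ℕ → Set (ℂ × ℂ × ℂ),
    cls = fun p i => {m | NRC Q T R₁ g p.2 p.1 m ∧ Cor T (N i) g p.2 m ∧
      ∀ j, i = j + 1 → ¬ Cor T (N j) g p.2 m} := ⟨_, rfl⟩
  have hcov : ∀ p ∈ 𝓟, vlm Q T R₁ g p ≤ ∑ i ∈ Finset.range (k + 2), volume (cls p i) := by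
    intro p hp
    obtain ⟨hf, hlo, hhi⟩ := h𝓟 p hp
    refine le_trans (measure_mono ?_) (measure_biUnion_finset_le _ _)
    intro m hm
    have hm' : NRC Q T R₁ g p.2 p.1 m := hm
    have hlast : Cor T (N (k + 1)) g p.2 m := by
      have h5 : 2 * V 1 ≤ N (k + 1) := by
        rw [hN]
        calc 2 * V 1 = (2 * R) * (V 1 / R) := by field_simp
          _ ≤ 2 ^ (k + 1) * (V 1 / R) := mul_le_mul_of_nonneg_right hk2.le (by positivity)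
      have one : ∀ l : Fin 3, V l ≤ V 1 → |wd (c3 m l) (g3 g p.2 l)| ≤ N (k + 1) * T := by
        intro l hl
        refine le_trans (abs_wd_le _ _) ?_
        have h6 := m_hi a hT hf hm' l
        have h7 := le_trans (hf l).2 hl
        calc ‖c3 m l‖ * ‖g3 g p.2 l‖ ≤ (101 / 100 * T) * V 1 :=
              mul_le_mul h6 h7 (norm_nonneg _) (by positivity)
          _ ≤ (2 * V 1) * T := by nlinarith
          _ ≤ _ := mul_le_mul_of_nonneg_right h5 hT0.le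
      exact ⟨one 1 le_rfl, one 2 b.h21⟩
    have hex : ∃ i, Cor T (N i) g p.2 m := ⟨k + 1, hlast⟩
    have hmin : Nat.find hex ≤ k + 1 := Nat.find_min' hex hlast
    simp only [Set.mem_iUnion]
    refine ⟨Nat.find hex, Finset.mem_range.2 (by omega), ?_⟩
    rw [hcls]
    refine ⟨hm', Nat.find_spec hex, ?_⟩
    intro j hj
    exact Nat.find_min hex (by omega)
  -- volume of a class
  have hvol : ∀ p ∈ 𝓟, ∀ i, volume (cls p i) ≤
      ENNReal.ofReal (10 ^ 8 * Q ^ 6 * (V 1 / (N i * R * T ^ 2))) := by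
    intro p hp i
    obtain ⟨hf, hlo, hhi⟩ := h𝓟 p hp
    have hvv : 20000 * Q ^ 9 ≤ ‖g p.1.1‖ := le_trans hR hlo
    rcases i with _ | i
    · refine le_trans (measure_mono ?_) (le_trans (volNRC a hT hf b.h10 b.h21 b.h12 (v := p.1)) ?_)
      · intro m hm
        rw [hcls] at hm
        exact hm.1
      · apply ENNReal.ofReal_le_ofReal
        have e1 : V 1 / (N 0 * R * T ^ 2) = 1 / T ^ 2 := by
          rw [hN]
          field_simp
        rw [e1]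
        apply le_of_eq
        ring
    · refine le_trans (measure_mono ?_) (le_trans (volCl a hT hf b.h10 b.h21 hvv (hNpos i)) ?_)
      · intro m hm
        rw [hcls] at hm
        exact ⟨hm.1, hm.2.2 i rfl⟩
      · apply ENNReal.ofReal_le_ofReal
        have e1 : V 1 / (N i * ‖g p.1.1‖ * T ^ 2) ≤ 2 * (V 1 / (N (i + 1) * R * T ^ 2)) := by
          rw [hNsucc]
          have hNi := hNpos i
          have e2 : 2 * (V 1 / (2 * N i * R * T ^ 2)) = V 1 / (N i * R * T ^ 2) := by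
            field_simp
          rw [e2]
          refine div_le_div_of_nonneg_left (by linarith) (by positivity) ?_
          exact mul_le_mul_of_nonneg_right (mul_le_mul_of_nonneg_left hlo hNi.le) (by positivity)
        have hY : 0 ≤ V 1 / (N (i + 1) * R * T ^ 2) := by
          have := hNpos (i + 1)
          positivity
        calc 10 ^ 5 * Q ^ 6 * (V 1 / (N i * ‖g p.1.1‖ * T ^ 2))
            ≤ 10 ^ 5 * Q ^ 6 * (2 * (V 1 / (N (i + 1) * R * T ^ 2))) :=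
              mul_le_mul_of_nonneg_left e1 (by positivity)
          _ = (2 * 10 ^ 5) * (Q ^ 6 * (V 1 / (N (i + 1) * R * T ^ 2))) := by ring
          _ ≤ 10 ^ 8 * (Q ^ 6 * (V 1 / (N (i + 1) * R * T ^ 2))) :=
              mul_le_mul_of_nonneg_right (by norm_num) (by positivity)
          _ = _ := by ring
  -- sum of one class
  have hsum : ∀ i ∈ Finset.range (k + 2), ∑ p ∈ 𝓟, volume (cls p i) ≤
      ENNReal.ofReal (10 ^ 8 * K₀ * Q ^ 93 * R₁) := by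
    intro i hi
    rw [Finset.mem_range] at hi
    obtain ⟨𝓟', h𝓟'⟩ : ∃ 𝓟', 𝓟' = 𝓟.filter (fun p => (cls p i).Nonempty) := ⟨_, rfl⟩
    have e1 : ∑ p ∈ 𝓟, volume (cls p i) = ∑ p ∈ 𝓟', volume (cls p i) := by
      rw [h𝓟', Finset.sum_filter]
      refine Finset.sum_congr rfl fun p _ => ?_
      by_cases h5 : (cls p i).Nonempty
      · rw [if_pos h5]
      · rw [if_neg h5, Set.not_nonempty_iff_eq_empty.1 h5, measure_empty]
    rw [e1]
    have e2 : ∑ p ∈ 𝓟', volume (cls p i) ≤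
        ∑ _p ∈ 𝓟', ENNReal.ofReal (10 ^ 8 * Q ^ 6 * (V 1 / (N i * R * T ^ 2))) := by
      refine Finset.sum_le_sum fun p hp => ?_
      rw [h𝓟', Finset.mem_filter] at hp
      exact hvol p hp.1 i
    refine le_trans e2 ?_
    rw [Finset.sum_const, nsmul_eq_mul, ← ENNReal.ofReal_natCast, ← ENNReal.ofReal_mul (by positivity)]
    apply ENNReal.ofReal_le_ofReal
    have h6 := hc T Q R₁ V g b hg hJ R (N i) hR hRR (hNlo i) (hNhi i (by omega)) 𝓟' (fun p hp => by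
      rw [h𝓟', Finset.mem_filter] at hp
      obtain ⟨hf, hlo, hhi⟩ := h𝓟 p hp.1
      obtain ⟨m, hm⟩ := hp.2
      rw [hcls] at hm
      exact ⟨hf, hlo, hhi, m, hm.1, hm.2.1⟩)
    calc (𝓟'.card : ℝ) * (10 ^ 8 * Q ^ 6 * (V 1 / (N i * R * T ^ 2)))
        = 10 ^ 8 * Q ^ 6 * ((𝓟'.card : ℝ) * (V 1 / (N i * R * T ^ 2))) := by ring
      _ ≤ 10 ^ 8 * Q ^ 6 * (K₀ * Q ^ 87 * R₁) := mul_le_mul_of_nonneg_left h6 (by positivity)
      _ = _ := by ring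
  calc ∑ p ∈ 𝓟, vlm Q T R₁ g p ≤ ∑ p ∈ 𝓟, ∑ i ∈ Finset.range (k + 2), volume (cls p i) :=
        Finset.sum_le_sum hcov
    _ = ∑ i ∈ Finset.range (k + 2), ∑ p ∈ 𝓟, volume (cls p i) := Finset.sum_comm
    _ ≤ ∑ _i ∈ Finset.range (k + 2), ENNReal.ofReal (10 ^ 8 * K₀ * Q ^ 93 * R₁) :=
        Finset.sum_le_sum hsum
    _ = ENNReal.ofReal ((k + 2 : ℕ) * (10 ^ 8 * K₀ * Q ^ 93 * R₁)) := by
        rw [Finset.sum_const, nsmul_eq_mul, Finset.card_range, ← ENNReal.ofReal_natCast,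
          ← ENNReal.ofReal_mul (by positivity)]
    _ ≤ ENNReal.ofReal (4 * 10 ^ 8 * K₀ * Q ^ 94 * R₁) := by
        apply ENNReal.ofReal_le_ofReal
        push_cast
        have h7 : 0 ≤ 10 ^ 8 * K₀ * Q ^ 93 * R₁ := by positivity
        calc ((k : ℝ) + 2) * (10 ^ 8 * K₀ * Q ^ 93 * R₁) ≤ 4 * Q * (10 ^ 8 * K₀ * Q ^ 93 * R₁) :=
              mul_le_mul_of_nonneg_right hkQ h7
          _ = _ := by ring

end Pool.Agent.F5H.H9
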